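import Pool.Agent.Lib.MP_adc574_ag_LZ.Pair
import Pool.Agent.Lib.MP_adc574_ag_LZ.PK
import Pool.Agent.Lib.MP_adc574_ag_BK.RelM
import Pool.Agent.Lib.MP_adc574_ag_BK.GBas

/-!
# Hodge symmetry

`F` homogeneous of degree `d`, smooth. `PKm d F` has the basis `x ^ (g v)` for coordinates `CData d (N - 1) F g lv c h` modulo
the Jacobian ideal. The number of `v` with `lv v = i` is the dimension of the Jacobian ring in degree `i d - N`; it is the same for `i`
and `N - i` and not zero for `2 i = N`.
-/

set_option autoImplicit false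

namespace MPadcBM

open MvPolynomial MPadcGM MPadcHM MPadcBK MPadcLZ

universe u

section

variable {K : Type u} [Field K] {N : ℕ}

private theorem hos_tdg (e : Fin N →₀ ℕ) : tdg e = dg e + N := by
  unfold tdg dg
  rw [Finset.sum_add_distrib]
  simp

private theorem hos_deg (e : Fin N →₀ ℕ) : e.degree = dg e := Finsupp.degree_eq_sum e

private theorem hos_weight (e : Fin N →₀ ℕ) : Finsupp.weight 1 e = dg e := by
  rw [Finsupp.weight_apply, Finsupp.sum_fintype _ _ (by simp)]
  simp [dg]

private theorem hos_iff {m : ℕ} {P : MvPolynomial (Fin N) K} : Hm m P ↔ P.IsHomogeneous m := by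
  constructor
  · intro h e he
    rw [← h e (mem_support_iff.2 he)]
    exact hos_weight e
  · intro h e he
    rw [← h (mem_support_iff.1 he)]
    exact (hos_weight e).symm

private theorem hos_mono (e : Fin N →₀ ℕ) (a : K) :
    (monomial e a : MvPolynomial (Fin N) K).IsHomogeneous (dg e) := by
  apply isHomogeneous_monomial
  exact hos_deg e

private theorem hos_comp {f : MvPolynomial (Fin N) K} {k : ℕ}
    (hf : f.IsHomogeneous k) (Q : MvPolynomial (Fin N) K) (m : ℕ) :
    homogeneousComponent m (Q * f) =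
      if k ≤ m then homogeneousComponent (m - k) Q * f else 0 := by
  classical
  let _ := MvPolynomial.gradedAlgebra (σ := Fin N) (R := K)
  have h := DirectSum.coe_decompose_mul_of_right_mem (homogeneousSubmodule (Fin N) K) m
    (a := Q) (b := f) (i := k) ((mem_homogeneousSubmodule k f).2 hf)
  have e : ∀ (φ : MvPolynomial (Fin N) K) (i : ℕ),
      ((DirectSum.decompose (homogeneousSubmodule (Fin N) K) φ) i : MvPolynomial (Fin N) K) =
        homogeneousComponent i φ := fun φ i => decomposition.decompose'_apply φ i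
  rw [e, e] at h
  exact h

private theorem hos_jac {d : ℕ} {F : MvPolynomial (Fin N) K} (hF : F.IsHomogeneous d) {m : ℕ}
    {P : MvPolynomial (Fin N) K} (hP : P.IsHomogeneous m) (h : P ∈ Jac F) :
    ∃ Q : Fin N → MvPolynomial (Fin N) K, (∀ i, (Q i).IsHomogeneous (m - (d - 1))) ∧
      P = ∑ i, Q i * pderiv i F ∧ (m < d - 1 → P = 0) := by
  classical
  rw [Jac, Ideal.mem_span_range_iff_exists_fun] at h
  obtain ⟨Q, hQ⟩ := h
  have h1 : homogeneousComponent m P = P := homogeneousComponent_eq_self hP
  have h2 : ∀ i, homogeneousComponent m (Q i * pderiv i F) =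
      if d - 1 ≤ m then homogeneousComponent (m - (d - 1)) (Q i) * pderiv i F else 0 := by
    intro i
    exact hos_comp hF.pderiv (Q i) m
  have h3 : P = ∑ i, if d - 1 ≤ m then
      homogeneousComponent (m - (d - 1)) (Q i) * pderiv i F else 0 := by
    conv_lhs => rw [← h1, ← hQ, map_sum]
    exact Finset.sum_congr rfl fun i _ => h2 i
  by_cases hm : d - 1 ≤ m
  · refine ⟨fun i => homogeneousComponent (m - (d - 1)) (Q i), fun i =>
      homogeneousComponent_isHomogeneous _ _, ?_, fun h => absurd h (by omega)⟩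
    rw [h3]
    exact Finset.sum_congr rfl fun i _ => if_pos hm
  · have h0 : P = 0 := by
      rw [h3]
      exact Finset.sum_eq_zero fun i _ => if_neg hm
    refine ⟨fun _ => 0, fun i => isHomogeneous_zero _ _ _, ?_, fun _ => h0⟩
    rw [h0]
    simp

private theorem hos_brP_mono (d : ℕ) (F : MvPolynomial (Fin N) K) (e : Fin N →₀ ℕ) (a : K) :
    brP d F (monomial e a) = a • brP d F (monomial e 1) := by
  rw [← map_smul, smul_monomial, smul_eq_mul, mul_one]

/-- The class of a homogeneous element of the Jacobian ideal is a combination of monomials of smaller degree. -/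
private theorem hos_low {d : ℕ} (hd : 2 ≤ d) {F : MvPolynomial (Fin N) K}
    (hF : F.IsHomogeneous d) {m : ℕ} {P : MvPolynomial (Fin N) K} (hP : P.IsHomogeneous m)
    (h : P ∈ Jac F) (W : Submodule K (PKm d F))
    (hW : ∀ e : Fin N →₀ ℕ, dg e < m → brP d F (monomial e 1) ∈ W) : brP d F P ∈ W := by
  classical
  obtain ⟨Q, hQ, hPQ, h0⟩ := hos_jac hF hP h
  by_cases hm : m < d - 1
  · rw [h0 hm, map_zero]
    exact W.zero_mem
  rw [hPQ, map_sum]
  refine W.sum_mem fun i _ => ?_
  have h1 := brP_dl d F i (Q i)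
  unfold dl at h1
  rw [map_add, mul_comm] at h1
  rw [← neg_eq_of_add_eq_zero_right h1]
  refine W.neg_mem ?_
  rw [as_sum (pderiv i (Q i)), map_sum]
  refine W.sum_mem fun e he => ?_
  rw [hos_brP_mono]
  refine W.smul_mem _ (hW e ?_)
  have h2 := (hQ i).pderiv (i := i) (mem_support_iff.1 he)
  rw [hos_weight] at h2
  omega

variable {V : Type} [Fintype V] [DecidableEq V] {d J : ℕ} {F : MvPolynomial (Fin N) K}
  {g : V → Fin N →₀ ℕ} {lv : V → ℕ} {c : V → (Fin N →₀ ℕ) → K} {h : K}

private theorem hos_span (hN : 1 ≤ N) (hd : 2 ≤ d) (hF : F.IsHomogeneous d)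
    (top : ∀ e : Fin N →₀ ℕ, N * (d - 2) < dg e → monomial e 1 ∈ Jac F) (hh : h ≠ 0)
    (hC : CData d (N - 1) F g lv c h) :
    ∀ (n : ℕ) (e : Fin N →₀ ℕ), dg e < n → brP d F (monomial e 1) ∈
      Submodule.span K (Set.range fun v => brP d F (monomial (g v) 1)) := by
  intro n
  induction n with
  | zero => intro e he; omega
  | succ n ih =>
    intro e he
    by_cases hdv : d ∣ dg e + N
    swap
    · rw [brP_out d F e hdv]
      exact Submodule.zero_mem _
    obtain ⟨i, hi⟩ := hdv
    have hi0 : 1 ≤ i := by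
      rcases Nat.eq_zero_or_pos i with h0 | h0
      · rw [h0, mul_zero] at hi
        omega
      · exact h0
    have htd : tdg e = i * d := by rw [hos_tdg, hi, mul_comm]
    by_cases hiN : i ≤ N - 1
    · have h1 := hC.span i hi0 hiN e htd
      set S : MvPolynomial (Fin N) K :=
        ∑ v, (if lv v = i then monomial (g v) (c v e) else 0) with hS
      have hSh : S.IsHomogeneous (dg e) := by
        refine IsHomogeneous.sum _ _ _ fun v _ => ?_
        split_ifs with hv
        · have h2 : dg (g v) = dg e := by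
            have h3 := hC.lev v
            rw [hos_tdg, hv, ← htd, hos_tdg] at h3
            omega
          rw [← h2]
          exact hos_mono _ _
        · exact isHomogeneous_zero _ _ _
      have hPh : (C h * monomial e 1 - S).IsHomogeneous (dg e) :=
        ((hos_mono e 1).C_mul h).sub hSh
      have h2 := hos_low hd hF hPh h1 _ fun e' he' => ih e' (by omega)
      rw [map_sub] at h2
      have h3 : brP d F S ∈ Submodule.span K (Set.range fun v => brP d F (monomial (g v) 1)) := by
        rw [hS, map_sum]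
        refine Submodule.sum_mem _ fun v _ => ?_
        split_ifs with hv
        · rw [hos_brP_mono]
          exact Submodule.smul_mem _ _ (Submodule.subset_span ⟨v, rfl⟩)
        · rw [map_zero]
          exact Submodule.zero_mem _
      have h4 := Submodule.add_mem _ h2 h3
      rw [sub_add_cancel, C_mul_monomial, mul_one, hos_brP_mono] at h4
      have h5 := Submodule.smul_mem _ h⁻¹ h4
      rw [smul_smul, inv_mul_cancel₀ hh, one_smul] at h5
      exact h5
    · refine hos_low hd hF (hos_mono e 1) (top e ?_) _ fun e' he' => ih e' (by omega)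
      have h1 : N * d ≤ d * i := by
        rw [mul_comm d i]
        exact Nat.mul_le_mul_right d (by omega)
      obtain ⟨d', rfl⟩ := Nat.exists_eq_add_of_le hd
      have h2 : N * (2 + d') = 2 * N + N * d' := by ring
      have h3 : 2 + d' - 2 = d' := by omega
      rw [h3]
      omega

/-- The projection to the monomials with `d ∣ tdg e`. -/
private noncomputable def hos_pi (K : Type u) [Field K] (N d : ℕ) :
    MvPolynomial (Fin N) K →ₗ[K] MvPolynomial (Fin N) K :=
  open Classical in
  (basisMonomials (Fin N) K).constr K fun e => if d ∣ tdg e then monomial e 1 else 0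

private theorem hos_constr_sum {L : Type*} [AddCommGroup L] [Module K L]
    (w : (Fin N →₀ ℕ) → L) (P : MvPolynomial (Fin N) K) :
    (basisMonomials (Fin N) K).constr K w P = ∑ e ∈ P.support, coeff e P • w e := by
  conv_lhs => rw [as_sum P]
  rw [map_sum]
  refine Finset.sum_congr rfl fun e _ => ?_
  have h1 : (monomial e (coeff e P) : MvPolynomial (Fin N) K) =
      coeff e P • basisMonomials (Fin N) K e := by
    rw [coe_basisMonomials, smul_monomial, smul_eq_mul, mul_one]
  rw [h1, map_smul, Module.Basis.constr_basis]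

private theorem hos_pi_in {d : ℕ} (P : MvPolynomial (Fin N) K)
    (h : ∀ e ∈ P.support, d ∣ tdg e) : hos_pi K N d P = P := by
  classical
  unfold hos_pi
  rw [hos_constr_sum]
  conv_rhs => rw [as_sum P]
  refine Finset.sum_congr rfl fun e he => ?_
  rw [if_pos (h e he), smul_monomial, smul_eq_mul, mul_one]

private theorem hos_pi_out {d : ℕ} (P : MvPolynomial (Fin N) K)
    (h : ∀ e ∈ P.support, ¬ d ∣ tdg e) : hos_pi K N d P = 0 := by
  classical
  unfold hos_pi
  rw [hos_constr_sum]
  refine Finset.sum_eq_zero fun e he => ?_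
  rw [if_neg (h e he), smul_zero]

private theorem hos_pd (i : Fin N) (u : Fin N →₀ ℕ) (a : K)
    {e : Fin N →₀ ℕ} (he : e ∈ (pderiv i (monomial u a)).support) : tdg e + 1 = tdg u := by
  classical
  rw [pderiv_monomial] at he
  by_cases h0 : u i = 0
  · rw [h0] at he
    simp at he
  · have h1 := support_monomial_subset he
    rw [Finset.mem_singleton] at h1
    rw [h1, hos_tdg, hos_tdg, ← hos_deg, ← hos_deg]
    have h2 : u - Finsupp.single i 1 + Finsupp.single i 1 = u := by
      apply tsub_add_cancel_of_le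
      rw [Finsupp.single_le_iff]
      omega
    have h3 : (u - Finsupp.single i 1).degree + 1 = u.degree := by
      conv_rhs => rw [← h2]
      rw [map_add, Finsupp.degree_single]
    omega

private theorem hos_dl_supp {d : ℕ} {F : MvPolynomial (Fin N) K}
    (hF : F.IsHomogeneous d) (hd : 1 ≤ d) (i : Fin N) (u : Fin N →₀ ℕ) (a : K)
    {e : Fin N →₀ ℕ} (he : e ∈ (pderiv i F * monomial u a).support) : tdg e + 1 = tdg u + d := by
  have h1 : (pderiv i F * monomial u a).IsHomogeneous (d - 1 + dg u) :=
    hF.pderiv.mul (hos_mono u a)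
  have h2 := h1 (mem_support_iff.1 he)
  rw [hos_weight] at h2
  rw [hos_tdg, hos_tdg]
  omega

private theorem hos_pi_rel (hN : 2 ≤ N) (hd : 1 ≤ d) (hF : F.IsHomogeneous d) :
    ∀ P ∈ relZ d F, hos_pi K N d P ∈ RelM F := by
  intro P hP
  have htm : ∀ e : Fin N →₀ ℕ, N ≤ tdg e := fun e => by rw [hos_tdg]; omega
  have hle : relZ d F ≤ (RelM F).comap (hos_pi K N d) := by
    unfold relZ
    rw [Submodule.span_le]
    rintro P (⟨i, Q, rfl⟩ | ⟨e, he, rfl⟩)
    · change hos_pi K N d (dl F i Q) ∈ RelM F
      induction Q using MvPolynomial.induction_on' with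
      | monomial u a =>
        have hu := htm u
        have hmem : dl F i (monomial u a) ∈ RelM F := by
          refine Submodule.subset_span ⟨i, monomial u a, ?_⟩
          unfold dl
          rw [mul_comm]
        by_cases hk : d ∣ tdg u - 1
        · have e1 : hos_pi K N d (dl F i (monomial u a)) = dl F i (monomial u a) := by
            unfold dl
            rw [map_add, hos_pi_in, hos_pi_in]
            · intro e he
              have := hos_dl_supp hF hd i u a he
              have h2 : tdg e = tdg u - 1 + d := by omega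
              rw [h2]
              exact Nat.dvd_add hk dvd_rfl
            · intro e he
              have := hos_pd i u a he
              have h2 : tdg e = tdg u - 1 := by omega
              rw [h2]
              exact hk
          rw [e1]
          exact hmem
        · have e1 : hos_pi K N d (dl F i (monomial u a)) = 0 := by
            unfold dl
            rw [map_add, hos_pi_out, hos_pi_out, add_zero]
            · intro e he hdiv
              have := hos_dl_supp hF hd i u a he
              apply hk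
              have h2 : tdg u - 1 = tdg e - d := by omega
              rw [h2]
              exact Nat.dvd_sub hdiv dvd_rfl
            · intro e he hdiv
              have := hos_pd i u a he
              apply hk
              have h2 : tdg u - 1 = tdg e := by omega
              rw [h2]
              exact hdiv
          rw [e1]
          exact Submodule.zero_mem _
      | add p q hp hq =>
        have e1 : dl F i (p + q) = dl F i p + dl F i q := by
          unfold dl
          rw [map_add]
          ring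
        rw [e1, map_add]
        exact Submodule.add_mem _ hp hq
    · change hos_pi K N d (monomial e 1) ∈ RelM F
      rw [hos_pi_out]
      · exact Submodule.zero_mem _
      · intro e' he' hdiv
        have h1 := support_monomial_subset he'
        rw [Finset.mem_singleton] at h1
        rw [h1, hos_tdg] at hdiv
        exact he hdiv
  exact hle hP

private theorem hos_indep (hN : 2 ≤ N) (hd : 2 ≤ d) (hF : F.IsHomogeneous d) {M : ℕ}
    (hM : ∀ i, (X i : MvPolynomial (Fin N) K) ^ M ∈ Jac F) (hh : h ≠ 0)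
    (hC : CData d J F g lv c h) :
    LinearIndependent K fun v => brP d F (monomial (g v) 1) := by
  classical
  rw [Fintype.linearIndependent_iff]
  intro a ha
  have hI : IndepM F g := indepM_of_cdata hd hF hM hC hh
  have h1 : brP d F (∑ v, monomial (g v) (a v)) = 0 := by
    rw [map_sum, ← ha]
    exact Finset.sum_congr rfl fun v _ => hos_brP_mono d F _ _
  have h2 : (∑ v, monomial (g v) (a v)) ∈ relZ d F := by
    unfold brP at h1
    rw [Submodule.mkQ_apply, Submodule.Quotient.mk_eq_zero] at h1
    exact h1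
  have h3 := hos_pi_rel hN (by omega) hF _ h2
  rw [hos_pi_in] at h3
  · have h4 := hI a h3
    intro v
    rw [h4]
    rfl
  · intro e he
    have h4 := MvPolynomial.support_sum he
    rw [Finset.mem_biUnion] at h4
    obtain ⟨v, -, hv⟩ := h4
    have h5 := support_monomial_subset hv
    rw [Finset.mem_singleton] at h5
    rw [h5, hC.lev v]
    exact Dvd.intro_left _ rfl

/-- `ell c v` kills the Jacobian ideal. -/
private theorem hos_ell (hC : CData d J F g lv c h) (v : V) {P : MvPolynomial (Fin N) K}
    (hP : P ∈ Jac F) : ell c v P = 0 := by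
  classical
  rw [Jac, Ideal.mem_span_range_iff_exists_fun] at hP
  obtain ⟨Q, rfl⟩ := hP
  rw [map_sum]
  exact Finset.sum_eq_zero fun j _ => hC.ker v j (Q j)

omit [Fintype V] [DecidableEq V] in
private theorem hos_ell_sum (c : V → (Fin N →₀ ℕ) → K) (v : V) {I : Type} [Fintype I]
    (g : I → Fin N →₀ ℕ) (a : I → K) :
    ell c v (∑ j, monomial (g j) (a j)) = ∑ j, a j * c v (g j) := by
  rw [map_sum]
  exact Finset.sum_congr rfl fun j _ => ell_monomial c v _ _

/-- If a combination of the monomials of level `i` is in the Jacobian ideal then it is zero. -/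
private theorem hos_zero (hC : CData d J F g lv c h) (hh : h ≠ 0) {i : ℕ}
    (a : {v : V // lv v = i} → K) (hP : (∑ v, monomial (g v.1) (a v)) ∈ Jac F) : a = 0 := by
  classical
  funext v
  have h1 := hos_ell hC v.1 hP
  rw [hos_ell_sum c v.1 (fun w : {v : V // lv v = i} => g w.1) a,
    Finset.sum_eq_single v] at h1
  · rw [hC.self, if_pos rfl] at h1
    exact (mul_eq_zero.1 h1).resolve_right hh
  · intro w _ hw
    rw [hC.self, if_neg, mul_zero]
    intro h2
    exact hw (Subtype.ext h2.symm)
  · intro h2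
    exact absurd (Finset.mem_univ v) h2

private theorem hos_hsum (hC : CData d J F g lv c h) {i m : ℕ} (hm : m + N = i * d)
    (a : {v : V // lv v = i} → K) :
    (∑ v, monomial (g v.1) (a v)).IsHomogeneous m := by
  refine IsHomogeneous.sum _ _ _ fun v _ => ?_
  have h2 : dg (g v.1) = m := by
    have h3 := hC.lev v.1
    rw [hos_tdg, v.2] at h3
    omega
  rw [← h2]
  exact hos_mono _ _

private theorem hos_card_le {V' : Type} [Fintype V'] [DecidableEq V'] {J' : ℕ}
    {g' : V' → Fin N →₀ ℕ} {lv' : V' → ℕ} {c' : V' → (Fin N →₀ ℕ) → K} {h' : K}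
    (hC : CData d J F g lv c h) (hh : h ≠ 0) (hC' : CData d J' F g' lv' c' h') (hh' : h' ≠ 0)
    {i : ℕ} (hi : 1 ≤ i) (hiJ : i ≤ J') :
    Fintype.card {v : V // lv v = i} ≤ Fintype.card {v : V' // lv' v = i} := by
  classical
  rcases isEmpty_or_nonempty {v : V // lv v = i} with hE | ⟨⟨v₀⟩⟩
  · rw [Fintype.card_eq_zero]
    exact Nat.zero_le _
  have hm : dg (g v₀.1) + N = i * d := by
    have h3 := hC.lev v₀.1
    rw [hos_tdg, v₀.2] at h3
    exact h3
  let T : ({v : V // lv v = i} → K) →ₗ[K] ({v : V' // lv' v = i} → K) :=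
    { toFun := fun a v' => ∑ v, a v * c' v'.1 (g v.1)
      map_add' := fun a b => by
        funext v'
        simp only [Pi.add_apply, add_mul]
        exact Finset.sum_add_distrib
      map_smul' := fun s a => by
        funext v'
        simp only [Pi.smul_apply, smul_eq_mul, RingHom.id_apply, Finset.mul_sum, mul_assoc] }
  have hT : Function.Injective T := by
    rw [← LinearMap.ker_eq_bot, LinearMap.ker_eq_bot']
    intro a ha
    refine hos_zero hC hh a ?_
    refine hC'.jac hh' hi hiJ hm (hos_hsum hC hm a) fun v' hv' => ?_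
    rw [hos_ell_sum c' v' (fun w : {v : V // lv v = i} => g w.1) a]
    exact congrFun ha ⟨v', hv'⟩
  have h1 := LinearMap.finrank_le_finrank_of_injective hT
  rw [Module.finrank_fintype_fun_eq_card, Module.finrank_fintype_fun_eq_card] at h1
  exact h1

private theorem hos_rho {B : MvPolynomial (Fin N) K →ₗ[K] MvPolynomial (Fin N) K →ₗ[K] K}
    {rho : MvPolynomial (Fin N) K →ₗ[K] K} (hP : IsPair d F B rho) {P : MvPolynomial (Fin N) K}
    (h : P ∈ Jac F) : rho P = 0 := by
  classical
  rw [Jac, Ideal.mem_span_range_iff_exists_fun] at h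
  obtain ⟨Q, rfl⟩ := h
  rw [map_sum]
  refine Finset.sum_eq_zero fun j _ => ?_
  rw [mul_comm]
  exact hP.rho_jac j (Q j)

private theorem hos_card_dual {V' : Type} [Fintype V'] [DecidableEq V'] {J' : ℕ}
    {g' : V' → Fin N →₀ ℕ} {lv' : V' → ℕ} {c' : V' → (Fin N →₀ ℕ) → K} {h' : K}
    {B : MvPolynomial (Fin N) K →ₗ[K] MvPolynomial (Fin N) K →ₗ[K] K}
    {rho : MvPolynomial (Fin N) K →ₗ[K] K} (hP : IsPair d F B rho) (hd : 2 ≤ d)
    (hC : CData d J F g lv c h) (hh : h ≠ 0) (hC' : CData d J' F g' lv' c' h') (hh' : h' ≠ 0)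
    {i i' : ℕ} (hi : 1 ≤ i') (hiJ : i' ≤ J') (hii : i + i' = N) :
    Fintype.card {v : V // lv v = i} ≤ Fintype.card {v : V' // lv' v = i'} := by
  classical
  rcases isEmpty_or_nonempty {v : V // lv v = i} with hE | ⟨⟨v₀⟩⟩
  · rw [Fintype.card_eq_zero]
    exact Nat.zero_le _
  have hm : dg (g v₀.1) + N = i * d := by
    have h3 := hC.lev v₀.1
    rw [hos_tdg, v₀.2] at h3
    exact h3
  have hd2 : N * (d - 2) + 2 * N = N * d := by
    obtain ⟨d', rfl⟩ := Nat.exists_eq_add_of_le hd
    have h3 : 2 + d' - 2 = d' := by omega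
    rw [h3]
    ring
  have hNd : i * d + i' * d = N * d := by rw [← add_mul, hii]
  by_cases hneg : N * (d - 2) < dg (g v₀.1)
  · exfalso
    have h1 := hos_ell hC v₀.1 (hP.top _ hneg)
    rw [ell_monomial, hC.self, if_pos rfl, one_mul] at h1
    exact hh h1
  let T : ({v : V // lv v = i} → K) →ₗ[K] ({v : V' // lv' v = i'} → K) :=
    { toFun := fun a v' => ∑ v, a v * rho (monomial (g v.1 + g' v'.1) 1)
      map_add' := fun a b => by
        funext v'
        simp only [Pi.add_apply, add_mul]
        exact Finset.sum_add_distrib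
      map_smul' := fun s a => by
        funext v'
        simp only [Pi.smul_apply, smul_eq_mul, RingHom.id_apply, Finset.mul_sum, mul_assoc] }
  have hT : Function.Injective T := by
    rw [← LinearMap.ker_eq_bot, LinearMap.ker_eq_bot']
    intro a ha
    refine hos_zero hC hh a ?_
    refine hP.rho_perf (dg (g v₀.1)) (by omega) _ (hos_iff.2 (hos_hsum hC hm a)) fun w hw => ?_
    set P : MvPolynomial (Fin N) K := ∑ v : {v : V // lv v = i}, monomial (g v.1) (a v) with hPd
    have htw : tdg w = i' * d := by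
      rw [hos_tdg]
      omega
    have h1 := hC'.span i' hi hiJ w htw
    have h2 := hos_rho hP (Ideal.mul_mem_left (Jac F) P h1)
    rw [mul_sub, map_sub, sub_eq_zero] at h2
    have h3 : rho (P * ∑ v, (if lv' v = i' then monomial (g' v) (c' v w) else 0)) = 0 := by
      rw [Finset.mul_sum, map_sum]
      refine Finset.sum_eq_zero fun v' _ => ?_
      split_ifs with hv'
      · have h4 : P * monomial (g' v') (c' v' w) =
            c' v' w • ∑ v : {v : V // lv v = i}, a v • monomial (g v.1 + g' v') 1 := by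
          rw [hPd, Finset.sum_mul, Finset.smul_sum]
          refine Finset.sum_congr rfl fun v _ => ?_
          rw [monomial_mul, smul_smul, smul_monomial, smul_eq_mul, mul_one, mul_comm]
        rw [h4, map_smul, map_sum]
        have h5 := congrFun ha ⟨v', hv'⟩
        change (∑ v, a v * rho (monomial (g v.1 + g' v') 1)) = 0 at h5
        have h6 : ∑ v : {v : V // lv v = i}, rho (a v • monomial (g v.1 + g' v') 1) = 0 := by
          rw [← h5]
          exact Finset.sum_congr rfl fun v _ => by rw [map_smul, smul_eq_mul]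
        rw [h6, smul_zero]
      · rw [mul_zero, map_zero]
    rw [h3] at h2
    have h7 : P * (C h' * monomial w 1) = h' • (P * monomial w 1) := by
      rw [smul_eq_C_mul]
      ring
    rw [h7, map_smul, smul_eq_mul] at h2
    exact (mul_eq_zero.1 h2).resolve_left hh'
  have h1 := LinearMap.finrank_le_finrank_of_injective hT
  rw [Module.finrank_fintype_fun_eq_card, Module.finrank_fintype_fun_eq_card] at h1
  exact h1

private theorem hos_below (w : Fin N →₀ ℕ) : ∀ k ≤ dg w, ∃ w₁, w₁ ≤ w ∧ dg w₁ = k := by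
  intro k
  induction k with
  | zero => exact fun _ => ⟨0, zero_le, by simp [dg]⟩
  | succ k ih =>
    intro hk
    obtain ⟨w₁, h1, h2⟩ := ih (by omega)
    have h3 : ∃ i, w₁ i < w i := by
      by_contra h4
      push Not at h4
      have h5 : dg w ≤ dg w₁ := Finset.sum_le_sum fun i _ => h4 i
      omega
    obtain ⟨i, hi⟩ := h3
    refine ⟨w₁ + Finsupp.single i 1, ?_, ?_⟩
    · intro j
      rw [Finsupp.add_apply]
      by_cases hj : i = j
      · subst hj
        rw [Finsupp.single_eq_same]
        exact hi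
      · rw [Finsupp.single_eq_of_ne (Ne.symm hj), add_zero]
        exact h1 j
    · rw [← hos_deg, map_add, Finsupp.degree_single, hos_deg, h2]

private theorem hos_mid {B : MvPolynomial (Fin N) K →ₗ[K] MvPolynomial (Fin N) K →ₗ[K] K}
    {rho : MvPolynomial (Fin N) K →ₗ[K] K} (hP : IsPair d F B rho) (hd : 2 ≤ d)
    (hF : F.IsHomogeneous d) (hC : CData d J F g lv c h) (hh : h ≠ 0)
    {i : ℕ} (hi : 1 ≤ i) (hiJ : i ≤ J) (hii : i + i = N) :
    1 ≤ Fintype.card {v : V // lv v = i} := by
  classical
  by_contra hcon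
  have h0 : ∀ v, lv v ≠ i := by
    intro v hv
    apply hcon
    exact Fintype.card_pos_iff.2 ⟨⟨v, hv⟩⟩
  have hd2 : N * (d - 2) + 2 * N = N * d := by
    obtain ⟨d', rfl⟩ := Nat.exists_eq_add_of_le hd
    have h3 : 2 + d' - 2 = d' := by omega
    rw [h3]
    ring
  have hNd : i * d + i * d = N * d := by rw [← add_mul, hii]
  have h1 : ∃ w : Fin N →₀ ℕ, dg w = N * (d - 2) ∧ rho (monomial w 1) ≠ 0 := by
    by_contra h2
    push Not at h2
    have h3 : (1 : MvPolynomial (Fin N) K) ∈ Jac F := by
      refine hP.rho_perf 0 (Nat.zero_le _) 1 (hos_iff.2 (isHomogeneous_one _ _)) fun v hv => ?_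
      rw [one_mul]
      exact h2 v (by omega)
    obtain ⟨Q, -, -, h4⟩ := hos_jac hF (isHomogeneous_one (Fin N) K) h3
    exact one_ne_zero (h4 (by omega))
  obtain ⟨w, hw, hr⟩ := h1
  obtain ⟨w₁, hw1, hw2⟩ := hos_below w (i * d - N) (by omega)
  apply hr
  have h2 : (monomial w₁ 1 : MvPolynomial (Fin N) K) ∈ Jac F := by
    refine hC.jac hh hi hiJ (N := dg w₁) (by omega) (hos_mono w₁ 1) fun v hv => absurd hv (h0 v)
  have h3 : (monomial w 1 : MvPolynomial (Fin N) K) = monomial (w - w₁) 1 * monomial w₁ 1 := by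
    rw [monomial_mul, tsub_add_cancel_of_le hw1, one_mul]
  rw [h3]
  exact hos_rho hP (Ideal.mul_mem_left _ _ h2)

end

section

variable {K : Type u} [Field K] [CharZero K] {N : ℕ}

private theorem hos_basis (hN : 2 ≤ N) {d : ℕ} (hd : 2 ≤ d) (F : MvPolynomial (Fin N) K)
    (hF : Hm d F) (M : ℕ) (hM : ∀ i, (X i : MvPolynomial (Fin N) K) ^ M ∈ Jac F)
    {V : Type} [Fintype V] [DecidableEq V]
    {g : V → Fin N →₀ ℕ} {lv : V → ℕ} {c : V → (Fin N →₀ ℕ) → K} {h : K} (hh : h ≠ 0)
    (hC : CData d (N - 1) F g lv c h) :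
    Nonempty (Module.Basis V K (PKm d F)) := by
  classical
  obtain ⟨B, rho, hP⟩ := pairing (by omega) hd F hF M hM
  refine ⟨Module.Basis.mk (hos_indep hN hd (hos_iff.1 hF) hM hh hC) ?_⟩
  rintro x -
  obtain ⟨P, rfl⟩ := brP_surj d F x
  rw [as_sum P, map_sum]
  refine Submodule.sum_mem _ fun e _ => ?_
  rw [hos_brP_mono]
  exact Submodule.smul_mem _ _
    (hos_span (by omega) hd (hos_iff.1 hF) hP.top hh hC (dg e + 1) e (Nat.lt_succ_self _))

theorem finite_PK {K : Type u} [Field K] [CharZero K] {N : ℕ} (hN : 2 ≤ N) {d : ℕ} (hd : 2 ≤ d)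
    (F : MvPolynomial (Fin N) K) (hF : Hm d F) (M : ℕ)
    (hM : ∀ i, (X i : MvPolynomial (Fin N) K) ^ M ∈ Jac F) : Module.Finite K (PKm d F) := by
  classical
  obtain ⟨V, c, hC⟩ := exists_cdata_gen (d := d) (by omega) F (hos_iff.1 hF) (N - 1)
  obtain ⟨b⟩ := hos_basis hN hd F hF M hM one_ne_zero hC
  exact Module.Finite.of_basis b

private theorem hos_sum {V : Type} [Fintype V] [DecidableEq V] {lv : V → ℕ} {J : ℕ}
    (h1 : ∀ v, 1 ≤ lv v) (h2 : ∀ v, lv v ≤ J) :
    Fintype.card V = ∑ i ∈ Finset.Icc 1 J, Fintype.card {v : V // lv v = i} := by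
  classical
  rw [← Finset.card_univ, Finset.card_eq_sum_card_fiberwise (f := lv) (t := Finset.Icc 1 J)]
  · refine Finset.sum_congr rfl fun i _ => ?_
    rw [Fintype.card_subtype]
  · intro v _
    exact Finset.mem_coe.2 (Finset.mem_Icc.2 ⟨h1 v, h2 v⟩)

private theorem hos_arith (n : ℕ → ℕ) (k J : ℕ) (hk : 1 ≤ k) (hJ : J ≤ 2 * k - 1)
    (hs : ∀ i, 1 ≤ i → i ≤ 2 * k - 1 → n i = n (2 * k - i)) (hm : 1 ≤ n k) :
    2 * ∑ i ∈ Finset.Icc 1 J, n i ≠ ∑ i ∈ Finset.Icc 1 (2 * k - 1), n i := by
  have hA : ∑ i ∈ Finset.Icc 1 (k - 1), n i = ∑ i ∈ Finset.Icc (k + 1) (2 * k - 1), n i := by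
    refine Finset.sum_bij' (fun i _ => 2 * k - i) (fun i _ => 2 * k - i) ?_ ?_ ?_ ?_ ?_
    · intro i hi
      rw [Finset.mem_Icc] at hi ⊢
      omega
    · intro i hi
      rw [Finset.mem_Icc] at hi ⊢
      omega
    · intro i hi
      rw [Finset.mem_Icc] at hi
      omega
    · intro i hi
      rw [Finset.mem_Icc] at hi
      omega
    · intro i hi
      rw [Finset.mem_Icc] at hi
      exact hs i (by omega) (by omega)
  have hU : Finset.Icc 1 (2 * k - 1) =
      (Finset.Icc 1 (k - 1) ∪ {k}) ∪ Finset.Icc (k + 1) (2 * k - 1) := by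
    ext i
    simp only [Finset.mem_union, Finset.mem_Icc, Finset.mem_singleton]
    omega
  have hT : ∑ i ∈ Finset.Icc 1 (2 * k - 1), n i =
      2 * (∑ i ∈ Finset.Icc 1 (k - 1), n i) + n k := by
    rw [hU, Finset.sum_union, Finset.sum_union, ← hA, Finset.sum_singleton]
    · ring
    · rw [Finset.disjoint_singleton_right, Finset.mem_Icc]
      omega
    · rw [Finset.disjoint_left]
      intro i hi hi'
      simp only [Finset.mem_union, Finset.mem_Icc, Finset.mem_singleton] at hi hi'
      omega
  rw [hT]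
  by_cases hJk : J ≤ k - 1
  · have h1 : ∑ i ∈ Finset.Icc 1 J, n i ≤ ∑ i ∈ Finset.Icc 1 (k - 1), n i :=
      Finset.sum_le_sum_of_subset (Finset.Icc_subset_Icc_right hJk)
    omega
  · have h1 : ∑ i ∈ Finset.Icc 1 (k - 1) ∪ {k}, n i ≤ ∑ i ∈ Finset.Icc 1 J, n i := by
      refine Finset.sum_le_sum_of_subset fun i hi => ?_
      simp only [Finset.mem_union, Finset.mem_Icc, Finset.mem_singleton] at hi ⊢
      omega
    rw [Finset.sum_union, Finset.sum_singleton] at h1
    · omega
    · rw [Finset.disjoint_singleton_right, Finset.mem_Icc]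
      omega

theorem hodge_ne {K : Type u} [Field K] [CharZero K] {N : ℕ} (hN : 2 ≤ N) {d : ℕ} (hd : 2 ≤ d)
    (F : MvPolynomial (Fin N) K) (hF : Hm d F) (M : ℕ)
    (hM : ∀ i, (X i : MvPolynomial (Fin N) K) ^ M ∈ Jac F) (hE : Even N) {J : ℕ} (h1 : 1 ≤ J)
    (hJ : J ≤ N - 1) {V : Type} [Fintype V] [DecidableEq V] {g : V → Fin N →₀ ℕ} {lv : V → ℕ}
    {c : V → (Fin N →₀ ℕ) → K} {h : K} (hh : h ≠ 0) (hC : CData d J F g lv c h) :
    2 * Fintype.card V ≠ Module.finrank K (PKm d F) := by
  classical
  obtain ⟨B, rho, hP⟩ := pairing (by omega) hd F hF M hM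
  obtain ⟨V', c', hC'⟩ := exists_cdata_gen (d := d) (by omega) F (hos_iff.1 hF) (N - 1)
  have h1' : (1 : K) ≠ 0 := one_ne_zero
  have hVt : ∃ (W : Type) (_ : Fintype W) (_ : DecidableEq W) (g' : W → Fin N →₀ ℕ)
      (lv' : W → ℕ) (c' : W → (Fin N →₀ ℕ) → K), CData d (N - 1) F g' lv' c' 1 :=
    ⟨V', inferInstance, inferInstance, _, _, c', hC'⟩
  clear hC' c' V'
  obtain ⟨V', _, _, g', lv', c', hC'⟩ := hVt
  obtain ⟨b⟩ := hos_basis hN hd F hF M hM h1' hC'
  rw [Module.finrank_eq_card_basis b]
  obtain ⟨k, hk⟩ := hE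
  have hk1 : 1 ≤ k := by omega
  have hNk : N - 1 = 2 * k - 1 := by omega
  rw [hos_sum hC.lv_pos hC.lv_le, hos_sum hC'.lv_pos hC'.lv_le, hNk]
  have h2 : ∑ i ∈ Finset.Icc 1 J, Fintype.card {v : V // lv v = i} =
      ∑ i ∈ Finset.Icc 1 J, Fintype.card {v : V' // lv' v = i} := by
    refine Finset.sum_congr rfl fun i hi => ?_
    rw [Finset.mem_Icc] at hi
    exact le_antisymm (hos_card_le hC hh hC' h1' hi.1 (by omega))
      (hos_card_le hC' h1' hC hh hi.1 hi.2)
  rw [h2]
  refine hos_arith (fun i => Fintype.card {v : V' // lv' v = i}) k J hk1 (by omega) ?_ ?_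
  · intro i hi1 hi2
    exact le_antisymm (hos_card_dual hP hd hC' h1' hC' h1' (by omega) (by omega) (by omega))
      (hos_card_dual hP hd hC' h1' hC' h1' hi1 (by omega) (by omega))
  · exact hos_mid hP hd (hos_iff.1 hF) hC' h1' hk1 (by omega) (by omega)

end

end MPadcBM
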