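import Pool.Agent.Lib.MP_adc574_ag_BM.KeyM
import Pool.Agent.Lib.MP_adc574_ag_BM.HoS
import Pool.Agent.Lib.MP_adc574_ag_BK.CoreS2

/-!
# CoA: determinants modulo `p`, ultraproduct (helper90)
-/

set_option autoImplicit false

namespace MPadcBM

open MvPolynomial MPadcGM MPadcHM MPadcLZ MPadcBK

universe u

theorem core_seq3 {A₀ k : Type u} [CommRing A₀] [Field k] [CharZero k] {j₀ : A₀ →+* k}
    (hj₀ : Function.Injective j₀) {N m : ℕ} (hN : 2 ≤ N) {d : ℕ} (hd : 2 ≤ d)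
    (F : MvPolynomial (Fin N) A₀) (hF : F.IsHomogeneous d) (hbig : HasBigMonodromy d (F.map j₀))
    (D : Fin m → Derivation ℤ A₀ A₀)
    (hDk : ∀ D' : Derivation ℤ k k, ∃ a : Fin m → k, ∀ x, D' (j₀ x) = ∑ l, a l * j₀ (D l x))
    (a : A₀) (ha : a ≠ 0) (M : ℕ)
    (hsm : ∀ (κ : Type u) [Field κ] (φ : A₀ →+* κ), φ a ≠ 0 → ∀ e : Fin N →₀ ℕ, M ≤ ∑ l, e l →
      monomial e (1 : κ) ∈ Ideal.span (Set.range fun j => pderiv j (F.map φ)))
    (V : ℕ → Finset (Fin N →₀ ℕ)) (c : ∀ j, V j → (Fin N →₀ ℕ) → A₀) (hc : ℕ → A₀)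
    (hc0 : ∀ j, hc j ≠ 0)
    (hC : ∀ j, CData d j F (fun v : V j => v.1) (fun v => tdg v.1 / d) (c j) (hc j))
    (p : ℕ → ℕ) (L : ℕ → Type u) [hL : ∀ i, Field (L i)] [hchar : ∀ i, CharP (L i) (p i)]
    [hpf : ∀ i, Fact (p i).Prime] (φ : ∀ i, A₀ →+* L i)
    (δ : ∀ i, Fin m → Derivation ℤ (L i) (L i)) (hδ : ∀ i l x, δ i l (φ i x) = φ i (D l x))
    (hp : ∀ i, i < p i) (hφ : ∀ x : A₀, x ≠ 0 → ∃ m, ∀ i, m ≤ i → φ i x ≠ 0)
    (h : A₀) (hh : h ≠ 0) :
    ∃ i, φ i h ≠ 0 ∧ ∀ j, 1 ≤ j → j ≤ N - 1 →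
      dete (p i) (F.map (φ i)) (V j) d (fun v e => φ i (c j v e)) ≠ 0 := by
  by_contra hcon
  push Not at hcon
  let U0 : Ultrafilter ℕ := Filter.hyperfilter ℕ
  have hge : ∀ m : ℕ, ∀ᶠ i in (U0 : Filter ℕ), m ≤ i := by
    intro m
    apply Filter.hyperfilter_le_cofinite
    rw [Filter.mem_cofinite]
    refine (Set.finite_lt_nat m).subset ?_
    intro i hi
    simp only [Set.mem_compl_iff, Set.mem_ofPred_eq, not_le] at hi
    exact hi
  have hlarge : ∀ m : ℕ, ∀ᶠ i in (U0 : Filter ℕ), m < p i := by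
    intro m
    filter_upwards [hge m] with i hi
    exact lt_of_le_of_lt hi (hp i)
  have hne : ∀ x : A₀, x ≠ 0 → ∀ᶠ i in (U0 : Filter ℕ), φ i x ≠ 0 := by
    intro x hx
    obtain ⟨m, hm⟩ := hφ x hx
    filter_upwards [hge m] with i hi
    exact hm i hi
  have hι : Function.Injective (uphi U0 L φ) := by
    rw [injective_iff_map_eq_zero]
    intro x hx
    by_contra hx0
    rw [uphi_apply, ultMk_eq_zero] at hx
    obtain ⟨i, hi1, hi2⟩ := (hx.and (hne x hx0)).exists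
    exact hi2 hi1
  -- one value of `j`
  have hev : ∀ᶠ i in (U0 : Filter ℕ), ∃ j ∈ Set.Icc 1 (N - 1),
      dete (p i) (F.map (φ i)) (V j) d (fun v e => φ i (c j v e)) = 0 := by
    filter_upwards [hne _ hh] with i hi
    obtain ⟨j, h1, h2, h3⟩ := hcon i hi
    exact ⟨j, ⟨h1, h2⟩, h3⟩
  rw [Ultrafilter.eventually_exists_mem_iff (Set.finite_Icc 1 (N - 1))] at hev
  obtain ⟨j, ⟨hj1, hj2⟩, hdet0⟩ := hev
  -- the derivations
  choose Δ hΔ using fun l => exists_ultD U0 L (fun i => δ i l)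
  have hΔι : ∀ l x, Δ l (uphi U0 L φ x) = uphi U0 L φ (D l x) := by
    intro l x
    rw [uphi_apply, hΔ, uphi_apply]
    exact congrArg _ (funext fun i => hδ i l x)
  have hh0 : ∀ᶠ i in (U0 : Filter ℕ), φ i (hc j) ≠ 0 := hne _ (hc0 j)
  -- over `k`
  have hFk : (F.map j₀).IsHomogeneous d := hF.map j₀
  have hMk : ∀ i, (X i : MvPolynomial (Fin N) k) ^ M ∈ Jac (F.map j₀) := by
    intro i
    rw [X_pow_eq_monomial]
    refine hsm k j₀ ((map_ne_zero_iff j₀ hj₀).2 ha) _ ?_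
    rw [Finset.sum_eq_single i]
    · rw [Finsupp.single_eq_same]
    · intro b _ hb
      exact Finsupp.single_eq_of_ne hb
    · intro h
      exact absurd (Finset.mem_univ i) h
  have hCk := (hC j).map j₀
  have hck0 : j₀ (hc j) ≠ 0 := (map_ne_zero_iff j₀ hj₀).2 (hc0 j)
  have hfin : Module.Finite k (PKm d (F.map j₀)) :=
    finite_PK hN hd (F.map j₀) (hm_of_hom hFk) M hMk
  have hdim : Odd N ∨ 2 * Fintype.card (V j) ≠ Module.finrank k (PKm d (F.map j₀)) := by
    rcases Nat.even_or_odd N with hE | hO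
    · exact Or.inr (hodge_ne hN hd (F.map j₀) (hm_of_hom hFk) M hMk hE hj1 hj2 hck0 hCk)
    · exact Or.inl hO
  refine key_big hj₀ hι hN (by omega) hF hbig hfin D Δ hΔι hDk
    (fun v k => ug U0 L p F φ (fun v : V j => tdg v.1 / d) (c j) v k) ?_ ?_ ?_
    (g := fun v : V j => v.1) (lv := fun v => tdg v.1 / d) (hC j).lv_pos (hC j).lev ?_ hdim ?_
  · -- exact forms
    intro v k hk l Q
    exact ug_exa U0 L p F φ (fun v : V j => v.1) (fun v => tdg v.1 / d) (c j) (hC j) hlarge v hk l Q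
  · -- derivations
    intro l
    exact ug_der U0 L p F φ (fun v : V j => v.1) (fun v => tdg v.1 / d) (c j) (hC j) hlarge hF hh0
      (D l) (fun i => δ i l) (fun i x => hδ i l x) (Δ l) (hΔ l)
  · -- independence
    intro lam hlam
    refine ug_indep U0 L p F φ (fun v : V j => v.1) (fun v => tdg v.1 / d) (c j) (hC j) hlarge
      (by omega) hF hh0 (M := M) (k₀ := M + N + 1) ?_ (by omega) ?_ lam
      (fun e he => hlam (M + N + 1) (by omega) e he)
    · filter_upwards [hne a ha] with i hi e he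
      exact hsm (L i) (φ i) hi e he
    · calc M + N ≤ (M + N + 1) * 1 := by omega
        _ ≤ (M + N + 1) * d := Nat.mul_le_mul_left _ (by omega)
  · -- independence of the monomials
    exact indepM_of_cdata hd hFk (M := M) hMk hCk hck0
  · -- the determinant
    change (Matrix.of fun v u : V j => ug U0 L p F φ (fun v : V j => tdg v.1 / d) (c j) v
      (tdg u.1 / d) (monomial u.1 1)).det = 0
    have h1 : (Matrix.of fun v u : V j => ug U0 L p F φ (fun v : V j => tdg v.1 / d) (c j) v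
        (tdg u.1 / d) (monomial u.1 1)) =
        (ultMk U0 L).mapMatrix
          (Matrix.of fun (v u : V j) (i : ℕ) =>
            gam (p i) (F.map (φ i)) (fun v e => φ i (c j v e))
              (fun v : V j => tdg v.1 / d) v (tdg u.1 / d) (monomial u.1 1)) := by
      ext v u
      rw [Matrix.of_apply, ug_monomial]
      simp only [RingHom.mapMatrix_apply, Matrix.map_apply, Matrix.of_apply]
    rw [h1, ← RingHom.map_det, ultMk_eq_zero]
    filter_upwards [hdet0] with i hi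
    have h3 := (Pi.evalRingHom L i).map_det
      (Matrix.of fun (v u : V j) (i : ℕ) =>
            gam (p i) (F.map (φ i)) (fun v e => φ i (c j v e))
              (fun v : V j => tdg v.1 / d) v (tdg u.1 / d) (monomial u.1 1))
    rw [Pi.evalRingHom_apply] at h3
    rw [h3]
    exact hi

end MPadcBM
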