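import Mathlib

/-!
# Derivations of a finitely generated subring of a field
-/

set_option autoImplicit false

namespace MPadcBM

universe u

private theorem ders_int {A K₀ : Type u} [CommRing A] [IsDomain A] [Field K₀] [Algebra A K₀]
    [IsFractionRing A K₀] (s : Finset A) (hs : Algebra.adjoin ℤ (s : Set A) = ⊤)
    (e : Derivation ℤ A K₀) :
    ∃ (c : A) (D : Derivation ℤ A A), c ≠ 0 ∧ ∀ x, algebraMap A K₀ (D x) = algebraMap A K₀ c * e x := by
  classical
  obtain ⟨c, hc⟩ := IsLocalization.exist_integer_multiples_of_finset (nonZeroDivisors A)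
    (s.image fun x => e x)
  have hinj : Function.Injective (algebraMap A K₀) := IsFractionRing.injective A K₀
  have hall : ∀ x : A, ∃ y : A, algebraMap A K₀ y = algebraMap A K₀ c * e x := by
    intro x
    have hx : x ∈ Algebra.adjoin ℤ (s : Set A) := by
      rw [hs]
      exact Algebra.mem_top
    induction hx using Algebra.adjoin_induction with
    | mem x hx =>
      obtain ⟨y, hy⟩ := hc (e x) (Finset.mem_image_of_mem _ (Finset.mem_coe.1 hx))
      refine ⟨y, ?_⟩
      rw [hy]
      exact Algebra.smul_def _ _
    | algebraMap r =>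
      refine ⟨0, ?_⟩
      rw [Derivation.map_algebraMap, mul_zero, map_zero]
    | add x y _ _ hx hy =>
      obtain ⟨x', hx'⟩ := hx
      obtain ⟨y', hy'⟩ := hy
      exact ⟨x' + y', by rw [map_add, map_add, hx', hy', mul_add]⟩
    | mul x y _ _ hx hy =>
      obtain ⟨x', hx'⟩ := hx
      obtain ⟨y', hy'⟩ := hy
      refine ⟨x * y' + y * x', ?_⟩
      rw [Derivation.leibniz, Algebra.smul_def, Algebra.smul_def, map_add, map_mul, map_mul, hx',
        hy']
      ring
  choose f hf using hall
  let L : A →ₗ[ℤ] A :=
    { toFun := f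
      map_add' := fun x y => by
        apply hinj
        rw [map_add, hf, hf, hf, map_add, mul_add]
      map_smul' := fun n x => by
        apply hinj
        rw [hf, Derivation.map_smul, RingHom.id_apply, map_zsmul, hf, mul_smul_comm] }
  refine ⟨c, Derivation.mk' L ?_, nonZeroDivisors.ne_zero c.2, fun x => hf x⟩
  intro x y
  apply hinj
  show algebraMap A K₀ (f (x * y)) = algebraMap A K₀ (x • f y + y • f x)
  rw [hf, Derivation.leibniz, smul_eq_mul, smul_eq_mul, map_add, map_mul, map_mul, hf, hf,
    Algebra.smul_def, Algebra.smul_def]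
  ring

theorem exists_ders {k : Type u} [Field k] (A : Subalgebra ℤ k) (hA : A.FG) :
    ∃ (m : ℕ) (D : Fin m → Derivation ℤ A A), ∀ D' : Derivation ℤ k k, ∃ a : Fin m → k,
      ∀ x : A, D' (x : k) = ∑ l, a l * ((D l x : A) : k) := by
  classical
  have hft : Algebra.FiniteType ℤ A := A.fg_iff_finiteType.1 hA
  obtain ⟨s, hs⟩ := hft.out
  have hAk : Function.Injective (algebraMap A k) := FaithfulSMul.algebraMap_injective A k
  let g : FractionRing A →+* k := IsFractionRing.lift hAk
  have hg : ∀ x : A, g (algebraMap A (FractionRing A) x) = (x : k) := fun x =>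
    IsFractionRing.lift_algebraMap hAk x
  let : Algebra (FractionRing A) k := g.toAlgebra
  have htow : IsScalarTower A (FractionRing A) k := IsScalarTower.of_algebraMap_eq fun x => (hg x).symm
  -- the derivations to the fraction field
  let ev : Derivation ℤ A (FractionRing A) →ₗ[FractionRing A] (s → FractionRing A) :=
    { toFun := fun D x => D x.1
      map_add' := fun D E => rfl
      map_smul' := fun r D => rfl }
  have hev : Function.Injective ev := by
    intro D E h
    refine Derivation.ext_of_adjoin_eq_top (s : Set A) hs fun x hx => ?_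
    exact congrFun h ⟨x, hx⟩
  have hfin : Module.Finite (FractionRing A) (Derivation ℤ A (FractionRing A)) :=
    Module.Finite.of_injective ev hev
  let e := Module.finBasis (FractionRing A) (Derivation ℤ A (FractionRing A))
  choose c D hc hD using fun l => ders_int s hs (e l)
  let u := Module.Basis.ofVectorSpace (FractionRing A) k
  refine ⟨_, D, fun D' => ?_⟩
  let E : Derivation ℤ A k := D'.compAlgebraMap A
  have hE : ∀ x : A, E x = D' (x : k) := fun x => rfl
  let Ej : ∀ j, Derivation ℤ A (FractionRing A) := fun j =>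
    LinearMap.compDer ((u.coord j).restrictScalars A) E
  have hEj : ∀ j (x : A), Ej j x = u.repr (D' (x : k)) j := fun j x => rfl
  let J : Finset (Module.Basis.ofVectorSpaceIndex (FractionRing A) k) :=
    s.biUnion fun x => (u.repr (D' (x : k))).support
  have hJ : ∀ j, j ∉ J → Ej j = 0 := by
    intro j hj
    refine Derivation.ext_of_adjoin_eq_top (s : Set A) hs fun x hx => ?_
    rw [hEj, Derivation.zero_apply]
    by_contra h
    exact hj (Finset.mem_biUnion.2 ⟨x, hx, Finsupp.mem_support_iff.2 h⟩)
  have hsum : ∀ x : A, D' (x : k) = ∑ j ∈ J, Ej j x • u j := by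
    intro x
    conv_lhs => rw [← u.linearCombination_repr (D' (x : k)), Finsupp.linearCombination_apply]
    refine Finsupp.sum_of_support_subset _ ?_ _ fun i _ => zero_smul _ _
    intro j hj
    by_contra h
    rw [Finsupp.mem_support_iff, ← hEj, hJ j h] at hj
    exact hj rfl
  have hexp : ∀ j (x : A), Ej j x = ∑ l, e.repr (Ej j) l * e l x := by
    intro j x
    let ex : Derivation ℤ A (FractionRing A) →ₗ[FractionRing A] FractionRing A :=
      { toFun := fun D => D x
        map_add' := fun D E => rfl
        map_smul' := fun r D => rfl }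
    have h1 := congrArg ex (e.sum_repr (Ej j))
    rw [map_sum] at h1
    exact h1.symm
  have hex : ∀ l (x : A), g (e l x) = ((D l x : A) : k) / ((c l : A) : k) := by
    intro l x
    have h1 := congrArg g (hD l x)
    rw [map_mul, hg, hg] at h1
    have h2 : ((c l : A) : k) ≠ 0 := by
      intro h
      exact hc l (Subtype.ext h)
    rw [h1, mul_div_cancel_left₀ _ h2]
  refine ⟨fun l => (∑ j ∈ J, g (e.repr (Ej j) l) * u j) / ((c l : A) : k), fun x => ?_⟩
  rw [hsum]
  have h1 : ∀ j, Ej j x • u j = ∑ l, g (e.repr (Ej j) l) * u j / ((c l : A) : k) *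
      ((D l x : A) : k) := by
    intro j
    have h2 : Ej j x • u j = g (Ej j x) * u j := rfl
    rw [h2, hexp, map_sum, Finset.sum_mul]
    refine Finset.sum_congr rfl fun l _ => ?_
    rw [map_mul, hex]
    ring
  rw [Finset.sum_congr rfl fun j _ => h1 j, Finset.sum_comm]
  refine Finset.sum_congr rfl fun l _ => ?_
  show _ = (∑ j ∈ J, g (e.repr (Ej j) l) * u j) / ((c l : A) : k) * _
  rw [Finset.sum_div, Finset.sum_mul]

end MPadcBM
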