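import Pool.Agent.Lib.MP_adc574_ag_BM.CoA
import Pool.Agent.Lib.MP_adc574_ag_BM.Ders
import Pool.Agent.Lib.MP_adc574_ag_GM.Fields

/-!
# CoC: all large primes, with given residue fields (helper90)
-/

set_option autoImplicit false

namespace MPadcBM

open MvPolynomial MPadcGM MPadcHM MPadcLZ MPadcBK

universe u

/-- Residue fields of `A` of all large characteristics to which the derivations extend. -/
structure ResFields (A : Type u) [CommRing A] (L : ℕ → Type u) [∀ p, Field (L p)]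
    (φ : ∀ p, A →+* L p) (B : A → ℕ) : Prop where
  char : ∀ p : ℕ, p.Prime → B 0 < p → CharP (L p) p
  der : ∀ p : ℕ, p.Prime → B 0 < p → ∀ D : Derivation ℤ A A,
    ∃ dl : Derivation ℤ (L p) (L p), ∀ a, dl (φ p a) = φ p (D a)
  ne : ∀ p : ℕ, p.Prime → B 0 < p → ∀ b, b ≠ 0 → B b < p → φ p b ≠ 0

private structure CocF (A : Type u) [CommRing A] where
  L : Type u
  fld : Field L
  f : A →+* L

theorem exists_resFields (A : Type u) [CommRing A] [IsDomain A] [CharZero A]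
    [Algebra.FiniteType ℤ A] :
    ∃ (L : ℕ → Type u) (_ : ∀ p, Field (L p)) (φ : ∀ p, A →+* L p) (B : A → ℕ),
      ResFields A L φ B := by
  classical
  obtain ⟨B, hB⟩ := MPadcGM.exists_fields A
  have h : ∀ p : ℕ, ∃ S : CocF A, p.Prime → B 0 < p →
      (letI := S.fld; CharP S.L p ∧
        (∀ D : Derivation ℤ A A, ∃ dl : Derivation ℤ S.L S.L, ∀ a, dl (S.f a) = S.f (D a)) ∧
        ∀ b, b ≠ 0 → B b < p → S.f b ≠ 0) := by
    intro p
    by_cases hp : p.Prime ∧ B 0 < p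
    · obtain ⟨kp, i, φ, h1, h2, h3⟩ := hB p hp.1 hp.2
      exact ⟨⟨kp, i, φ⟩, fun _ _ => ⟨h1, h2, h3⟩⟩
    · exact ⟨⟨FractionRing A, inferInstance, algebraMap A (FractionRing A)⟩,
        fun h1 h2 => absurd ⟨h1, h2⟩ hp⟩
  choose S hS using h
  let i : ∀ p, Field (S p).L := fun p => (S p).fld
  exact ⟨fun p => (S p).L, i, fun p => (S p).f, B,
    ⟨fun p h1 h2 => (hS p h1 h2).1, fun p h1 h2 => (hS p h1 h2).2.1,
      fun p h1 h2 => (hS p h1 h2).2.2⟩⟩

theorem coC {k : Type u} [Field k] [CharZero k] {N : ℕ} (hN : 2 ≤ N) {d : ℕ} (hd : 2 ≤ d)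
    (A : Subalgebra ℤ k) (hA : A.FG) (L : ℕ → Type u) [∀ p, Field (L p)] (φ : ∀ p, A →+* L p)
    (B : A → ℕ) (hB : ResFields A L φ B)
    (F : MvPolynomial (Fin N) A) (hF : F.IsHomogeneous d)
    (hbig : HasBigMonodromy d (F.map (algebraMap A k))) (a : A) (ha : a ≠ 0) (M : ℕ)
    (hsm : ∀ (κ : Type u) [Field κ] (φ : A →+* κ), φ a ≠ 0 → ∀ e : Fin N →₀ ℕ, M ≤ ∑ l, e l →
      monomial e (1 : κ) ∈ Ideal.span (Set.range fun j => pderiv j (F.map φ)))
    (V : ℕ → Finset (Fin N →₀ ℕ)) (c : ∀ j, V j → (Fin N →₀ ℕ) → A) (hc : ℕ → A)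
    (hc0 : ∀ j, hc j ≠ 0)
    (hC : ∀ j, CData d j F (fun v : V j => v.1) (fun v => tdg v.1 / d) (c j) (hc j)) :
    ∃ p₀ : ℕ, ∀ (p : ℕ) [Fact p.Prime] [CharP (L p) p], p₀ < p →
        ∀ j, 1 ≤ j → j ≤ N - 1 → dete p (F.map (φ p)) (V j) d (fun v e => φ p (c j v e)) ≠ 0 := by
  obtain ⟨m, D, hDk⟩ := exists_ders A hA
  have hj₀ : Function.Injective (algebraMap A k) := FaithfulSMul.algebraMap_injective A k
  have hczA : CharZero A := (algebraMap A k).charZero
  by_contra hcon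
  push Not at hcon
  choose p hpf hpc hpi hbad using fun i => hcon (i + B 0)
  have hbp : ∀ i, B 0 < p i := fun i => by have := hpi i; omega
  have hip : ∀ i, i < p i := fun i => by have := hpi i; omega
  choose δ hδ using fun i l => hB.der (p i) (hpf i).out (hbp i) (D l)
  obtain ⟨i, hi1, hi2⟩ := core_seq3 hj₀ hN hd F hF hbig D hDk a ha M hsm V c hc hc0 hC p
    (fun i => L (p i)) (fun i => φ (p i)) δ
    (fun i l x => hδ i l x) hip (fun x hx => ⟨B x, fun i hi => hB.ne (p i) (hpf i).out (hbp i) x hx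
      (lt_of_le_of_lt hi (hip i))⟩) 1 one_ne_zero
  obtain ⟨j, h1, h2, h3⟩ := hbad i
  exact hi2 j h1 h2 h3

end MPadcBM
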