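import Pool.Agent.Lib.MP_adc574_ag_BM.Defs

/-!
# JOB Cov: the covariant derivative of alternating forms exists

* `nb_add`, `nb_smul`: `nb D F P = cder D P + cder D F * P`; `cder` is additive and satisfies the Leibniz rule (`cderD D` of LZ/FrD is the derivation with `cderD_apply : cderD D P = cder D P`), `cderD D (C a) = C (D a)` (`cderD_monomial`).
* `nb_dl`: `nb D F (dl F i Q) = dl F i (nb D F Q)`: expand, `cderD_pderiv`.
* `nb_rel`: `nb D F` maps `relZ d F` to itself if `F` is homogeneous of degree `d`: `relZ` is the span of the `dl F i Q` and the monomials outside; for the span use `Submodule.span_induction` (`nb_add`, `nb_smul`: `nb (c • P) = D c • P + c • nb P`, both terms in `relZ`); for a monomial `x^e` with `¬ d ∣ dg e + N`: `nb D F (x^e) = cder D F * x^e`,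
  all monomials of `cder D F` have degree `d`, so those of the product have degree `dg e + d`, not divisible after adding `N`: the product is a sum of multiples of monomials outside.
* `nabH`: the additive map induced on the quotient.
* `exists_cov`: `ω' (f) = D (ω f) - ∑ u, ω (update f u (∇ (f u)))` is additive in every variable and `k`-homogeneous (the terms with `D a` cancel: `D (a ω f) = D a ω f + a D (ω f)`, `ω (update f u (∇ (a f_u))) = D a ω f + a ω (update f u (∇ f_u))`), and alternating: if `f u = f v`, `u ≠ v`, then `ω f = 0`, all terms with index `≠ u, v` vanish and the two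
  terms with index `u`, `v` cancel (`AlternatingMap.map_swap`-type: the two families differ by the transposition of `u` and `v`). Build it with `AlternatingMap.mk` (`MultilinearMap.mk'`).
-/

set_option autoImplicit false

namespace MPadcBM

open MvPolynomial MPadcHM MPadcLZ

universe u

variable {k : Type u} [Field k] {N : ℕ}

theorem nb_add (D : Derivation ℤ k k) (F P Q : MvPolynomial (Fin N) k) :
    nb D F (P + Q) = nb D F P + nb D F Q := by
  unfold nb
  rw [← cderD_apply, ← cderD_apply, ← cderD_apply, ← cderD_apply, map_add]
  ring

theorem nb_smul (D : Derivation ℤ k k) (F P : MvPolynomial (Fin N) k) (a : k) :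
    nb D F (a • P) = D a • P + a • nb D F P := by
  unfold nb
  rw [← cderD_apply, ← cderD_apply, ← cderD_apply, smul_eq_C_mul, smul_eq_C_mul, smul_eq_C_mul,
    Derivation.leibniz]
  have h1 : cderD D (C a : MvPolynomial (Fin N) k) = C (D a) := cderD_monomial D 0 a
  rw [h1, smul_eq_mul, smul_eq_mul]
  ring

theorem nb_dl (D : Derivation ℤ k k) (F Q : MvPolynomial (Fin N) k) (i : Fin N) :
    nb D F (dl F i Q) = dl F i (nb D F Q) := by
  unfold nb dl
  simp only [← cderD_apply, map_add, Derivation.leibniz, smul_eq_mul, cderD_pderiv]
  ring

theorem nb_rel {d : ℕ} {F : MvPolynomial (Fin N) k} (hF : Hm d F) (D : Derivation ℤ k k)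
    (P : MvPolynomial (Fin N) k) (hP : P ∈ relZ d F) : nb D F P ∈ relZ d F := by
  unfold relZ at hP
  induction hP using Submodule.span_induction with
  | mem x hx =>
    rcases hx with ⟨i, Q, rfl⟩ | ⟨e, he, rfl⟩
    · rw [nb_dl]
      exact Submodule.subset_span (Or.inl ⟨i, _, rfl⟩)
    · have h1 : nb D F (monomial e 1) = cder D F * monomial e 1 := by
        unfold nb
        rw [← cderD_apply, cderD_monomial, Derivation.map_one_eq_zero, map_zero, zero_add]
      rw [h1]
      nth_rewrite 1 [(cder D F).as_sum]
      rw [Finset.sum_mul]
      refine Submodule.sum_mem _ fun m hm => ?_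
      have hmd : dg m = d := by
        apply hF
        rw [MvPolynomial.mem_support_iff] at hm ⊢
        intro h0
        apply hm
        rw [← cderD_apply, coeff_cderD, h0, map_zero]
      have h2 : (monomial m (coeff m (cder D F)) : MvPolynomial (Fin N) k) * monomial e 1 =
          coeff m (cder D F) • monomial (m + e) 1 := by
        rw [monomial_mul, mul_one, smul_monomial, smul_eq_mul, mul_one]
      rw [h2]
      refine Submodule.smul_mem _ _ (Submodule.subset_span (Or.inr ⟨m + e, ?_, rfl⟩))
      intro hd
      apply he
      have h3 : dg (m + e) = d + dg e := by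
        rw [← hmd]
        unfold dg
        simp only [Finsupp.add_apply]
        exact Finset.sum_add_distrib
      rw [h3, add_assoc] at hd
      exact (Nat.dvd_add_right (dvd_refl d)).1 hd
  | zero =>
    have h1 : nb D F 0 = 0 := by
      have := nb_smul D F 0 0
      simpa using this
    rw [h1]
    exact Submodule.zero_mem _
  | add x y _ _ hx hy =>
    rw [nb_add]
    exact Submodule.add_mem _ hx hy
  | smul a x hx hx' =>
    rw [nb_smul]
    exact Submodule.add_mem _ (Submodule.smul_mem _ _ hx) (Submodule.smul_mem _ _ hx')

theorem exists_nabH {d : ℕ} {F : MvPolynomial (Fin N) k} (hF : Hm d F) (D : Derivation ℤ k k) :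
    ∃ nab : PKm d F →+ PKm d F, (∀ P, nab (brP d F P) = brP d F (nb D F P)) ∧
      ∀ (a : k) x, nab (a • x) = D a • x + a • nab x := by
  have hwd : ∀ P Q : MvPolynomial (Fin N) k, brP d F P = brP d F Q →
      brP d F (nb D F P) = brP d F (nb D F Q) := by
    intro P Q h
    have h1 : P - Q ∈ relZ d F := (Submodule.Quotient.eq (relZ d F)).1 h
    have h2 := nb_rel hF D _ h1
    have h3 : nb D F P = nb D F (P - Q) + nb D F Q := by
      rw [← nb_add, sub_add_cancel]
    rw [h3, map_add]
    have h4 : brP d F (nb D F (P - Q)) = 0 := (Submodule.Quotient.mk_eq_zero _).2 h2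
    rw [h4, zero_add]
  have key : ∀ P, brP d F (nb D F (Function.surjInv (brP_surj d F) (brP d F P))) =
      brP d F (nb D F P) := fun P => hwd _ _ (Function.surjInv_eq (brP_surj d F) (brP d F P))
  refine ⟨AddMonoidHom.mk' (fun x => brP d F (nb D F (Function.surjInv (brP_surj d F) x))) ?_,
    key, ?_⟩
  · intro x y
    obtain ⟨P, rfl⟩ := brP_surj d F x
    obtain ⟨Q, rfl⟩ := brP_surj d F y
    rw [← map_add, key, key, key, nb_add, map_add]
  · intro a x
    obtain ⟨P, rfl⟩ := brP_surj d F x
    change brP d F (nb D F (Function.surjInv (brP_surj d F) (a • brP d F P))) =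
      D a • brP d F P + a • brP d F (nb D F (Function.surjInv (brP_surj d F) (brP d F P)))
    rw [← map_smul, key, key, nb_smul, map_add, map_smul, map_smul]

theorem exists_cov {d : ℕ} {F : MvPolynomial (Fin N) k} (hF : Hm d F) (D : Derivation ℤ k k)
    {r : ℕ} (ω : PKm d F [⋀^Fin r]→ₗ[k] k) : ∃ ω', IsCov d F D ω ω' := by
  classical
  obtain ⟨nab, hn1, hn2⟩ := exists_nabH hF D
  have hT1 : ∀ (m : Fin r → PKm d F) (i u : Fin r) (x y : PKm d F),
      ω (Function.update (Function.update m i (x + y)) u (nab (Function.update m i (x + y) u))) =
      ω (Function.update (Function.update m i x) u (nab (Function.update m i x u))) +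
      ω (Function.update (Function.update m i y) u (nab (Function.update m i y u))) := by
    intro m i u x y
    by_cases hu : u = i
    · subst hu
      simp only [Function.update_self, Function.update_idem, map_add, AlternatingMap.map_update_add]
    · rw [Function.update_of_ne hu, Function.update_of_ne hu, Function.update_of_ne hu,
        Function.update_comm (Ne.symm hu), Function.update_comm (Ne.symm hu),
        Function.update_comm (Ne.symm hu), AlternatingMap.map_update_add]
  have hT2 : ∀ (m : Fin r → PKm d F) (i u : Fin r) (c : k) (x : PKm d F),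
      ω (Function.update (Function.update m i (c • x)) u (nab (Function.update m i (c • x) u))) =
      c * ω (Function.update (Function.update m i x) u (nab (Function.update m i x u))) +
      if u = i then D c * ω (Function.update m i x) else 0 := by
    intro m i u c x
    by_cases hu : u = i
    · subst hu
      rw [if_pos rfl]
      simp only [Function.update_self, Function.update_idem, hn2, AlternatingMap.map_update_add,
        AlternatingMap.map_update_smul, smul_eq_mul]
      ring
    · rw [if_neg hu, Function.update_of_ne hu, Function.update_of_ne hu,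
        Function.update_comm (Ne.symm hu), Function.update_comm (Ne.symm hu),
        AlternatingMap.map_update_smul, smul_eq_mul, add_zero]
  let g : (Fin r → PKm d F) → k := fun f =>
    D (ω f) - ∑ u, ω (Function.update f u (nab (f u)))
  let G : MultilinearMap k (fun _ : Fin r => PKm d F) k := MultilinearMap.mk' g
    (by
      intro m i x y
      change D _ - ∑ u, _ = D _ - ∑ u, _ + (D _ - ∑ u, _)
      simp only [hT1, Finset.sum_add_distrib, AlternatingMap.map_update_add, map_add]
      ring)
    (by
      intro m i c x
      change D _ - ∑ u, _ = c * (D _ - ∑ u, _)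
      simp only [hT2, Finset.sum_add_distrib, AlternatingMap.map_update_smul, smul_eq_mul,
        Derivation.leibniz, ← Finset.mul_sum, Finset.sum_ite_eq', Finset.mem_univ, if_true]
      ring)
  refine ⟨{ G with
    map_eq_zero_of_eq' := ?_ }, ?_⟩
  · intro f p q hpq hne
    change D (ω f) - ∑ u, ω (Function.update f u (nab (f u))) = 0
    have h0 : ω f = 0 := ω.map_eq_zero_of_eq f hpq hne
    have h1 : ∑ u, ω (Function.update f u (nab (f u))) = 0 := by
      have h2 : ∀ u, u ≠ p → u ≠ q → ω (Function.update f u (nab (f u))) = 0 := by
        intro u hp hq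
        apply ω.map_eq_zero_of_eq _ _ hne
        rw [Function.update_of_ne (Ne.symm hp), Function.update_of_ne (Ne.symm hq), hpq]
      rw [← Finset.add_sum_erase Finset.univ _ (Finset.mem_univ p),
        ← Finset.add_sum_erase _ _ (Finset.mem_erase.2 ⟨Ne.symm hne, Finset.mem_univ q⟩),
        Finset.sum_eq_zero (s := (Finset.univ.erase p).erase q)]
      · have h3 : Function.update f q (nab (f q)) =
            Function.update f p (nab (f p)) ∘ Equiv.swap p q := by
          funext u
          rw [Function.comp_apply]
          by_cases hp : u = p
          · subst hp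
            rw [Equiv.swap_apply_left, Function.update_of_ne hne,
              Function.update_of_ne (Ne.symm hne), hpq]
          · by_cases hq : u = q
            · subst hq
              rw [Equiv.swap_apply_right, Function.update_self, Function.update_self, hpq]
            · rw [Equiv.swap_apply_of_ne_of_ne hp hq, Function.update_of_ne hq,
                Function.update_of_ne hp]
        rw [h3, AlternatingMap.map_swap _ _ hne]
        ring
      · intro u hu
        rw [Finset.mem_erase, Finset.mem_erase] at hu
        exact h2 u hu.2.1 hu.1
    rw [h0, h1, map_zero, sub_zero]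
  · intro P
    change D _ - ∑ u, _ = D _ - ∑ u, _
    simp only [hn1]

end MPadcBM
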