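import Pool.Agent.Lib.MP_adc574_ag_LZ.PK

/-!
# Big monodromy: definitions

`k` a field of characteristic 0, `F ∈ k[x_0, …, x_{N-1}]` homogeneous of degree `d`. `H = PKm d F` is the primitive cohomology of the hypersurface `F = 0`: the quotient of `k[x]` by
all `∂_i Q + (∂_i F) Q` and all monomials `x ^ e` with `d ∤ |e| + N`; `[P] = brP d F P`. The Gauss-Manin connection is `∇_D [P] = [D P + (D F) P]` (`nb D F P`) for a derivation `D` of `k`.
-/

set_option autoImplicit false

namespace MPadcBM

open MvPolynomial MPadcHM MPadcLZ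

universe u

variable {k : Type u} [Field k] {N : ℕ}

/-- `ω'` is the covariant derivative of the alternating form `ω` in the direction `D`. -/
def IsCov (d : ℕ) (F : MvPolynomial (Fin N) k) (D : Derivation ℤ k k) {r : ℕ}
    (ω ω' : PKm d F [⋀^Fin r]→ₗ[k] k) : Prop :=
  ∀ P : Fin r → MvPolynomial (Fin N) k,
    ω' (fun u => brP d F (P u)) = D (ω fun u => brP d F (P u)) -
      ∑ u, ω (Function.update (fun u => brP d F (P u)) u (brP d F (nb D F (P u))))

/-- The space `W` of alternating forms is horizontal: stable under the Gauss-Manin connection. -/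
def IsHorizontal (d : ℕ) (F : MvPolynomial (Fin N) k) {r : ℕ}
    (W : Submodule k (PKm d F [⋀^Fin r]→ₗ[k] k)) : Prop :=
  ∀ (D : Derivation ℤ k k), ∀ ω ∈ W, ∃ ω' ∈ W, IsCov d F D ω ω'

/-- Big monodromy: there is a nondegenerate bilinear form `B` on the cohomology, alternating for odd `N` and
symmetric for even `N`, such that every horizontal space of alternating forms on the cohomology is stable under the
isometries of `B` of determinant 1. -/
def HasBigMonodromy (d : ℕ) (F : MvPolynomial (Fin N) k) : Prop :=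
  ∃ B : PKm d F →ₗ[k] PKm d F →ₗ[k] k,
    (∀ x y, B y x = (-1) ^ N * B x y) ∧ (∀ x, (∀ y, B x y = 0) → x = 0) ∧
    ∀ (r : ℕ) (W : Submodule k (PKm d F [⋀^Fin r]→ₗ[k] k)), IsHorizontal d F W →
      ∀ g : PKm d F →ₗ[k] PKm d F, (∀ x y, B (g x) (g y) = B x y) → LinearMap.det g = 1 →
        ∀ ω ∈ W, ω.compLinearMap g ∈ W

end MPadcBM
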