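import Pool.Agent.Lib.MP_adc574_ag_BM.CoC
import Pool.Agent.Lib.MP_adc574_ag_BK.FinL
import Pool.Agent.Lib.MP_adc574_ag_GM.Lift

/-!
# FiC: closed points, finite families, with a subfield (helper90, after helper93's FiA)

`K → k` an extension of fields, `F₀ i` over `K` with big monodromy. From the determinants modulo all large
primes (`coC`, over `K`) to closed points of models of the `F₀ i` over a finitely generated subring of `k`.
-/

set_option autoImplicit false

namespace MPadcBM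

open MvPolynomial MPadcGM MPadcHM MPadcLZ MPadcBK

universe u

private theorem fic_cons (n : ℕ) :
    (Fin.cons 1 (fun _ => 1) : Fin (n + 1) → ℕ) = 1 := by
  funext i
  refine Fin.cases ?_ (fun j => ?_) i
  · rfl
  · rfl

private theorem fic_finite {A : Type*} [CommRing A] [Algebra.FiniteType ℤ A] (m : Ideal A)
    [hm : m.IsMaximal] {p : ℕ} (hp : p.Prime) (hpm : (p : A) ∈ m) : Finite (A ⧸ m) := by
  let _ := Ideal.Quotient.field m
  have h1 : Algebra.FiniteType ℤ (A ⧸ m) :=
    Algebra.FiniteType.of_surjective (Ideal.Quotient.mkₐ ℤ m) (Ideal.Quotient.mkₐ_surjective ℤ m)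
  have hj := isJacobsonRing_int
  have h2 : Module.Finite ℤ (A ⧸ m) := finite_of_finite_type_of_isJacobsonRing ℤ (A ⧸ m)
  refine Module.finite_of_fg_torsion (A ⧸ m) ?_
  intro x
  refine ⟨⟨(p : ℤ), mem_nonZeroDivisors_of_ne_zero (by exact_mod_cast hp.ne_zero)⟩, ?_⟩
  show (p : ℤ) • x = 0
  have h3 : ((p : ℤ) : A ⧸ m) = 0 := by
    rw [Int.cast_natCast, ← map_natCast (Ideal.Quotient.mk m), Ideal.Quotient.eq_zero_iff_mem]
    exact hpm
  rw [zsmul_eq_mul, h3, zero_mul]

private theorem fic_good {A : Type*} [CommRing A] {κ : Type u} [Field κ] [Finite κ]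
    (φ : A →+* κ) (p : ℕ) [hp : Fact p.Prime] [hch : CharP κ p] {n : ℕ} (hn : 2 ≤ n) {d : ℕ}
    (hd : 1 ≤ d) (hnp : n < p) (hdk : (d : κ) ≠ 0) {F : MvPolynomial (Fin (n + 1)) A}
    (hF : F.IsHomogeneous d) (hs : Smooth (F.map φ)) (V : ℕ → Finset (Fin (n + 1) →₀ ℕ))
    (cA : ∀ j, V j → (Fin (n + 1) →₀ ℕ) → A) (hA : ℕ → A)
    (hCA : ∀ j, CData d j F (fun v : V j => v.1) (fun v => tdg v.1 / d) (cA j) (hA j))
    (hA0 : ∀ j, 1 ≤ j → j ≤ n → φ (hA j) ≠ 0)
    (hdet : ∀ j, 1 ≤ j → j ≤ n → dete p (F.map φ) (V j) d (fun v e => φ (cA j v e)) ≠ 0) :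
    BKGood p d (F.map φ) := by
  have hperf : PerfectRing κ p := PerfectRing.ofFiniteOfIsReduced p κ
  have hFk : (F.map φ).IsHomogeneous d := hF.map φ
  refine ⟨hp, hch, hperf, ?_⟩
  have H : Hyp p d (F.map φ) := ⟨hn, hd, hnp, fun h => hdk ((CharP.cast_eq_zero_iff κ p d).2 h),
    hFk, hs⟩
  refine ⟨H, fun q j => mainA p H (fun j hj1 hjn => ?_) q j⟩
  have h1 := (hCA j).map φ
  have h2 := hdet j hj1 hjn
  unfold dete at h2
  exact surjJ_of_det p hFk hd h1 (hA0 j hj1 hjn) h2

/-- The comparison of the coefficient rings. -/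
private theorem fic_theta {K k : Type u} [Field K] [Field k] [Algebra K k] {ι : Type} [Fintype ι]
    (m : ι → ℕ) (A : Subalgebra ℤ k) (F : ∀ i, MvPolynomial (Fin (m i)) A)
    (F₀ : ∀ i, MvPolynomial (Fin (m i)) K)
    (hFF : ∀ i, (F i).map (algebraMap A k) = (F₀ i).map (algebraMap K k)) :
    ∃ (R : Subalgebra ℤ K) (_ : R.FG) (FR : ∀ i, MvPolynomial (Fin (m i)) R) (θ : R →+* A),
      Function.Injective θ ∧ (∀ i, (FR i).map (algebraMap R K) = F₀ i) ∧
        ∀ i, (FR i).map θ = F i := by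
  classical
  let s : Finset K := Finset.univ.biUnion fun i => (F₀ i).support.image (fun e => coeff e (F₀ i))
  let R : Subalgebra ℤ K := Algebra.adjoin ℤ (s : Set K)
  let ι' : K →ₐ[ℤ] k := (algebraMap K k).toIntAlgHom
  have hcoef : ∀ i e, ι' (coeff e (F₀ i)) = ((coeff e (F i) : A) : k) := by
    intro i e
    have h1 := congrArg (coeff e) (hFF i)
    rw [coeff_map, coeff_map] at h1
    exact h1.symm
  have hR : R ≤ A.comap ι' := by
    apply Algebra.adjoin_le
    intro x hx
    obtain ⟨i, _, hi⟩ := Finset.mem_biUnion.1 (Finset.mem_coe.1 hx)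
    obtain ⟨e, _, rfl⟩ := Finset.mem_image.1 hi
    show ι' (coeff e (F₀ i)) ∈ A
    rw [hcoef]
    exact (coeff e (F i)).2
  have hG : ∀ i e, coeff e (F₀ i) ∈ R := by
    intro i e
    by_cases he : e ∈ (F₀ i).support
    · exact Algebra.subset_adjoin (Finset.mem_coe.2 (Finset.mem_biUnion.2
        ⟨i, Finset.mem_univ _, Finset.mem_image_of_mem _ he⟩))
    · rw [notMem_support_iff.1 he]
      exact R.zero_mem
  let θ : R →+* A := RingHom.codRestrict ((algebraMap K k).comp (algebraMap R K)) A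
    (fun x => hR x.2)
  have hθ : ∀ x : R, ((θ x : A) : k) = algebraMap K k (x : K) := fun x => rfl
  have hFR : ∀ i, (∑ e ∈ (F₀ i).support, monomial e (⟨coeff e (F₀ i), hG i e⟩ : R)).map
      (algebraMap R K) = F₀ i := by
    intro i
    rw [map_sum]
    conv_rhs => rw [(F₀ i).as_sum]
    refine Finset.sum_congr rfl fun e _ => ?_
    rw [map_monomial]
    rfl
  refine ⟨R, ⟨s, rfl⟩, fun i => ∑ e ∈ (F₀ i).support, monomial e ⟨coeff e (F₀ i), hG i e⟩, θ, ?_,
    hFR, ?_⟩
  · intro x y hxy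
    have h1 := congrArg (fun z : A => (z : k)) hxy
    simp only [hθ] at h1
    exact Subtype.ext ((algebraMap K k).injective h1)
  · intro i
    apply map_injective (algebraMap A k) (FaithfulSMul.algebraMap_injective A k)
    rw [map_map, hFF]
    have h1 : (algebraMap A k).comp θ = (algebraMap K k).comp (algebraMap R K) :=
      RingHom.ext fun x => rfl
    rw [h1, ← map_map, hFR]

theorem bm_points3 {K k : Type u} [Field K] [Field k] [CharZero K] [Algebra K k] {ι : Type}
    [Fintype ι] (n d : ι → ℕ) (hn : ∀ i, 2 ≤ n i) (hd : ∀ i, 2 ≤ d i)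
    (F₀ : ∀ i, MvPolynomial (Fin (n i + 1)) K) (hF₀ : ∀ i, (F₀ i).IsHomogeneous (d i))
    (hs : ∀ i l, (X l : MvPolynomial (Fin (n i + 1)) K) ∈
      (Ideal.span (Set.range fun j => pderiv j (F₀ i))).radical)
    (hbig : ∀ i, HasBigMonodromy (d i) (F₀ i)) (A : Subalgebra ℤ k) (hA : A.FG)
    (F : ∀ i, MvPolynomial (Fin (n i + 1)) A)
    (hFF : ∀ i, (F i).map (algebraMap A k) = (F₀ i).map (algebraMap K k)) (b : A) (hb : b ≠ 0) :
    ∃ p₀ : ℕ, ∀ p : ℕ, p.Prime → p₀ < p →
      ∃ (κ : Type u) (_ : Field κ) (_ : Finite κ) (φ : A →+* κ), Function.Surjective φ ∧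
        φ b ≠ 0 ∧ CharP κ p ∧ ∀ i, BKGood p (d i) ((F i).map φ) := by
  classical
  obtain ⟨R, hR, FR, θ, hθ, hFRK, hFRA⟩ := fic_theta (fun i => n i + 1) A F F₀ hFF
  have hinjR : Function.Injective (algebraMap R K) := FaithfulSMul.algebraMap_injective R K
  have hFRh : ∀ i, (FR i).IsHomogeneous (d i) := by
    intro i e he
    refine hF₀ i (d := e) ?_
    rw [← hFRK, coeff_map]
    exact fun h => he ((map_eq_zero_iff _ hinjR).1 h)
  have hF : ∀ i, (F i).IsHomogeneous (d i) := by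
    intro i
    rw [← hFRA]
    exact (hFRh i).map θ
  have hs' : ∀ i l, (X l : MvPolynomial (Fin (n i + 1)) K) ∈
      (Ideal.span (Set.range fun j => pderiv j ((FR i).map (algebraMap R K)))).radical := by
    intro i l
    rw [hFRK]
    exact hs i l
  have hbig' : ∀ i, HasBigMonodromy (d i) ((FR i).map (algebraMap R K)) := by
    intro i
    rw [hFRK]
    exact hbig i
  have hcons : ∀ i, (Fin.cons 1 (fun _ => 1) : Fin (n i + 1) → ℕ) = 1 := fun i => fic_cons (n i)
  have hW : ∀ i l, 0 < (Fin.cons 1 (fun _ => 1) : Fin (n i + 1) → ℕ) l := by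
    intro i
    rw [hcons]
    intro l
    exact Nat.one_pos
  have hd0 : ∀ i, 0 < d i := fun i => by have := hd i; omega
  have hd1 : ∀ i, 1 ≤ d i := hd0
  have hczk : CharZero k := charZero_of_injective_algebraMap (algebraMap K k).injective
  have hczA : CharZero A := (algebraMap A k).charZero
  have hczR : CharZero R := (algebraMap R K).charZero
  have hftA : Algebra.FiniteType ℤ A := A.fg_iff_finiteType.1 hA
  have hftR : Algebra.FiniteType ℤ R := R.fg_iff_finiteType.1 hR
  have hnoeR : IsNoetherianRing R := Algebra.FiniteType.isNoetherianRing ℤ R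
  have hθft : θ.FiniteType := by
    refine RingHom.FiniteType.of_comp_finiteType (f := algebraMap ℤ R) ?_
    have h1 : θ.comp (algebraMap ℤ R) = algebraMap ℤ A := Subsingleton.elim _ _
    rw [h1, RingHom.finiteType_algebraMap]
    exact hftA
  choose aR MA haR hJR using fun i => MPadcGM.exists_jac.{u, u, u} (A := R) (k := K) hinjR _ (hW i)
    (FR i) (hs' i)
  -- the bases
  choose V cR hj hj0 hCR using fun i j => exists_cdata_dom (hd1 i) (FR i) (hFRh i) j
  have hCA : ∀ i j, CData (d i) j (F i) (fun v : V i j => v.1) (fun v => tdg v.1 / d i)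
      (fun v e => θ (cR i j v e)) (θ (hj i j)) := by
    intro i j
    have h1 := (hCR i j).map θ
    rw [hFRA] at h1
    exact h1
  have := isJacobsonRing_int
  have hjacA : IsJacobsonRing A := isJacobsonRing_of_finiteType (A := ℤ)
  obtain ⟨gR, hgR, hlift⟩ := exists_prime_lift θ hθ hθft b hb
  let tt : ι → R := fun i => aR i * (d i : R) * ∏ j ∈ Finset.range (n i + 1), hj i j
  have htt : ∀ i, tt i ≠ 0 := by
    intro i
    refine mul_ne_zero (mul_ne_zero (haR i) ?_) ?_
    · exact Nat.cast_ne_zero.2 (hd0 i).ne'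
    · exact Finset.prod_ne_zero_iff.2 fun j _ => hj0 i j
  obtain ⟨bb, hbb⟩ : ∃ bb : R, bb = gR * ∏ i, tt i := ⟨_, rfl⟩
  have hbb0 : bb ≠ 0 := by
    rw [hbb]
    exact mul_ne_zero hgR (Finset.prod_ne_zero_iff.2 fun i _ => htt i)
  have hsm : ∀ i (κ : Type u) [Field κ] (φ : R →+* κ), φ (aR i) ≠ 0 →
      ∀ e : Fin (n i + 1) →₀ ℕ, MA i ≤ ∑ l, e l →
      monomial e (1 : κ) ∈ Ideal.span (Set.range fun j => pderiv j ((FR i).map φ)) := by
    intro i κ _ φ hφ e he
    refine hJR i φ hφ e ?_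
    rw [hcons]
    simpa using he
  obtain ⟨L, fL, φL, B, hB⟩ := exists_resFields R
  choose p₁ hp₁ using fun i => coC (N := n i + 1) (by have := hn i; omega) (hd i) R hR L φL B hB
    (FR i) (hFRh i) (hbig' i) (aR i) (haR i) (MA i) (hsm i) (V i) (cR i) (hj i) (hj0 i) (hCR i)
  refine ⟨B 0 + B bb + ∑ i, (p₁ i + n i), fun p hp hpp => ?_⟩
  have hpf : Fact p.Prime := ⟨hp⟩
  have hple : ∀ i, p₁ i + n i ≤ ∑ i, (p₁ i + n i) := fun i =>
    Finset.single_le_sum (f := fun i => p₁ i + n i) (fun i _ => Nat.zero_le _) (Finset.mem_univ i)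
  have hnp : ∀ i, n i < p := fun i => by have := hple i; omega
  have hB0 : B 0 < p := by omega
  have hBbb : B bb < p := by omega
  have hchL : CharP (L p) p := hB.char p hp hB0
  let ψ : R →+* L p := φL p
  have hbψ : ψ bb ≠ 0 := hB.ne p hp hB0 bb hbb0 hBbb
  have hdet : ∀ i j, 1 ≤ j → j ≤ n i → dete p ((FR i).map ψ) (V i j) (d i)
      (fun v e => ψ (cR i j v e)) ≠ 0 := by
    intro i j hj1 hjn
    exact hp₁ i p (by have := hple i; omega) j hj1 (by omega)
  -- lift the kernel of `ψ`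
  have hgψ : gR ∉ RingHom.ker ψ := by
    intro h1
    apply hbψ
    rw [hbb, map_mul, (RingHom.mem_ker).1 h1, zero_mul]
  obtain ⟨P, hP, hbP, hPθ⟩ := hlift (RingHom.ker ψ) (RingHom.ker_isPrime _) hgψ
  have hPmem : ∀ x : R, θ x ∈ P ↔ ψ x = 0 := by
    intro x
    rw [← RingHom.mem_ker, ← hPθ, Ideal.mem_comap]
  have hbbP : θ bb ∉ P := fun h1 => hbψ ((hPmem bb).1 h1)
  have hpP : (p : A) ∈ P := by
    rw [← map_natCast θ, hPmem, map_natCast]
    exact CharP.cast_eq_zero (L p) p
  have hntP : Nontrivial (A ⧸ P) := Ideal.Quotient.nontrivial_iff.2 hP.ne_top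
  have hchP : CharP (A ⧸ P) p := by
    rw [CharP.charP_iff_prime_eq_zero hp, ← map_natCast (Ideal.Quotient.mk P),
      Ideal.Quotient.eq_zero_iff_mem]
    exact hpP
  -- the quotient of `R`
  let πR : R →+* A ⧸ P := (Ideal.Quotient.mk P).comp θ
  have hFπ : ∀ i, (FR i).map πR = (F i).map (Ideal.Quotient.mk P) := by
    intro i
    rw [← hFRA, map_map]
  let Q : Ideal R := RingHom.ker ψ
  have hchQ : CharP (R ⧸ Q) p := by
    have hntQ : Nontrivial (R ⧸ Q) :=
      Ideal.Quotient.nontrivial_iff.2 (RingHom.ker_isPrime ψ).ne_top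
    rw [CharP.charP_iff_prime_eq_zero hp, ← map_natCast (Ideal.Quotient.mk Q),
      Ideal.Quotient.eq_zero_iff_mem, RingHom.mem_ker, map_natCast]
    exact CharP.cast_eq_zero (L p) p
  let iE : R ⧸ Q →+* L p := RingHom.kerLift ψ
  have hiEc : iE.comp (Ideal.Quotient.mk Q) = ψ := RingHom.ext fun x => RingHom.kerLift_mk ψ x
  let iP : R ⧸ Q →+* A ⧸ P := Ideal.Quotient.lift Q πR (fun x hx => by
    show Ideal.Quotient.mk P (θ x) = 0
    rw [Ideal.Quotient.eq_zero_iff_mem, hPmem]
    exact (RingHom.mem_ker).1 hx)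
  have hiPc : iP.comp (Ideal.Quotient.mk Q) = πR := RingHom.ext fun x => rfl
  have hiPinj : Function.Injective iP := by
    rw [injective_iff_map_eq_zero]
    intro x hx
    obtain ⟨x, rfl⟩ := Ideal.Quotient.mk_surjective x
    have h1 : Ideal.Quotient.mk P (θ x) = 0 := by
      rw [← hx]
      exact (RingHom.congr_fun hiPc x).symm
    rw [Ideal.Quotient.eq_zero_iff_mem, hPmem] at h1
    rw [Ideal.Quotient.eq_zero_iff_mem]
    exact (RingHom.mem_ker).2 h1
  have hD : ∀ i j, 1 ≤ j → j ≤ n i → dete p ((F i).map (Ideal.Quotient.mk P)) (V i j) (d i)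
      (fun v e => Ideal.Quotient.mk P (θ (cR i j v e))) ≠ 0 := by
    intro i j hj1 hjn h0
    have h1 := dete_map p iP ((FR i).map (Ideal.Quotient.mk Q)) (V i j) (d i)
      (fun v e => Ideal.Quotient.mk Q (cR i j v e))
    rw [map_map, hiPc, hFπ] at h1
    have h2 : dete p ((FR i).map (Ideal.Quotient.mk Q)) (V i j) (d i)
        (fun v e => Ideal.Quotient.mk Q (cR i j v e)) = 0 := by
      apply hiPinj
      rw [map_zero, ← h0, ← h1]
      rfl
    apply hdet i j hj1 hjn
    have h3 := dete_map p iE ((FR i).map (Ideal.Quotient.mk Q)) (V i j) (d i)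
      (fun v e => Ideal.Quotient.mk Q (cR i j v e))
    rw [map_map, hiEc, h2, map_zero] at h3
    exact h3
  choose D hDm using fun i j => Ideal.Quotient.mk_surjective (I := P)
    (dete p ((F i).map (Ideal.Quotient.mk P)) (V i j) (d i)
      (fun v e => Ideal.Quotient.mk P (θ (cR i j v e))))
  have hDP : ∀ i j, 1 ≤ j → j ≤ n i → D i j ∉ P := by
    intro i j hj1 hjn h1
    apply hD i j hj1 hjn
    rw [← hDm i j, Ideal.Quotient.eq_zero_iff_mem]
    exact h1
  have hcd : b * θ bb * ∏ i, ∏ j ∈ Finset.Icc 1 (n i), D i j ∉ P := by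
    intro h1
    rcases hP.mem_or_mem h1 with h2 | h2
    · rcases hP.mem_or_mem h2 with h3 | h3
      · exact hbP h3
      · exact hbbP h3
    · obtain ⟨i, _, h3⟩ := (Ideal.IsPrime.prod_mem_iff (p := P)).1 h2
      obtain ⟨j, hjm, h4⟩ := (Ideal.IsPrime.prod_mem_iff (p := P)).1 h3
      exact hDP i j (Finset.mem_Icc.1 hjm).1 (Finset.mem_Icc.1 hjm).2 h4
  have hjac2 : P.jacobson = P := hjacA.out hP.isRadical
  rw [← hjac2, Ideal.jacobson, Ideal.mem_sInf] at hcd
  push Not at hcd
  obtain ⟨m, ⟨hPm, hm⟩, hmcd⟩ := hcd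
  have hbm1 : b * θ bb ∉ m := fun h1 => hmcd (m.mul_mem_right _ h1)
  have hbm : b ∉ m := fun h1 => hbm1 (m.mul_mem_right _ h1)
  have hbbm : θ bb ∉ m := fun h1 => hbm1 (m.mul_mem_left _ h1)
  have htm : ∀ i, θ (tt i) ∉ m := by
    intro i h1
    apply hbbm
    rw [hbb, map_mul, ← Finset.mul_prod_erase Finset.univ tt (Finset.mem_univ i), map_mul]
    exact m.mul_mem_left _ (m.mul_mem_right _ h1)
  have hadm : ∀ i, θ (aR i * (d i : R)) ∉ m := by
    intro i h1
    apply htm i
    show θ (aR i * (d i : R) * ∏ j ∈ Finset.range (n i + 1), hj i j) ∈ m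
    rw [map_mul]
    exact m.mul_mem_right _ h1
  have hjm : ∀ i j, j ≤ n i → θ (hj i j) ∉ m := by
    intro i j hjn h1
    apply htm i
    show θ (aR i * (d i : R) * ∏ j ∈ Finset.range (n i + 1), hj i j) ∈ m
    rw [map_mul]
    apply m.mul_mem_left
    rw [← Finset.mul_prod_erase (Finset.range (n i + 1)) (hj i)
      (Finset.mem_range.2 (by omega : j < n i + 1)), map_mul]
    exact m.mul_mem_right _ h1
  have hDm' : ∀ i j, 1 ≤ j → j ≤ n i → D i j ∉ m := by
    intro i j hj1 hjn h1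
    apply hmcd
    apply m.mul_mem_left
    rw [← Finset.mul_prod_erase Finset.univ (fun i => ∏ j ∈ Finset.Icc 1 (n i), D i j)
      (Finset.mem_univ i)]
    apply m.mul_mem_right
    rw [← Finset.mul_prod_erase (Finset.Icc 1 (n i)) (D i) (Finset.mem_Icc.2 ⟨hj1, hjn⟩)]
    exact m.mul_mem_right _ h1
  have hfin : Finite (A ⧸ m) := fic_finite m hp (hPm hpP)
  let : Field (A ⧸ m) := Ideal.Quotient.field m
  have hcharm : CharP (A ⧸ m) p := by
    apply charP_of_cast_eq_zero hp
    rw [← map_natCast (Ideal.Quotient.mk m), Ideal.Quotient.eq_zero_iff_mem]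
    exact hPm hpP
  have hfac : (Ideal.Quotient.factor hPm).comp (Ideal.Quotient.mk P) = Ideal.Quotient.mk m :=
    RingHom.ext fun x => Ideal.Quotient.factor_mk hPm x
  have hFm : ∀ i, (F i).map (Ideal.Quotient.mk m) =
      (FR i).map ((Ideal.Quotient.mk m).comp θ) := by
    intro i
    rw [← hFRA, map_map]
  refine ⟨A ⧸ m, this, hfin, Ideal.Quotient.mk m, Ideal.Quotient.mk_surjective, ?_, hcharm,
    fun i => ?_⟩
  · intro h1
    rw [Ideal.Quotient.eq_zero_iff_mem] at h1
    exact hbm h1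
  · refine fic_good (Ideal.Quotient.mk m) p (hn i) (hd1 i) (hnp i) ?_ (hF i) ?_ (V i)
      (fun j v e => θ (cR i j v e)) (fun j => θ (hj i j)) (hCA i) ?_ ?_
    · intro h1
      rw [← map_natCast (Ideal.Quotient.mk m), Ideal.Quotient.eq_zero_iff_mem] at h1
      rw [← map_natCast θ] at h1
      apply hadm i
      rw [map_mul]
      exact m.mul_mem_left _ h1
    · intro l
      refine ⟨MA i, ?_⟩
      rw [X_pow_eq_monomial, hFm]
      refine hJR i ((Ideal.Quotient.mk m).comp θ) ?_ _ ?_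
      · intro h1
        have h2 : Ideal.Quotient.mk m (θ (aR i)) = 0 := h1
        rw [Ideal.Quotient.eq_zero_iff_mem] at h2
        apply hadm i
        rw [map_mul]
        exact m.mul_mem_right _ h2
      · rw [hcons, Finset.sum_eq_single l]
        · rw [Finsupp.single_eq_same, Pi.one_apply, one_mul]
        · intro j _ hj
          rw [Finsupp.single_eq_of_ne hj, mul_zero]
        · intro h
          exact absurd (Finset.mem_univ l) h
    · intro j _ hjn h1
      rw [Ideal.Quotient.eq_zero_iff_mem] at h1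
      exact hjm i j hjn h1
    · intro j hj1 hjn
      have h1 := dete_map p (Ideal.Quotient.factor hPm) ((F i).map (Ideal.Quotient.mk P)) (V i j)
        (d i) (fun v e => Ideal.Quotient.mk P (θ (cR i j v e)))
      rw [map_map, hfac, ← hDm i j] at h1
      intro h2
      have h3 : Ideal.Quotient.factor hPm (Ideal.Quotient.mk P (D i j)) = 0 := h1.symm.trans h2
      rw [Ideal.Quotient.factor_mk, Ideal.Quotient.eq_zero_iff_mem] at h3
      exact hDm' i j hj1 hjn h3

end MPadcBM
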