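import Pool.Agent.Lib.MP_adc574_ag_BM.Defs
import Pool.Agent.Lib.MP_adc574_ag_BK.KeyB

/-!
# JOB KeyC: from the functionals of BK to functionals on polynomials; independence in `PKm`

Adapt the proof of `key_of_keyHyp` (BK/KeyB.lean, same ideas; copy its private lemmas). `tdg e = dg e + N`. A monomial `x^e` is inside if `d ∣ tdg e`; then `tdg e = k d` with a unique `k ≥ 1` (`N ≥ 1`).
* `exists_cfun`: `c v (x^e) = (-1)^k C v k (x^e)` for `tdg e = k d`, `0` for `¬ d ∣ tdg e` (`(basisMonomials ..).constr`, `k = tdg e / d`). (1) it kills `dl (F.map ι) i Q`: by linearity `Q = x^e`; `∂_i x^e` is a multiple of a monomial with `tdg = tdg e - 1`, all monomials of `∂_i F * x^e` have `tdg = tdg e - 1 + d`; if `d ∣ tdg e - 1 = k d`, `k ≥ 1` (`tdg e ≥ N ≥ 2`), `hex`.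
  (4) independence: `hind`. (5) derivation rule: both sides additive in `P`; for `P = monomial e a`, `a ∈ A₀`: `nb D F (monomial e a) = monomial e (D a) + cder D F * monomial e a`; if `¬ d ∣ tdg e` all terms are 0 (the monomials of `cder D F * x^e` have `tdg = tdg e + d`), if `tdg e = k d`: Leibniz for `Δ (ι a * ..)` and `hν` times `(-1)^k`.
* `indep_brP`: if the monomials `x^(g v)`, `tdg (g v) = lv v * d`, are independent modulo `RelM F` (`IndepM F g`), their classes are independent in `PKm d F`: the projection `π` of `k[x]` to the span of the inside monomials maps `relZ d F` to `RelM F` (see KeyB.lean).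
-/

set_option autoImplicit false

namespace MPadcBM

open MvPolynomial MPadcGM MPadcHM MPadcLZ MPadcBK

universe u

section

variable {m : ℕ}

private theorem keyc_tdg (e : Fin m →₀ ℕ) : tdg e = e.degree + m := by
  unfold tdg
  rw [Finset.sum_add_distrib, Finsupp.degree_eq_sum]
  simp

private theorem keyc_dg (e : Fin m →₀ ℕ) : dg e + m = tdg e := by
  rw [keyc_tdg, Finsupp.degree_eq_sum]
  rfl

private theorem keyc_hom {R : Type*} [CommRing R] {N : ℕ} {P : MvPolynomial (Fin m) R}
    (hP : P.IsHomogeneous N) {e : Fin m →₀ ℕ} (he : e ∈ P.support) : tdg e = N + m := by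
  have h1 := hP (mem_support_iff.mp he)
  have h2 : e.degree = N := by
    rw [← h1, Finsupp.degree_eq_sum, Finsupp.weight_apply, Finsupp.sum_fintype _ _ (by simp)]
    simp
  rw [keyc_tdg, h2]

private theorem keyc_hom_mul {R : Type*} [CommRing R] {N : ℕ} {P : MvPolynomial (Fin m) R}
    (hP : P.IsHomogeneous N) (u : Fin m →₀ ℕ) (a : R) {e : Fin m →₀ ℕ}
    (he : e ∈ (P * monomial u a).support) : tdg e = N + tdg u := by
  have h1 : (P * monomial u a).IsHomogeneous (N + u.degree) :=
    hP.mul (isHomogeneous_monomial a rfl)
  rw [keyc_hom h1 he, keyc_tdg, add_assoc]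

private theorem keyc_cder {R : Type*} [CommRing R] {N : ℕ} {P : MvPolynomial (Fin m) R}
    (hP : P.IsHomogeneous N) (D : Derivation ℤ R R) : (cder D P).IsHomogeneous N := by
  intro e he
  apply hP
  intro h0
  apply he
  rw [coeff_cder, h0, map_zero]

private theorem keyc_pd {R : Type*} [CommRing R] (i : Fin m) (u : Fin m →₀ ℕ) (a : R)
    {e : Fin m →₀ ℕ} (he : e ∈ (pderiv i (monomial u a)).support) : tdg e + 1 = tdg u := by
  classical
  rw [pderiv_monomial] at he
  by_cases h0 : u i = 0
  · rw [h0] at he
    simp at he
  · have h1 := support_monomial_subset he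
    rw [Finset.mem_singleton] at h1
    rw [h1, keyc_tdg, keyc_tdg]
    have h2 : u - Finsupp.single i 1 + Finsupp.single i 1 = u := by
      apply tsub_add_cancel_of_le
      rw [Finsupp.single_le_iff]
      omega
    have h3 : (u - Finsupp.single i 1).degree + 1 = u.degree := by
      conv_rhs => rw [← h2]
      rw [map_add, Finsupp.degree_single]
    omega

private theorem keyc_dl_supp {R : Type*} [CommRing R] {d : ℕ} {F : MvPolynomial (Fin m) R}
    (hF : F.IsHomogeneous d) (i : Fin m) (u : Fin m →₀ ℕ) (a : R)
    {e : Fin m →₀ ℕ} (he : e ∈ (pderiv i F * monomial u a).support) : tdg e + 1 = tdg u + d := by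
  rcases Nat.eq_zero_or_pos d with hd | hd
  · exfalso
    subst hd
    have h1 : pderiv i F = 0 := by
      have h2 : F.totalDegree = 0 := by
        by_cases h0 : F = 0
        · rw [h0, totalDegree_zero]
        · exact hF.totalDegree h0
      rw [totalDegree_eq_zero_iff_eq_C] at h2
      rw [h2, pderiv_C]
    rw [h1, zero_mul] at he
    simp at he
  · have h1 : (pderiv i F).IsHomogeneous (d - 1) := hF.pderiv
    have h2 := keyc_hom_mul h1 u a he
    omega

variable {K : Type*} [Field K]

/-- The projection to the monomials with `d ∣ tdg e`. -/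
private noncomputable def keyc_pi (K : Type*) [Field K] (m d : ℕ) :
    MvPolynomial (Fin m) K →ₗ[K] MvPolynomial (Fin m) K :=
  open Classical in
  (basisMonomials (Fin m) K).constr K
    fun e => if d ∣ tdg e then monomial e 1 else 0

private theorem keyc_constr {L : Type*} [AddCommGroup L] [Module K L]
    (w : (Fin m →₀ ℕ) → L) (e : Fin m →₀ ℕ) (a : K) :
    (basisMonomials (Fin m) K).constr K w (monomial e a) = a • w e := by
  have h1 : (monomial e a : MvPolynomial (Fin m) K) =
      a • basisMonomials (Fin m) K e := by
    rw [coe_basisMonomials, smul_monomial, smul_eq_mul, mul_one]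
  rw [h1, map_smul, Module.Basis.constr_basis]

private theorem keyc_constr_sum {L : Type*} [AddCommGroup L] [Module K L]
    (w : (Fin m →₀ ℕ) → L) (P : MvPolynomial (Fin m) K) :
    (basisMonomials (Fin m) K).constr K w P =
      ∑ e ∈ P.support, coeff e P • w e := by
  conv_lhs => rw [as_sum P]
  rw [map_sum]
  exact Finset.sum_congr rfl fun e _ => keyc_constr w e _

private theorem keyc_pi_in {d : ℕ} (P : MvPolynomial (Fin m) K)
    (h : ∀ e ∈ P.support, d ∣ tdg e) : keyc_pi K m d P = P := by
  classical
  unfold keyc_pi
  rw [keyc_constr_sum]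
  conv_rhs => rw [as_sum P]
  refine Finset.sum_congr rfl fun e he => ?_
  rw [if_pos (h e he), smul_monomial, smul_eq_mul, mul_one]

private theorem keyc_pi_out {d : ℕ} (P : MvPolynomial (Fin m) K)
    (h : ∀ e ∈ P.support, ¬ d ∣ tdg e) : keyc_pi K m d P = 0 := by
  classical
  unfold keyc_pi
  rw [keyc_constr_sum]
  refine Finset.sum_eq_zero fun e he => ?_
  rw [if_neg (h e he), smul_zero]

/-- The functional on the polynomials defined by `C`. -/
private noncomputable def keyc_c (d : ℕ) (C : ℕ → MvPolynomial (Fin m) K →ₗ[K] K) :
    MvPolynomial (Fin m) K →ₗ[K] K :=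
  open Classical in
  (basisMonomials (Fin m) K).constr K
    fun e => if d ∣ tdg e then (-1) ^ (tdg e / d) * C (tdg e / d) (monomial e 1) else 0

private theorem keyc_c_out {d : ℕ} (C : ℕ → MvPolynomial (Fin m) K →ₗ[K] K)
    (P : MvPolynomial (Fin m) K) (h : ∀ e ∈ P.support, ¬ d ∣ tdg e) :
    keyc_c d C P = 0 := by
  classical
  unfold keyc_c
  rw [keyc_constr_sum]
  refine Finset.sum_eq_zero fun e he => ?_
  rw [if_neg (h e he), smul_zero]

private theorem keyc_c_in {d : ℕ} (hd : 1 ≤ d) (C : ℕ → MvPolynomial (Fin m) K →ₗ[K] K) (k : ℕ)
    (P : MvPolynomial (Fin m) K) (h : ∀ e ∈ P.support, tdg e = k * d) :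
    keyc_c d C P = (-1) ^ k * C k P := by
  classical
  unfold keyc_c
  rw [keyc_constr_sum]
  conv_rhs => rw [as_sum P]
  rw [map_sum, Finset.mul_sum]
  refine Finset.sum_congr rfl fun e he => ?_
  have h1 := h e he
  have h2 : tdg e / d = k := by
    rw [h1]
    exact Nat.mul_div_cancel k (by omega)
  rw [if_pos ⟨k, by rw [h1, mul_comm]⟩, h2]
  have h3 : (monomial e (coeff e P) : MvPolynomial (Fin m) K) = coeff e P • monomial e 1 := by
    rw [smul_monomial, smul_eq_mul, mul_one]
  rw [h3, map_smul, smul_eq_mul, smul_eq_mul]
  ring

end

theorem exists_cfun {A₀ L : Type u} [CommRing A₀] [Field L] (ι : A₀ →+* L) {N d : ℕ}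
    (hN : 2 ≤ N) (hd : 1 ≤ d) {F : MvPolynomial (Fin N) A₀} (hF : F.IsHomogeneous d) {V : Type}
    [Fintype V] [DecidableEq V] (C : V → ℕ → MvPolynomial (Fin N) L →ₗ[L] L)
    (hex : ∀ v k, 1 ≤ k → ∀ i Q, C v (k + 1) (Q * pderiv i (F.map ι)) = C v k (pderiv i Q))
    (hind : ∀ lam : V → L, (∀ (k : ℕ), 1 ≤ k → ∀ e : Fin N →₀ ℕ, tdg e = k * d →
      ∑ v, lam v * C v k (monomial e 1) = 0) → lam = 0) :
    ∃ c : V → MvPolynomial (Fin N) L →ₗ[L] L,
      (∀ v i Q, c v (dl (F.map ι) i Q) = 0) ∧
      (∀ v (e : Fin N →₀ ℕ), ¬ d ∣ dg e + N → c v (monomial e 1) = 0) ∧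
      (∀ v k (e : Fin N →₀ ℕ), 1 ≤ k → tdg e = k * d →
        c v (monomial e 1) = (-1) ^ k * C v k (monomial e 1)) ∧
      (∀ lam : V → L, (∀ x, ∑ v, lam v * c v x = 0) → lam = 0) ∧
      ∀ (D : Derivation ℤ A₀ A₀) (Δ : Derivation ℤ L L), (∀ x, Δ (ι x) = ι (D x)) →
        ∀ ν : Matrix V V L,
        (∀ (v : V) (k : ℕ), 1 ≤ k → ∀ e : Fin N →₀ ℕ, tdg e = k * d →
          Δ (C v k (monomial e 1)) = -C v (k + 1) ((cder D F).map ι * monomial e 1) +
            ∑ v', ν v v' * C v' k (monomial e 1)) →
        ∀ v (P : MvPolynomial (Fin N) A₀), Δ (c v (P.map ι)) =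
          c v ((nb D F P).map ι) + ∑ v', ν v v' * c v' (P.map ι) := by
  classical
  have htm : ∀ e : Fin N →₀ ℕ, N ≤ tdg e := fun e => by rw [keyc_tdg]; omega
  have hFm : (F.map ι).IsHomogeneous d := hF.map ι
  have hmon : ∀ v k (e : Fin N →₀ ℕ), tdg e = k * d →
      keyc_c d (C v) (monomial e 1) = (-1) ^ k * C v k (monomial e 1) := by
    intro v k e he
    exact keyc_c_in hd (C v) k _ (fun e' he' => by
      have h1 := support_monomial_subset he'
      rw [Finset.mem_singleton] at h1
      rw [h1, he])
  have hout : ∀ v (e : Fin N →₀ ℕ) (a : L), ¬ d ∣ tdg e → keyc_c d (C v) (monomial e a) = 0 := by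
    intro v e a he
    refine keyc_c_out (C v) _ fun e' he' => ?_
    have h1 := support_monomial_subset he'
    rw [Finset.mem_singleton] at h1
    rw [h1]
    exact he
  have hmona : ∀ v (e : Fin N →₀ ℕ) (a : L),
      keyc_c d (C v) (monomial e a) = a * keyc_c d (C v) (monomial e 1) := by
    intro v e a
    have e1 : (monomial e a : MvPolynomial (Fin N) L) = a • monomial e 1 := by
      rw [smul_monomial, smul_eq_mul, mul_one]
    rw [e1, map_smul, smul_eq_mul]
  refine ⟨fun v => keyc_c d (C v), ?_, ?_, ?_, ?_, ?_⟩
  · -- the relations
    intro v i Q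
    change keyc_c d (C v) (dl (F.map ι) i Q) = 0
    induction Q using MvPolynomial.induction_on' with
    | monomial u a =>
      unfold dl
      rw [map_add]
      have hu := htm u
      by_cases hk : d ∣ tdg u - 1
      · obtain ⟨k, hk⟩ := hk
        have hk' : tdg u = k * d + 1 := by
          rw [mul_comm, ← hk]
          omega
        have hk1 : 1 ≤ k := by
          rcases Nat.eq_zero_or_pos k with h0 | h0
          · rw [h0, zero_mul] at hk'
            omega
          · exact h0
        rw [keyc_c_in hd (C v) k _ (fun e he => by
            have := keyc_pd i u a he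
            omega),
          keyc_c_in hd (C v) (k + 1) _ (fun e he => by
            have := keyc_dl_supp hFm i u a he
            rw [add_mul, one_mul]
            omega)]
        have e1 : pderiv i (F.map ι) * monomial u a = monomial u a * pderiv i (F.map ι) :=
          mul_comm _ _
        rw [e1, hex v k hk1]
        ring
      · rw [keyc_c_out, keyc_c_out, add_zero]
        · intro e he hdiv
          have := keyc_dl_supp hFm i u a he
          apply hk
          have h2 : tdg u - 1 = tdg e - d := by omega
          rw [h2]
          exact Nat.dvd_sub hdiv dvd_rfl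
        · intro e he hdiv
          have := keyc_pd i u a he
          apply hk
          have h2 : tdg u - 1 = tdg e := by omega
          rw [h2]
          exact hdiv
    | add p q hp hq =>
      have e1 : dl (F.map ι) i (p + q) = dl (F.map ι) i p + dl (F.map ι) i q := by
        unfold dl
        rw [map_add]
        ring
      rw [e1, map_add, hp, hq, add_zero]
  · intro v e he
    rw [keyc_dg] at he
    exact hout v e 1 he
  · intro v k e _ he
    exact hmon v k e he
  · intro lam hlam
    refine hind lam fun k _ e he => ?_
    have h1 := hlam (monomial e 1)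
    have h2 : ∑ v, lam v * keyc_c d (C v) (monomial e 1) =
        (-1) ^ k * ∑ v, lam v * C v k (monomial e 1) := by
      rw [Finset.mul_sum]
      refine Finset.sum_congr rfl fun v _ => ?_
      rw [hmon v k e he]
      ring
    rw [h2] at h1
    rcases mul_eq_zero.1 h1 with h3 | h3
    · exact absurd h3 (pow_ne_zero _ (neg_ne_zero.2 one_ne_zero))
    · exact h3
  · -- the derivation rule
    intro D Δ hΔ ν hν v P
    change Δ (keyc_c d (C v) (P.map ι)) = keyc_c d (C v) ((nb D F P).map ι) +
      ∑ v', ν v v' * keyc_c d (C v') (P.map ι)
    induction P using MvPolynomial.induction_on' with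
    | monomial u a =>
      have hnb : nb D F (monomial u a) = monomial u (D a) + cder D F * monomial u a := by
        unfold nb
        rw [cder_monomial]
      have hprod : (cder D F * monomial u a).map ι = (cder D F).map ι * monomial u (ι a) := by
        rw [map_mul, map_monomial]
      rw [hnb, map_add, map_add, hprod, map_monomial, map_monomial]
      have hcd : ((cder D F).map ι).IsHomogeneous d := (keyc_cder hF D).map ι
      have hsup : ∀ b : L, ∀ e ∈ ((cder D F).map ι * monomial u b).support,
          tdg e = d + tdg u := fun b e he => keyc_hom_mul hcd u b he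
      by_cases hk : d ∣ tdg u
      · obtain ⟨k, hk⟩ := hk
        have hk' : tdg u = k * d := by rw [hk, mul_comm]
        have hk1 : 1 ≤ k := by
          rcases Nat.eq_zero_or_pos k with h0 | h0
          · rw [h0, zero_mul] at hk'
            have := htm u
            omega
          · exact h0
        have e1 : keyc_c d (C v) ((cder D F).map ι * monomial u (ι a)) =
            (-1) ^ (k + 1) * (ι a *
              C v (k + 1) ((cder D F).map ι * monomial u 1)) := by
          rw [keyc_c_in hd (C v) (k + 1) _ (fun e he => by
            rw [hsup _ e he, hk', add_mul, one_mul, add_comm])]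
          congr 1
          have e2 : (cder D F).map ι * monomial u (ι a) =
              ι a • ((cder D F).map ι * monomial u 1) := by
            have e3 : (monomial u (ι a) : MvPolynomial (Fin N) L) =
                ι a • monomial u 1 := by
              rw [smul_monomial, smul_eq_mul, mul_one]
            rw [e3, mul_smul_comm]
          rw [e2, map_smul, smul_eq_mul]
        rw [e1, hmona v u (ι a), hmona v u (ι (D a)), hmon v k u hk', Derivation.leibniz,
          Derivation.leibniz, hΔ, hν v k hk1 u hk']
        have e4 : Δ ((-1 : L) ^ k) = 0 := by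
          have : ((-1 : L) ^ k) = algebraMap ℤ L ((-1) ^ k) := by simp
          rw [this, Derivation.map_algebraMap]
        have e5 : ∑ v', ν v v' * keyc_c d (C v') (monomial u (ι a)) =
            ι a * ((-1) ^ k * ∑ v', ν v v' * C v' k (monomial u 1)) := by
          rw [Finset.mul_sum, Finset.mul_sum]
          refine Finset.sum_congr rfl fun v' _ => ?_
          rw [hmona v' u (ι a), hmon v' k u hk']
          ring
        rw [e4, e5]
        simp only [smul_eq_mul]
        ring
      · have e2 : keyc_c d (C v) ((cder D F).map ι * monomial u (ι a)) = 0 := by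
          refine keyc_c_out (C v) _ fun e he hdiv => ?_
          rw [hsup _ e he] at hdiv
          exact hk ((Nat.dvd_add_right dvd_rfl).1 hdiv)
        rw [hout v u _ hk, hout v u _ hk, e2, map_zero, add_zero, zero_add]
        symm
        refine Finset.sum_eq_zero fun v' _ => ?_
        rw [hout v' u _ hk, mul_zero]
    | add p q hp hq =>
      have e1 : nb D F (p + q) = nb D F p + nb D F q := by
        unfold nb
        rw [cder_add]
        ring
      rw [e1, map_add, map_add, map_add, map_add, map_add, hp, hq]
      have e2 : ∑ v', ν v v' * keyc_c d (C v') (p.map ι + q.map ι) =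
          ∑ v', ν v v' * keyc_c d (C v') (p.map ι) +
            ∑ v', ν v v' * keyc_c d (C v') (q.map ι) := by
        rw [← Finset.sum_add_distrib]
        refine Finset.sum_congr rfl fun v' _ => ?_
        rw [map_add, mul_add]
      rw [e2]
      ring

theorem indep_brP {K : Type u} [Field K] {N d : ℕ} {F : MvPolynomial (Fin N) K}
    (hF : F.IsHomogeneous d) {V : Type} [Fintype V] {g : V → Fin N →₀ ℕ} {lv : V → ℕ}
    (hl : ∀ v, tdg (g v) = lv v * d) (hI : IndepM F g) :
    LinearIndependent K fun v => brP d F (monomial (g v) 1) := by
  classical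
  have hpi : ∀ P ∈ relZ d F, keyc_pi K N d P ∈ RelM F := by
    intro P hP
    have hle : relZ d F ≤ (RelM F).comap (keyc_pi K N d) := by
      unfold relZ
      rw [Submodule.span_le]
      rintro P (⟨i, Q, rfl⟩ | ⟨e, he, rfl⟩)
      · change keyc_pi K N d (dl F i Q) ∈ RelM F
        induction Q using MvPolynomial.induction_on' with
        | monomial u a =>
          have hu : 1 ≤ tdg u := by
            rw [keyc_tdg]
            have := i.2
            omega
          have hmem : dl F i (monomial u a) ∈ RelM F := by
            refine Submodule.subset_span ⟨i, monomial u a, ?_⟩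
            unfold dl
            rw [mul_comm]
          by_cases hk : d ∣ tdg u - 1
          · have e1 : keyc_pi K N d (dl F i (monomial u a)) = dl F i (monomial u a) := by
              unfold dl
              rw [map_add, keyc_pi_in, keyc_pi_in]
              · intro e he
                have := keyc_dl_supp hF i u a he
                have h2 : tdg e = tdg u - 1 + d := by omega
                rw [h2]
                exact Nat.dvd_add hk dvd_rfl
              · intro e he
                have := keyc_pd i u a he
                have h2 : tdg e = tdg u - 1 := by omega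
                rw [h2]
                exact hk
            rw [e1]
            exact hmem
          · have e1 : keyc_pi K N d (dl F i (monomial u a)) = 0 := by
              unfold dl
              rw [map_add, keyc_pi_out, keyc_pi_out, add_zero]
              · intro e he hdiv
                have := keyc_dl_supp hF i u a he
                apply hk
                have h2 : tdg u - 1 = tdg e - d := by omega
                rw [h2]
                exact Nat.dvd_sub hdiv dvd_rfl
              · intro e he hdiv
                have := keyc_pd i u a he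
                apply hk
                have h2 : tdg u - 1 = tdg e := by omega
                rw [h2]
                exact hdiv
            rw [e1]
            exact Submodule.zero_mem _
        | add p q hp hq =>
          have e1 : dl F i (p + q) = dl F i p + dl F i q := by
            unfold dl
            rw [map_add]
            ring
          rw [e1, map_add]
          exact Submodule.add_mem _ hp hq
      · change keyc_pi K N d (monomial e 1) ∈ RelM F
        rw [keyc_pi_out]
        · exact Submodule.zero_mem _
        · intro e' he'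
          have h1 := support_monomial_subset he'
          rw [Finset.mem_singleton] at h1
          rw [h1, ← keyc_dg]
          exact he
    exact hle hP
  rw [Fintype.linearIndependent_iff]
  intro a ha
  have h1 : brP d F (∑ u, monomial (g u) (a u)) = 0 := by
    rw [map_sum, ← ha]
    refine Finset.sum_congr rfl fun u _ => ?_
    have e1 : (monomial (g u) (a u) : MvPolynomial (Fin N) K) = a u • monomial (g u) 1 := by
      rw [smul_monomial, smul_eq_mul, mul_one]
    rw [e1, map_smul]
  have h2 : (∑ u, monomial (g u) (a u) : MvPolynomial (Fin N) K) ∈ relZ d F :=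
    (Submodule.Quotient.mk_eq_zero _).1 h1
  have h3 := hpi _ h2
  rw [keyc_pi_in] at h3
  · exact fun u => congrFun (hI a h3) u
  · intro e he
    obtain ⟨u, -, hu⟩ := Finset.mem_biUnion.1 (support_sum he)
    have h5 := support_monomial_subset hu
    rw [Finset.mem_singleton] at h5
    rw [h5, hl u]
    exact Dvd.intro_left _ rfl

end MPadcBM
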