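import Pool.Agent.Lib.MP_adc574_ag_BM.MkA

/-!
# JOB MkB: the determinant on the images of the classes under isometries; common overfields

* `lam_zero`: `g` preserves `Mk`, `Lam P = 0`. Let `Lam' (h) = det (c' v (h u))` (`h u ∈ PKm d (F.map j)`), an alternating `k`-multilinear map with values in `L'` (for instance `(Matrix.detRowAlternating).restrictScalars k` composed with the `k`-linear map `h ↦ (c' v h)_v`: `AlternatingMap.compLinearMap`, transposed determinant). For a `k`-linear `φ : L' → k` let
  `ω = φ ∘ Lam'` (`φ.compAlternatingMap (..)`). `ω ∈ Mk`: if `∑ ι (a s) * Lam (P s) = 0` then `∑ j (a s) * φ (Lam' [P s]) = φ (∑ e (ι (a s)) * e (Lam (P s))) = 0` (`hc'`, `RingHom.map_det`, `φ (algebraMap k L' b * y) = b * φ y`). So `ω ∘ g ∈ Mk`, and the relation `1 * Lam P = 0` (`S = Unit`) gives `φ (Lam' (g [P])) = 0`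
  for all `k`-linear `φ : L' → k`, so `Lam' (g [P]) = 0` (functionals separate points of the `k`-vector space `L'`: `Module.forall_dual_apply_eq_zero_iff`).
* `exists_comp`: `A₀` is a domain (it embeds into `k`); `K₀ = FractionRing A₀`; `L`, `k` are `K₀`-algebras (`IsFractionRing.lift`); `L ⊗[K₀] k` is not trivial (`K₀` is a field, both are free); quotient by a maximal ideal (`Ideal.exists_maximal`).
* `exists_ext`: `c' v` is the `k`-linear map on `k[x]` with `x^e ↦ e (c v (x^e))` (`(basisMonomials ..).constr`), which equals `e (c v (P.map ι))` on `P.map j`, `P ∈ A₀[x]`; it kills `dl (F.map j) i Q` (by linearity `Q = x^e = (x^e).map j`, `dl (F.map j) i (x^e) = (dl F i (x^e)).map j`) and the monomials outside: `exists_lift`.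
* `exists_lam`: if the `c v` are independent over `L` there are monomials `P u = x^(e u)` with `Lam P ≠ 0`: the vectors `(c v (x^e))_v`, `e` arbitrary, span `L^r` (otherwise a nonzero `lam` kills them all, and by linearity `∑ lam v c v = 0`), choose `r` of them which form a basis (`exists_linearIndependent`..), so the determinant is not zero. `indep_ext`: if `∑ lam v c' v = 0` then
  `lam` kills the matrix `(e (c v (P u)))` whose determinant is `e (Lam P) ≠ 0`.
-/

set_option autoImplicit false

namespace MPadcBM

open MvPolynomial MPadcHM MPadcLZ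

universe u

variable {A₀ : Type u} [CommRing A₀] {k L : Type u} [Field k] [Field L]
  {j : A₀ →+* k} {ι : A₀ →+* L} {N r : ℕ} {d : ℕ} {F : MvPolynomial (Fin N) A₀}
  {c : Fin r → MvPolynomial (Fin N) L →ₗ[L] L}

/-- The determinant as an alternating map over the small field. -/
private noncomputable def mkb_alt {k L' M : Type u} [Field k] [Field L'] [Algebra k L']
    [AddCommGroup M] [Module k M] {r : ℕ} (c' : Fin r → M →ₗ[k] L') : M [⋀^Fin r]→ₗ[k] L' where
  toFun h := (Matrix.of fun v u => c' v (h u)).det
  map_update_add' := by
    intro q h u x y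
    have hq : q = instDecidableEqFin r := Subsingleton.elim _ _
    subst hq
    have e1 : ∀ z, (Matrix.of fun v w => c' v (Function.update h u z w)) =
        (Matrix.of fun v w => c' v (h w)).updateCol u (fun v => c' v z) := by
      intro z
      ext v w
      rw [Matrix.of_apply, Matrix.updateCol_apply, Matrix.of_apply]
      by_cases hw : w = u
      · subst hw
        rw [Function.update_self, if_pos rfl]
      · rw [Function.update_of_ne hw, if_neg hw]
    have e2 : (fun v => c' v (x + y)) = (fun v => c' v x) + (fun v => c' v y) := by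
      funext v
      rw [Pi.add_apply, map_add]
    rw [e1, e1, e1, e2, Matrix.det_updateCol_add]
  map_update_smul' := by
    intro q h u b x
    have hq : q = instDecidableEqFin r := Subsingleton.elim _ _
    subst hq
    have e1 : ∀ z, (Matrix.of fun v w => c' v (Function.update h u z w)) =
        (Matrix.of fun v w => c' v (h w)).updateCol u (fun v => c' v z) := by
      intro z
      ext v w
      rw [Matrix.of_apply, Matrix.updateCol_apply, Matrix.of_apply]
      by_cases hw : w = u
      · subst hw
        rw [Function.update_self, if_pos rfl]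
      · rw [Function.update_of_ne hw, if_neg hw]
    have e2 : (fun v => c' v (b • x)) = (algebraMap k L' b) • (fun v => c' v x) := by
      funext v
      rw [Pi.smul_apply, map_smul, Algebra.smul_def, smul_eq_mul]
    rw [e1, e1, e2, Matrix.det_updateCol_smul, Algebra.smul_def]
  map_eq_zero_of_eq' := by
    intro h a b hab hne
    refine Matrix.det_zero_of_column_eq hne fun v => ?_
    rw [Matrix.of_apply, Matrix.of_apply, hab]

private theorem mkb_alt_apply {k L' M : Type u} [Field k] [Field L'] [Algebra k L']
    [AddCommGroup M] [Module k M] {r : ℕ} (c' : Fin r → M →ₗ[k] L') (h : Fin r → M) :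
    mkb_alt c' h = (Matrix.of fun v u => c' v (h u)).det := rfl

private theorem mkb_constr {K : Type*} [Field K] {m : ℕ} {L : Type*} [AddCommGroup L] [Module K L]
    (w : (Fin m →₀ ℕ) → L) (e : Fin m →₀ ℕ) (a : K) :
    (basisMonomials (Fin m) K).constr K w (monomial e a) = a • w e := by
  have h1 : (monomial e a : MvPolynomial (Fin m) K) =
      a • basisMonomials (Fin m) K e := by
    rw [coe_basisMonomials, smul_monomial, smul_eq_mul, mul_one]
  rw [h1, map_smul, Module.Basis.constr_basis]

theorem lam_zero {L' : Type u} [Field L'] [Algebra k L'] (e : L →+* L')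
    (he : ∀ a, e (ι a) = algebraMap k L' (j a)) (c' : Fin r → PKm d (F.map j) →ₗ[k] L')
    (hc' : ∀ v (P : MvPolynomial (Fin N) A₀), c' v (brP d (F.map j) (P.map j)) = e (c v (P.map ι)))
    (g : PKm d (F.map j) →ₗ[k] PKm d (F.map j))
    (hg : ∀ ω ∈ Mk j ι d F c, ω.compLinearMap g ∈ Mk j ι d F c)
    (P : Fin r → MvPolynomial (Fin N) A₀) (hP : Lam ι c P = 0) :
    (Matrix.of fun v u => c' v (g (brP d (F.map j) ((P u).map j)))).det = 0 := by
  have hΩ : ∀ φ : L' →ₗ[k] k, φ.compAlternatingMap (mkb_alt c') ∈ Mk j ι d F c := by
    intro φ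
    rw [mem_mk]
    intro S _ a Q hQ
    have h1 : ∀ s, j (a s) * (φ.compAlternatingMap (mkb_alt c'))
        (fun u => brP d (F.map j) ((Q s u).map j)) = φ (e (ι (a s) * Lam ι c (Q s))) := by
      intro s
      have h2 : mkb_alt c' (fun u => brP d (F.map j) ((Q s u).map j)) = e (Lam ι c (Q s)) := by
        rw [mkb_alt_apply]
        unfold Lam
        rw [RingHom.map_det]
        congr 1
        ext v u
        rw [Matrix.of_apply, hc', RingHom.mapMatrix_apply, Matrix.map_apply, Matrix.of_apply]
      rw [LinearMap.compAlternatingMap_apply, h2, map_mul, he, ← smul_eq_mul, ← map_smul,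
        Algebra.smul_def]
    rw [Finset.sum_congr rfl fun s _ => h1 s, ← map_sum, ← map_sum, hQ, map_zero, map_zero]
  have h1 : mkb_alt c' (fun u => g (brP d (F.map j) ((P u).map j))) = 0 := by
    rw [← Module.forall_dual_apply_eq_zero_iff k]
    intro φ
    have h2 := (mem_mk j ι d F c _).1 (hg _ (hΩ φ)) Unit (fun _ => 1) (fun _ => P) (by
      rw [Fintype.sum_unique, hP, mul_zero])
    rw [Fintype.sum_unique, map_one, one_mul] at h2
    exact h2
  exact h1

theorem exists_comp (hj : Function.Injective j) (hι : Function.Injective ι) :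
    ∃ (L' : Type u) (_ : Field L') (e : L →+* L') (e' : k →+* L'), ∀ a, e (ι a) = e' (j a) := by
  have hdom : IsDomain A₀ := hj.isDomain
  let q : FractionRing A₀ →+* k := IsFractionRing.lift hj
  let p : FractionRing A₀ →+* L := IsFractionRing.lift hι
  let _ : Algebra (FractionRing A₀) k := q.toAlgebra
  let _ : Algebra (FractionRing A₀) L := p.toAlgebra
  have hnt : Nontrivial (TensorProduct (FractionRing A₀) L k) :=
    (Algebra.TensorProduct.includeLeft_injective (R := FractionRing A₀) (S := FractionRing A₀)
      (A := L) (B := k) (algebraMap (FractionRing A₀) k).injective).nontrivial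
  obtain ⟨M, hM⟩ := Ideal.exists_maximal (TensorProduct (FractionRing A₀) L k)
  refine ⟨TensorProduct (FractionRing A₀) L k ⧸ M, Ideal.Quotient.field M,
    (Ideal.Quotient.mk M).comp
      (Algebra.TensorProduct.includeLeft (R := FractionRing A₀) (S := FractionRing A₀)
        (A := L) (B := k)).toRingHom,
    (Ideal.Quotient.mk M).comp
      (Algebra.TensorProduct.includeRight (R := FractionRing A₀) (A := L) (B := k)).toRingHom,
    fun a => ?_⟩
  have h1 : ι a = algebraMap (FractionRing A₀) L (algebraMap A₀ (FractionRing A₀) a) :=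
    (IsFractionRing.lift_algebraMap hι a).symm
  have h2 : j a = algebraMap (FractionRing A₀) k (algebraMap A₀ (FractionRing A₀) a) :=
    (IsFractionRing.lift_algebraMap hj a).symm
  rw [RingHom.comp_apply, RingHom.comp_apply, h1, h2]
  congr 1
  exact (AlgHom.commutes _ _).trans (AlgHom.commutes _ _).symm

theorem exists_ext {L' : Type u} [Field L'] [Algebra k L'] (e : L →+* L')
    (he : ∀ a, e (ι a) = algebraMap k L' (j a))
    (hcr : ∀ v i Q, c v (dl (F.map ι) i Q) = 0)
    (hco : ∀ v (e : Fin N →₀ ℕ), ¬ d ∣ dg e + N → c v (monomial e 1) = 0) :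
    ∃ c' : Fin r → PKm d (F.map j) →ₗ[k] L', ∀ v (P : MvPolynomial (Fin N) A₀),
      c' v (brP d (F.map j) (P.map j)) = e (c v (P.map ι)) := by
  have key : ∀ v (P : MvPolynomial (Fin N) A₀),
      (basisMonomials (Fin N) k).constr k (fun e' => e (c v (monomial e' 1))) (P.map j) =
        e (c v (P.map ι)) := by
    intro v P
    induction P using MvPolynomial.induction_on' with
    | monomial u a =>
      rw [map_monomial, map_monomial, mkb_constr, Algebra.smul_def, ← he, ← map_mul]
      congr 1
      rw [← smul_eq_mul, ← map_smul, smul_monomial, smul_eq_mul, mul_one]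
    | add p q hp hq =>
      rw [map_add, map_add, map_add, map_add, map_add, hp, hq]
  have hlift : ∀ v, ∃ c' : PKm d (F.map j) →ₗ[k] L', ∀ P, c' (brP d (F.map j) P) =
      (basisMonomials (Fin N) k).constr k (fun e' => e (c v (monomial e' 1))) P := by
    intro v
    refine exists_lift d (F.map j) _ (fun i Q => ?_) (fun e' he' => ?_)
    · induction Q using MvPolynomial.induction_on' with
      | monomial u b =>
        have e1 : dl (F.map j) i (monomial u b) =
            b • (dl F i (monomial u 1)).map j := by
          have e2 : (monomial u b : MvPolynomial (Fin N) k) = b • (monomial u (1 : A₀)).map j := by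
            rw [map_monomial, map_one, smul_monomial, smul_eq_mul, mul_one]
          unfold dl
          rw [e2, Derivation.map_smul, mul_smul_comm, ← smul_add, map_add, map_mul, pderiv_map,
            pderiv_map]
        rw [e1, map_smul, key]
        have e3 : (dl F i (monomial u 1)).map ι = dl (F.map ι) i (monomial u 1) := by
          unfold dl
          rw [map_add, map_mul, ← pderiv_map, ← pderiv_map, map_monomial, map_one]
        rw [e3, hcr, map_zero, smul_zero]
      | add p q hp hq =>
        have e1 : dl (F.map j) i (p + q) = dl (F.map j) i p + dl (F.map j) i q := by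
          unfold dl
          rw [map_add]
          ring
        rw [e1, map_add, hp, hq, add_zero]
    · rw [mkb_constr, hco v e' he', map_zero, smul_zero]
  choose c' hc' using hlift
  exact ⟨c', fun v P => by rw [hc', key]⟩

theorem exists_lam (A₀ : Type u) [CommRing A₀] (ι : A₀ →+* L)
    (c : Fin r → MvPolynomial (Fin N) L →ₗ[L] L)
    (hci : ∀ lam : Fin r → L, (∀ x, ∑ v, lam v * c v x = 0) → lam = 0) :
    ∃ P : Fin r → MvPolynomial (Fin N) A₀, Lam ι c P ≠ 0 := by
  classical
  set w : (Fin N →₀ ℕ) → Fin r → L := fun e v => c v (monomial e 1) with hw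
  have hspan : Submodule.span L (Set.range w) = ⊤ := by
    by_contra hne
    obtain ⟨f, hf, hle⟩ := Submodule.exists_le_ker_of_lt_top _ (lt_top_iff_ne_top.2 hne)
    apply hf
    have h1 : ∀ x : Fin r → L, f x = ∑ v, f (Pi.single v 1) * x v := by
      intro x
      conv_lhs => rw [pi_eq_sum_univ' x]
      rw [map_sum]
      refine Finset.sum_congr rfl fun v _ => ?_
      rw [map_smul, smul_eq_mul, mul_comm]
    have h3 : (fun v => f (Pi.single v 1)) = 0 := by
      refine hci _ fun x => ?_
      induction x using MvPolynomial.induction_on' with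
      | monomial u a =>
        have h4 : ∀ v, c v (monomial u a) = a * w u v := by
          intro v
          have h5 : (monomial u a : MvPolynomial (Fin N) L) = a • monomial u 1 := by
            rw [smul_monomial, smul_eq_mul, mul_one]
          rw [h5, map_smul, smul_eq_mul]
        have h6 : f (w u) = 0 := by
          have := hle (Submodule.subset_span ⟨u, rfl⟩)
          exact this
        rw [h1] at h6
        calc ∑ v, f (Pi.single v 1) * c v (monomial u a)
            = a * ∑ v, f (Pi.single v 1) * w u v := by
              rw [Finset.mul_sum]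
              refine Finset.sum_congr rfl fun v _ => ?_
              rw [h4]
              ring
          _ = 0 := by rw [h6, mul_zero]
      | add p q hp hq =>
        calc ∑ v, f (Pi.single v 1) * c v (p + q)
            = ∑ v, f (Pi.single v 1) * c v p + ∑ v, f (Pi.single v 1) * c v q := by
              rw [← Finset.sum_add_distrib]
              refine Finset.sum_congr rfl fun v _ => ?_
              rw [map_add, mul_add]
          _ = 0 := by rw [hp, hq, add_zero]
    refine LinearMap.ext fun x => ?_
    rw [h1, LinearMap.zero_apply]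
    refine Finset.sum_eq_zero fun v _ => ?_
    have := congrFun h3 v
    rw [Pi.zero_apply] at this
    rw [this, zero_mul]
  obtain ⟨κ, a, ha, hs, hli⟩ := exists_linearIndependent' L w
  have B : Module.Basis κ L (Fin r → L) := Module.Basis.mk hli (by rw [hs, hspan])
  have : Fintype κ := Module.Basis.fintypeIndexOfRankLtAleph0 B (by
    rw [rank_fun']
    exact Cardinal.natCast_lt_aleph0)
  have hcard : Fintype.card κ = Fintype.card (Fin r) := by
    rw [← Module.finrank_eq_card_basis B, Module.finrank_fintype_fun_eq_card]
  obtain ⟨q⟩ := Fintype.card_eq.1 hcard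
  refine ⟨fun u => monomial (a (q.symm u)) 1, ?_⟩
  unfold Lam
  have h1 : LinearIndependent L (Matrix.of fun u v => w (a (q.symm u)) v).row :=
    hli.comp q.symm q.symm.injective
  rw [Matrix.linearIndependent_rows_iff_isUnit, Matrix.isUnit_iff_isUnit_det] at h1
  have h2 : (Matrix.of fun v u => c v ((monomial (a (q.symm u)) (1 : A₀)).map ι)) =
      (Matrix.of fun u v => w (a (q.symm u)) v).transpose := by
    ext v u
    rw [Matrix.of_apply, Matrix.transpose_apply, Matrix.of_apply, map_monomial, map_one]
  rw [h2, Matrix.det_transpose]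
  exact h1.ne_zero

theorem indep_ext {L' : Type u} [Field L'] [Algebra k L'] (e : L →+* L')
    (c' : Fin r → PKm d (F.map j) →ₗ[k] L')
    (hc' : ∀ v (P : MvPolynomial (Fin N) A₀), c' v (brP d (F.map j) (P.map j)) = e (c v (P.map ι)))
    (hci : ∀ lam : Fin r → L, (∀ x, ∑ v, lam v * c v x = 0) → lam = 0) (lam : Fin r → L')
    (hlam : ∀ x, ∑ v, lam v * c' v x = 0) : lam = 0 := by
  obtain ⟨P, hP⟩ := exists_lam A₀ ι c hci
  have h1 : (Matrix.of fun v u => c' v (brP d (F.map j) ((P u).map j))).det =
      e (Lam ι c P) := by
    unfold Lam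
    rw [RingHom.map_det]
    congr 1
    ext v u
    rw [Matrix.of_apply, hc', RingHom.mapMatrix_apply, Matrix.map_apply, Matrix.of_apply]
  have h2 : (Matrix.of fun v u => c' v (brP d (F.map j) ((P u).map j))).det ≠ 0 := by
    rw [h1]
    exact (map_ne_zero e).2 hP
  refine Matrix.eq_zero_of_vecMul_eq_zero h2 ?_
  funext u
  rw [Matrix.vecMul, Pi.zero_apply, ← hlam (brP d (F.map j) ((P u).map j))]
  rfl

end MPadcBM
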