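import Pool.Agent.Lib.MP_adc574_ag_BM.LaB
import Pool.Agent.Lib.MP_adc574_ag_BM.MkB
import Pool.Agent.Lib.MP_adc574_ag_BM.KeyC

/-!
# KeyM: big monodromy implies that the determinants do not vanish

Assembly (helper90).
-/

set_option autoImplicit false

namespace MPadcBM

open MvPolynomial MPadcGM MPadcHM MPadcLZ MPadcBK

universe u

theorem hm_of_hom {R : Type*} [CommSemiring R] {N d : ℕ} {F : MvPolynomial (Fin N) R}
    (hF : F.IsHomogeneous d) : Hm d F := by
  intro e he
  have h := hF (mem_support_iff.1 he)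
  rw [Finsupp.weight_apply, Finsupp.sum_fintype _ _ (by simp)] at h
  simpa [dg] using h

theorem key_fin {A₀ k L : Type u} [CommRing A₀] [Field k] [CharZero k] [Field L]
    {j : A₀ →+* k} {ι : A₀ →+* L} (hj : Function.Injective j) (hι : Function.Injective ι)
    {N m d : ℕ} {F : MvPolynomial (Fin N) A₀} (hF : Hm d F)
    (hbig : HasBigMonodromy d (F.map j)) [Module.Finite k (PKm d (F.map j))]
    (D : Fin m → Derivation ℤ A₀ A₀) (Δ : Fin m → Derivation ℤ L L)
    (hΔ : ∀ l x, Δ l (ι x) = ι (D l x))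
    (hDk : ∀ D' : Derivation ℤ k k, ∃ a : Fin m → k, ∀ x, D' (j x) = ∑ l, a l * j (D l x))
    {r : ℕ} (c : Fin r → MvPolynomial (Fin N) L →ₗ[L] L)
    (hcD : ∀ l, ∃ ν : Matrix (Fin r) (Fin r) L, ∀ v (P : MvPolynomial (Fin N) A₀),
      Δ l (c v (P.map ι)) = c v ((nb (D l) F P).map ι) + ∑ v', ν v v' * c v' (P.map ι))
    (hcr : ∀ v i Q, c v (dl (F.map ι) i Q) = 0)
    (hco : ∀ v (e : Fin N →₀ ℕ), ¬ d ∣ dg e + N → c v (monomial e 1) = 0)
    (hci : ∀ lam : Fin r → L, (∀ x, ∑ v, lam v * c v x = 0) → lam = 0)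
    (P : Fin r → MvPolynomial (Fin N) A₀)
    (hP : LinearIndependent k fun u => brP d (F.map j) ((P u).map j))
    (hdim : Odd N ∨ 2 * r ≠ Module.finrank k (PKm d (F.map j))) : Lam ι c P ≠ 0 := by
  intro h0
  obtain ⟨B, hsym, hnd, hstab⟩ := hbig
  obtain ⟨L', _, e, e', hee⟩ := exists_comp hj hι
  let _ : Algebra k L' := e'.toAlgebra
  have hee' : ∀ a, e (ι a) = algebraMap k L' (j a) := hee
  obtain ⟨c', hc'⟩ := exists_ext (d := d) (F := F) (c := c) e hee' hcr hco
  obtain ⟨g, hg, hdet, hne⟩ := exists_isometry B hnd c' (indep_ext e c' hc' hci) N hsym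
    (fun u => brP d (F.map j) ((P u).map j)) hP hdim
  refine hne (lam_zero e hee' c' hc' g ?_ P h0)
  exact hstab r _ (mk_hor hF D Δ hΔ hDk hcD) g hg hdet

theorem key_big {A₀ k L : Type u} [CommRing A₀] [Field k] [CharZero k] [Field L]
    {j : A₀ →+* k} {ι : A₀ →+* L} (hj : Function.Injective j) (hι : Function.Injective ι)
    {N m d : ℕ} (hN : 2 ≤ N) (hd : 1 ≤ d) {F : MvPolynomial (Fin N) A₀} (hF : F.IsHomogeneous d)
    (hbig : HasBigMonodromy d (F.map j)) (hfin : Module.Finite k (PKm d (F.map j)))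
    (D : Fin m → Derivation ℤ A₀ A₀) (Δ : Fin m → Derivation ℤ L L)
    (hΔ : ∀ l x, Δ l (ι x) = ι (D l x))
    (hDk : ∀ D' : Derivation ℤ k k, ∃ a : Fin m → k, ∀ x, D' (j x) = ∑ l, a l * j (D l x))
    {V : Type} [Fintype V] [DecidableEq V] (C : V → ℕ → MvPolynomial (Fin N) L →ₗ[L] L)
    (hex : ∀ v k, 1 ≤ k → ∀ i Q, C v (k + 1) (Q * pderiv i (F.map ι)) = C v k (pderiv i Q))
    (hder : ∀ l, ∃ ν : Matrix V V L, ∀ (v : V) (k : ℕ), 1 ≤ k → ∀ e : Fin N →₀ ℕ,
      tdg e = k * d → Δ l (C v k (monomial e 1)) =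
        -C v (k + 1) ((cder (D l) F).map ι * monomial e 1) +
          ∑ v', ν v v' * C v' k (monomial e 1))
    (hind : ∀ lam : V → L, (∀ (k : ℕ), 1 ≤ k → ∀ e : Fin N →₀ ℕ, tdg e = k * d →
      ∑ v, lam v * C v k (monomial e 1) = 0) → lam = 0)
    {g : V → Fin N →₀ ℕ} {lv : V → ℕ} (h1 : ∀ v, 1 ≤ lv v) (hl : ∀ v, tdg (g v) = lv v * d)
    (hI : IndepM (F.map j) g)
    (hdim : Odd N ∨ 2 * Fintype.card V ≠ Module.finrank k (PKm d (F.map j))) :
    (Matrix.of fun v u : V => C v (lv u) (monomial (g u) 1)).det ≠ 0 := by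
  obtain ⟨c, hcr, hco, hcC, hci, hcder⟩ := exists_cfun ι hN hd hF C hex hind
  let q : Fin (Fintype.card V) ≃ V := (Fintype.equivFin V).symm
  have hmain := key_fin hj hι (hm_of_hom hF) hbig D Δ hΔ hDk (fun v => c (q v)) (by
      intro l
      obtain ⟨ν, hν⟩ := hder l
      refine ⟨Matrix.of fun v v' => ν (q v) (q v'), fun v P => ?_⟩
      rw [hcder (D l) (Δ l) (hΔ l) ν hν (q v) P]
      congr 1
      exact (Fintype.sum_equiv q _ _ fun v' => rfl).symm)
    (fun v => hcr (q v)) (fun v => hco (q v)) (by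
      intro lam hlam
      have h2 := hci (fun v => lam (q.symm v)) (fun x => by
        rw [← hlam x]
        exact (Fintype.sum_equiv q _ _ fun v' => by rw [Equiv.symm_apply_apply]).symm)
      funext v
      have h3 := congrFun h2 (q v)
      simpa using h3)
    (fun u => monomial (g (q u)) 1) (by
      have h2 := indep_brP (hF.map j) hl hI
      have h3 := h2.comp q q.injective
      have h4 : (fun u => brP d (F.map j) ((monomial (g (q u)) (1 : A₀)).map j)) =
          (fun v => brP d (F.map j) (monomial (g v) (1 : k))) ∘ q := by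
        funext u
        simp
      rw [h4]
      exact h3) hdim
  intro h0
  apply hmain
  unfold Lam
  have h2 : (Matrix.of fun (v u : Fin (Fintype.card V)) =>
      c (q v) ((monomial (g (q u)) (1 : A₀)).map ι)) =
      (Matrix.of fun v u : V => C v (lv u) (monomial (g u) 1)).submatrix q q *
        Matrix.diagonal fun u => (-1) ^ lv (q u) := by
    ext v u
    rw [Matrix.mul_diagonal, Matrix.of_apply, Matrix.submatrix_apply, Matrix.of_apply, map_monomial,
      map_one, hcC (q v) (lv (q u)) (g (q u)) (h1 _) (hl _), mul_comm]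
  rw [h2, Matrix.det_mul, Matrix.det_submatrix_equiv_self, h0, zero_mul]

end MPadcBM
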