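import Mathlib

/-!
# JOB LaA: rank one updates, transvections and reflections

`M = (c v (f u))_{v,u}`. For `w` and a scalar `s` the map `x ↦ x + s B(x, w) w` changes `M` by the rank one matrix `s (c v w)_v (B(f u, w))_u`.
* `rank_update`: `(M + x yᵀ) a = (y · a) x`, so `x` is in the range of `M + x yᵀ`, hence (`M b = (M + x yᵀ) b - (y · b) x`) the range of `M` also; `x` is not in the range of `M`, so the rank grows (`Matrix.rank` is the `finrank` of `range M.mulVecLin`; `Submodule.finrank_lt_finrank_of_lt`).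
* `exists_avoid`: a vector space is not the union of two proper subspaces (take `a ∉ S₁`, `b ∉ S₂`; one of `a`, `b`, `a + b` works).
* `exists_avoid_quad`: `w₀ ∉ S₁`, `w₀ ∉ S₂`; the vectors `w₀ + λ w₁`, `λ ∈ k`: at most one `λ` with `w₀ + λ w₁ ∈ S₁` (two such `λ` give `w₀ ∈ S₁`: if `w₁ ∈ S₁` there is none), the same for `S₂`, and at most two `λ` with `B(w₀ + λ w₁, w₀ + λ w₁) = 0` (polynomial of degree 2 with leading coefficient
  `B(w₁, w₁) ≠ 0`, `Polynomial` roots or: three different roots of `a + b λ + c λ²` force `c = 0`); `k` is infinite (`CharZero`): e.g. among `λ = 0, 1, 2, 3, 4` one works, or `Set.Finite` and `Set.Infinite`.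
* `exists_vec`: `det M = 0`: there is `a ≠ 0` with `M a = 0` (`Matrix.exists_mulVec_eq_zero_iff`). `S₁ = {w | (c v w)_v ∈ range M}` is a proper `k`-subspace: `range M ≠ ⊤`, so there is a nonzero `lam : Fin r → L'` which kills `range M` (dual of the quotient, or `Matrix.exists_vecMul_eq_zero_iff`: `lam ≠ 0`, `lam M = 0`); if `S₁ = ⊤`
  then `∑ lam v * c v w = 0` for all `w` and `hc` gives `lam = 0`. (So define `S₁ = {w | ∑ lam v * c v w = 0}` directly; `w ∉ S₁` implies `(c v w)_v ∉ range M` because `lam` kills the range.) `S₂ = {w | ∑ u, a u * B (f u) w = 0}`: if it is `⊤`, choose `u₀` with `a u₀ ≠ 0` and a `k`-linear `φ : L' → k` with `φ (a u₀) ≠ 0`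
  (`Module.exists_dual...`/`exists_dual_map_eq_bot`..: a nonzero vector of a vector space is not killed by some functional); then `B (∑ φ(a u) f u) w = 0` for all `w`, so `∑ φ(a u) f u = 0`, `φ (a u₀) = 0` by `hf`. Now `rank_update` with `x = s (c v w)_v`, `y = (B(f u, w))_u`.
* `det_trv`: `det (x ↦ x + μ(x) w) = 1 + μ(w)`: choose a basis, `Matrix.det_one_add_replicateCol_mul_replicateRow` (or any form of it in Mathlib).
* `exists_transv` (B alternating), `exists_refl` (B symmetric): induction on `r - rank M`. `g₀ = x + B(x,w) w` (alternating), resp. `g₀ = x - 2 B(x,w) / B(w,w) w`, is an isometry of determinant `1`, resp. `-1`; apply the induction hypothesis to `g₀ ∘ f` (independent: `g₀` is injective as an isometry of a nondegenerate form) and compose.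
  A matrix with rank `r` has `det ≠ 0`.
-/

set_option autoImplicit false

namespace MPadcBM

theorem rank_update {L : Type*} [Field L] {r : ℕ} (M : Matrix (Fin r) (Fin r) L)
    (x y a : Fin r → L) (hx : x ∉ LinearMap.range M.mulVecLin) (ha : M.mulVec a = 0)
    (hya : dotProduct y a ≠ 0) : M.rank + 1 ≤ (M + Matrix.vecMulVec x y).rank := by
  have hmv : ∀ b, (M + Matrix.vecMulVec x y).mulVec b = M.mulVec b + dotProduct y b • x := by
    intro b
    rw [Matrix.add_mulVec]
    congr 1
    ext i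
    simp only [Matrix.mulVec, Matrix.vecMulVec_apply, dotProduct, Pi.smul_apply, smul_eq_mul,
      Finset.sum_mul]
    exact Finset.sum_congr rfl fun j _ => by ring
  have hx' : x ∈ LinearMap.range (M + Matrix.vecMulVec x y).mulVecLin := by
    refine ⟨(dotProduct y a)⁻¹ • a, ?_⟩
    rw [Matrix.mulVecLin_apply, Matrix.mulVec_smul, hmv, ha, zero_add, smul_smul,
      inv_mul_cancel₀ hya, one_smul]
  have hle : LinearMap.range M.mulVecLin ≤
      LinearMap.range (M + Matrix.vecMulVec x y).mulVecLin := by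
    rintro _ ⟨b, rfl⟩
    have h1 : M.mulVecLin b = (M + Matrix.vecMulVec x y).mulVecLin b - dotProduct y b • x := by
      rw [Matrix.mulVecLin_apply, Matrix.mulVecLin_apply, hmv, add_sub_cancel_right]
    rw [h1]
    exact Submodule.sub_mem _ ⟨b, rfl⟩ (Submodule.smul_mem _ _ hx')
  have hlt : LinearMap.range M.mulVecLin <
      LinearMap.range (M + Matrix.vecMulVec x y).mulVecLin :=
    lt_of_le_of_ne hle fun h => hx (h ▸ hx')
  exact Nat.succ_le_of_lt (Submodule.finrank_lt_finrank_of_lt hlt)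

variable {k : Type*} [Field k] {H : Type*} [AddCommGroup H] [Module k H]

theorem exists_avoid (S₁ S₂ : Submodule k H) (h₁ : S₁ ≠ ⊤) (h₂ : S₂ ≠ ⊤) :
    ∃ w, w ∉ S₁ ∧ w ∉ S₂ := by
  obtain ⟨a, ha⟩ : ∃ a, a ∉ S₁ := by
    by_contra h
    push Not at h
    exact h₁ (Submodule.eq_top_iff'.2 h)
  obtain ⟨b, hb⟩ : ∃ b, b ∉ S₂ := by
    by_contra h
    push Not at h
    exact h₂ (Submodule.eq_top_iff'.2 h)
  by_cases ha2 : a ∈ S₂
  · by_cases hb1 : b ∈ S₁
    · refine ⟨a + b, fun h => ha ?_, fun h => hb ?_⟩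
      · have h3 := S₁.sub_mem h hb1
        rwa [add_sub_cancel_right] at h3
      · have h3 := S₂.sub_mem h ha2
        rwa [add_sub_cancel_left] at h3
    · exact ⟨b, hb1, hb⟩
  · exact ⟨a, ha, ha2⟩

theorem exists_avoid_quad [CharZero k] (B : H →ₗ[k] H →ₗ[k] k) (w₁ : H) (hw₁ : B w₁ w₁ ≠ 0)
    (S₁ S₂ : Submodule k H) (h₁ : S₁ ≠ ⊤) (h₂ : S₂ ≠ ⊤) :
    ∃ w, w ∉ S₁ ∧ w ∉ S₂ ∧ B w w ≠ 0 := by
  obtain ⟨w₀, h01, h02⟩ := exists_avoid S₁ S₂ h₁ h₂
  have hsub : ∀ S : Submodule k H, w₀ ∉ S → {l : k | w₀ + l • w₁ ∈ S}.Finite := by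
    intro S hS
    refine Set.Subsingleton.finite ?_
    intro l hl m hm
    by_contra hne
    have h1 : (l - m) • w₁ ∈ S := by
      have h2 := S.sub_mem hl hm
      have h3 : w₀ + l • w₁ - (w₀ + m • w₁) = (l - m) • w₁ := by
        rw [sub_smul]; abel
      rwa [h3] at h2
    have h2 : w₁ ∈ S := by
      have h3 := S.smul_mem (l - m)⁻¹ h1
      rwa [smul_smul, inv_mul_cancel₀ (sub_ne_zero.2 hne), one_smul] at h3
    apply hS
    have h4 := S.sub_mem hl (S.smul_mem l h2)
    rwa [add_sub_cancel_right] at h4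
  obtain ⟨P, hP⟩ : ∃ P : Polynomial k, P = Polynomial.C (B w₁ w₁) * Polynomial.X ^ 2 +
      Polynomial.C (B w₀ w₁ + B w₁ w₀) * Polynomial.X + Polynomial.C (B w₀ w₀) := ⟨_, rfl⟩
  have hP0 : P ≠ 0 := by
    intro h
    have h1 : P.coeff 2 = B w₁ w₁ := by
      rw [hP]
      simp [Polynomial.coeff_X, Polynomial.coeff_C]
    rw [h, Polynomial.coeff_zero] at h1
    exact hw₁ h1.symm
  have hfin3 : {l : k | B (w₀ + l • w₁) (w₀ + l • w₁) = 0}.Finite := by
    refine (Polynomial.finite_setOfPred_isRoot hP0).subset ?_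
    intro l hl
    have hl' : B (w₀ + l • w₁) (w₀ + l • w₁) = 0 := hl
    show P.eval l = 0
    rw [← hl', hP]
    simp only [Polynomial.eval_add, Polynomial.eval_mul, Polynomial.eval_C, Polynomial.eval_pow,
      Polynomial.eval_X, map_add, map_smul, LinearMap.add_apply, LinearMap.smul_apply,
      smul_eq_mul]
    ring
  have hinf : (Set.univ : Set k).Infinite := Set.infinite_univ
  obtain ⟨l, -, hl⟩ := hinf.exists_notMem_finite (((hsub S₁ h01).union (hsub S₂ h02)).union hfin3)
  refine ⟨w₀ + l • w₁, fun h => hl (Or.inl (Or.inl h)), fun h => hl (Or.inl (Or.inr h)),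
    fun h => hl (Or.inr h)⟩

variable {L' : Type*} [Field L'] [Algebra k L'] {r : ℕ} (B : H →ₗ[k] H →ₗ[k] k)
  (hnd : ∀ x, (∀ y, B x y = 0) → x = 0) (c : Fin r → H →ₗ[k] L')
  (hc : ∀ lam : Fin r → L', (∀ x, ∑ v, lam v * c v x = 0) → lam = 0)

/-- The matrix of the functionals on the vectors. -/
noncomputable def Mat (c : Fin r → H →ₗ[k] L') (f : Fin r → H) : Matrix (Fin r) (Fin r) L' :=
  Matrix.of fun v u => c v (f u)

include hnd hc in
private theorem laA_key (f : Fin r → H) (hf : LinearIndependent k f)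
    (hdet : (Mat c f).det = 0) :
    ∃ S₁ S₂ : Submodule k H, S₁ ≠ ⊤ ∧ S₂ ≠ ⊤ ∧ ∀ w, w ∉ S₁ → w ∉ S₂ → ∀ s : k, s ≠ 0 →
      (Mat c f).rank + 1 ≤ (Mat c fun u => f u + (s * B (f u) w) • w).rank := by
  obtain ⟨a, ha0, ha⟩ := Matrix.exists_mulVec_eq_zero_iff.2 hdet
  obtain ⟨lam, hlam0, hlam⟩ := Matrix.exists_vecMul_eq_zero_iff.2 hdet
  obtain ⟨P1, hP1⟩ : ∃ P1 : H →ₗ[k] L', ∀ w, P1 w = ∑ v, lam v * c v w :=
    ⟨∑ v, (LinearMap.mulLeft k (lam v)).comp (c v), fun w => by
      simp [LinearMap.sum_apply]⟩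
  obtain ⟨P2, hP2⟩ : ∃ P2 : H →ₗ[k] L', ∀ w, P2 w = ∑ u, (B (f u) w) • a u :=
    ⟨∑ u, (LinearMap.toSpanSingleton k L' (a u)).comp (B (f u)), fun w => by
      simp [LinearMap.sum_apply]⟩
  refine ⟨LinearMap.ker P1, LinearMap.ker P2, ?_, ?_, ?_⟩
  · intro h
    apply hlam0
    apply hc
    intro x
    rw [← hP1]
    exact LinearMap.mem_ker.1 (h ▸ Submodule.mem_top)
  · intro h
    obtain ⟨u₀, hu₀⟩ : ∃ u, a u ≠ 0 := by
      by_contra h3
      push Not at h3
      exact ha0 (funext h3)
    obtain ⟨ph, hph⟩ : ∃ ph : Module.Dual k L', ph (a u₀) ≠ 0 := by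
      by_contra h3
      push Not at h3
      exact hu₀ ((Module.forall_dual_apply_eq_zero_iff k (a u₀)).1 h3)
    have h4 : ∑ u, ph (a u) • f u = 0 := by
      apply hnd
      intro y
      have h5 : P2 y = 0 := LinearMap.mem_ker.1 (h ▸ Submodule.mem_top)
      rw [hP2] at h5
      have h6 := congrArg ph h5
      rw [map_sum, map_zero] at h6
      rw [map_sum, LinearMap.sum_apply, ← h6]
      refine Finset.sum_congr rfl fun u _ => ?_
      rw [map_smul, map_smul, LinearMap.smul_apply, smul_eq_mul, smul_eq_mul, mul_comm]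
    exact hph (Fintype.linearIndependent_iff.1 hf _ h4 u₀)
  · intro w hw1 hw2 s hs
    have hMat : (Mat c fun u => f u + (s * B (f u) w) • w) =
        Mat c f + Matrix.vecMulVec (fun v => c v w)
          (fun u => algebraMap k L' (s * B (f u) w)) := by
      ext v u
      simp only [Mat, Matrix.of_apply, Matrix.add_apply, Matrix.vecMulVec_apply, map_add,
        map_smul]
      rw [Algebra.smul_def, mul_comm (c v w)]
    rw [hMat]
    refine rank_update (Mat c f) _ _ a ?_ ha ?_
    · rintro ⟨b, hb⟩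
      apply hw1
      rw [LinearMap.mem_ker, hP1]
      have h3 : dotProduct lam ((Mat c f).mulVec b) = 0 := by
        rw [Matrix.dotProduct_mulVec, hlam, zero_dotProduct]
      rw [Matrix.mulVecLin_apply] at hb
      rw [hb] at h3
      exact h3
    · intro h
      apply hw2
      rw [LinearMap.mem_ker, hP2]
      have h3 : dotProduct (fun u => algebraMap k L' (s * B (f u) w)) a =
          s • ∑ u, (B (f u) w) • a u := by
        rw [Finset.smul_sum]
        refine Finset.sum_congr rfl fun u _ => ?_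
        rw [smul_smul, Algebra.smul_def]
      rw [h3] at h
      exact (smul_eq_zero.1 h).resolve_left hs

include hnd hc in
theorem exists_vec (f : Fin r → H) (hf : LinearIndependent k f) (hdet : (Mat c f).det = 0) :
    ∃ w, ∀ s : k, s ≠ 0 →
      (Mat c f).rank + 1 ≤ (Mat c fun u => f u + (s * B (f u) w) • w).rank := by
  obtain ⟨S₁, S₂, h1, h2, h3⟩ := laA_key B hnd c hc f hf hdet
  obtain ⟨w, hw1, hw2⟩ := exists_avoid S₁ S₂ h1 h2
  exact ⟨w, h3 w hw1 hw2⟩

include hnd hc in
theorem exists_vec_quad [CharZero k] (w₁ : H) (hw₁ : B w₁ w₁ ≠ 0) (f : Fin r → H)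
    (hf : LinearIndependent k f) (hdet : (Mat c f).det = 0) :
    ∃ w, B w w ≠ 0 ∧ ∀ s : k, s ≠ 0 →
      (Mat c f).rank + 1 ≤ (Mat c fun u => f u + (s * B (f u) w) • w).rank := by
  obtain ⟨S₁, S₂, h1, h2, h3⟩ := laA_key B hnd c hc f hf hdet
  obtain ⟨w, hwa, hwb, hwc⟩ := exists_avoid_quad B w₁ hw₁ S₁ S₂ h1 h2
  exact ⟨w, hwc, h3 w hwa hwb⟩

/-- `x ↦ x + s B(x, w) w`. -/
noncomputable def trv (B : H →ₗ[k] H →ₗ[k] k) (s : k) (w : H) : H →ₗ[k] H :=
  LinearMap.id + s • (LinearMap.toSpanSingleton k H w).comp (B.flip w)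

theorem trv_apply (s : k) (w x : H) : trv B s w x = x + (s * B x w) • w := by
  simp [trv, smul_smul]

theorem det_trv [Module.Finite k H] (s : k) (w : H) :
    LinearMap.det (trv B s w) = 1 + s * B w w := by
  have h : trv B s w = LinearMap.transvection (s • B.flip w) w := by
    ext x
    rw [trv_apply, LinearMap.transvection.apply]
    rfl
  rw [h, LinearMap.transvection.det]
  rfl

include hnd hc in
private theorem laA_ind (p : k → Prop) (h1p : p 1)
    (Q : H → k → Prop)
    (hQ : ∀ w s, Q w s → s ≠ 0 ∧ (∀ x y, B (trv B s w x) (trv B s w y) = B x y) ∧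
      ∀ t, p t → p (t * LinearMap.det (trv B s w)))
    (hex : ∀ f : Fin r → H, LinearIndependent k f → (Mat c f).det = 0 →
      ∃ w s, Q w s ∧ (Mat c f).rank + 1 ≤ (Mat c fun u => f u + (s * B (f u) w) • w).rank) :
    ∀ (d : ℕ) (f : Fin r → H), LinearIndependent k f → r - (Mat c f).rank ≤ d →
      ∃ g : H →ₗ[k] H, (∀ x y, B (g x) (g y) = B x y) ∧ p (LinearMap.det g) ∧
        (Mat c fun u => g (f u)).det ≠ 0 := by
  intro d
  induction d with
  | zero =>
    intro f hf hd
    by_cases hdet : (Mat c f).det = 0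
    · obtain ⟨w, s, _, h⟩ := hex f hf hdet
      have h3 := Matrix.rank_le_width (Mat c fun u => f u + (s * B (f u) w) • w)
      omega
    · refine ⟨LinearMap.id, fun x y => rfl, ?_, hdet⟩
      rw [LinearMap.det_id]; exact h1p
  | succ d ih =>
    intro f hf hd
    by_cases hdet : (Mat c f).det = 0
    · obtain ⟨w, s, hq, h⟩ := hex f hf hdet
      obtain ⟨hs, hiso, hdt⟩ := hQ w s hq
      have hker : LinearMap.ker (trv B s w) = ⊥ := by
        rw [LinearMap.ker_eq_bot']
        intro x hx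
        apply hnd
        intro y
        rw [← hiso, hx, map_zero, LinearMap.zero_apply]
      have hfun : (fun u => f u + (s * B (f u) w) • w) = fun u => trv B s w (f u) := by
        funext u
        rw [trv_apply]
      rw [hfun] at h
      have hf' : LinearIndependent k fun u => trv B s w (f u) := hf.map' (trv B s w) hker
      obtain ⟨g, hg1, hg2, hg3⟩ := ih (fun u => trv B s w (f u)) hf' (by omega)
      refine ⟨g.comp (trv B s w), ?_, ?_, hg3⟩
      · intro x y
        rw [LinearMap.comp_apply, LinearMap.comp_apply, hg1, hiso]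
      · rw [LinearMap.det_comp]
        exact hdt _ hg2
    · refine ⟨LinearMap.id, fun x y => rfl, ?_, hdet⟩
      rw [LinearMap.det_id]; exact h1p

include hnd hc in
theorem exists_transv [Module.Finite k H] (halt : ∀ x, B x x = 0) (f : Fin r → H)
    (hf : LinearIndependent k f) :
    ∃ g : H →ₗ[k] H, (∀ x y, B (g x) (g y) = B x y) ∧ LinearMap.det g = 1 ∧
      (Mat c fun u => g (f u)).det ≠ 0 := by
  have hanti : ∀ x y, B y x = - B x y := by
    intro x y
    have h := halt (x + y)
    rw [map_add, map_add, LinearMap.add_apply, LinearMap.add_apply, halt, halt] at h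
    linear_combination h
  refine laA_ind B hnd c hc (fun t => t = 1) rfl (fun _ s => s = 1) ?_ ?_ _ f hf le_rfl
  · rintro w s rfl
    refine ⟨one_ne_zero, ?_, ?_⟩
    · intro x y
      rw [trv_apply, trv_apply]
      simp only [map_add, map_smul, LinearMap.add_apply, LinearMap.smul_apply, smul_eq_mul,
        halt, hanti y w]
      ring
    · rintro t rfl
      rw [det_trv, halt]
      ring
  · intro f hf hdet
    obtain ⟨w, hw⟩ := exists_vec B hnd c hc f hf hdet
    exact ⟨w, 1, rfl, hw 1 one_ne_zero⟩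

include hnd hc in
theorem exists_refl [CharZero k] [Module.Finite k H] (hsym : ∀ x y, B y x = B x y)
    (w₁ : H) (hw₁ : B w₁ w₁ ≠ 0) (f : Fin r → H) (hf : LinearIndependent k f) :
    ∃ g : H →ₗ[k] H, (∀ x y, B (g x) (g y) = B x y) ∧
      (LinearMap.det g = 1 ∨ LinearMap.det g = -1) ∧ (Mat c fun u => g (f u)).det ≠ 0 := by
  refine laA_ind B hnd c hc (fun t => t = 1 ∨ t = -1) (Or.inl rfl)
    (fun w s => B w w ≠ 0 ∧ s = -2 / B w w) ?_ ?_ _ f hf le_rfl
  · rintro w s ⟨hw, rfl⟩
    have hs : -2 / B w w * B w w = -2 := div_mul_cancel₀ _ hw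
    refine ⟨div_ne_zero (by norm_num) hw, ?_, ?_⟩
    · intro x y
      rw [trv_apply, trv_apply]
      simp only [map_add, map_smul, LinearMap.add_apply, LinearMap.smul_apply, smul_eq_mul,
        hsym y w]
      linear_combination (-2 / B w w * B x w * B y w) * hs
    · intro t ht
      rw [det_trv, hs]
      rcases ht with rfl | rfl
      · right; ring
      · left; ring
  · intro f hf hdet
    obtain ⟨w, hw0, hw⟩ := exists_vec_quad B hnd c hc w₁ hw₁ f hf hdet
    exact ⟨w, _, ⟨hw0, rfl⟩, hw _ (div_ne_zero (by norm_num) hw0)⟩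

end MPadcBM
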