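import Pool.Agent.Lib.MP_adc574_ag_BM.LaA

/-!
# JOB LaB: isometries of determinant one

* `lagr`: if `B` is symmetric and nondegenerate, `f'` independent, `M = Mat c f'` invertible and `det (Mat c (R_w ∘ f')) = 0` for all reflections `R_w = trv B (-2 / B w w) w`, `B w w ≠ 0`, then `2 r = finrank H`. Proof: `Mat c (R_w ∘ f') = M + x yᵀ`, `x = -2 / B w w (c v w)_v`, `y = (B(f' u, w))_u`,
  `det (M + x yᵀ) = det M * (1 + y · M⁻¹ x)` (`Matrix.det_add_replicateCol_mul_replicateRow`-type), so `B(w,w) = 2 ∑ u, B(f' u, w) * (M⁻¹ (c v w)_v) u` in `L'` for all `w` with `B w w ≠ 0`. Both sides are quadratic in `w`: for any `w` and the fixed `w₁` with `B w₁ w₁ ≠ 0` consider `w + λ w₁`: both sides are polynomials of degree `≤ 2`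
  in `λ`, equal for all `λ` except at most two, `k` infinite, so equal coefficients, `λ = 0`. So the identity holds for all `w`. For `w = ∑ b u • f' u`: `M⁻¹ (c v w)_v = b` (mapped to `L'`), so the right hand side is `2 B(w, w)` and `B w w = 0`: the span `A'` of `f'` is isotropic for the quadratic form, so (char 0, symmetric) `B x y = 0` for all `x, y ∈ A'`.
  For `w` with `B(f' u, w) = 0` for all `u` the right hand side is `0`, so `B w w = 0`; so the orthogonal `A'^⊥ = {w | ∀ u, B (f' u) w = 0}` is isotropic also. `A' ≤ A'^⊥ ≤ A'^⊥⊥ = A'` and `finrank A' + finrank A'^⊥ = finrank H` (`LinearMap.BilinForm.finrank_orthogonal` or by hand: the map `H → (A' → k)` is surjective by nondegeneracy).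
* `exists_isometry`: `N` odd: `B x x = - B x x`, so `B` is alternating: `exists_transv`. `N` even: `H = 0`: then `r = 0` and `g = id` (`det` of the empty matrix is 1). Otherwise there is `w₁` with `B w₁ w₁ ≠ 0` (else `B` would be alternating and symmetric, so `0`); `exists_refl`; if the determinant of `g` is `-1` then by `lagr` for `f' = g ∘ f`
  there is `w` with `det (Mat c (R_w ∘ g ∘ f)) ≠ 0`, and `R_w ∘ g` is an isometry of determinant 1 (`det_trv`: `1 + (-2 / B w w) B w w = -1`).
-/

set_option autoImplicit false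

namespace MPadcBM

variable {k : Type*} [Field k] [CharZero k] {H : Type*} [AddCommGroup H] [Module k H]
  [Module.Finite k H] {L' : Type*} [Field L'] [Algebra k L'] {r : ℕ} (B : H →ₗ[k] H →ₗ[k] k)
  (hnd : ∀ x, (∀ y, B x y = 0) → x = 0) (c : Fin r → H →ₗ[k] L')
  (hc : ∀ lam : Fin r → L', (∀ x, ∑ v, lam v * c v x = 0) → lam = 0)

omit [CharZero k] in
private theorem laB_isotropic (hsym : ∀ x y, B y x = B x y) (K : Submodule k H)
    (hK : ∀ x ∈ K, ∀ y ∈ K, B x y = 0) (hnd : ∀ x, (∀ y, B x y = 0) → x = 0) :
    2 * Module.finrank k K ≤ Module.finrank k H := by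
  have hN : LinearMap.BilinForm.Nondegenerate (B : LinearMap.BilinForm k H) := by
    refine ⟨fun x hx => hnd x hx, fun x hx => hnd x fun y => ?_⟩
    rw [← hsym]; exact hx y
  have h1 := LinearMap.BilinForm.finrank_orthogonal hN K
  have h2 : K ≤ LinearMap.BilinForm.orthogonal (B : LinearMap.BilinForm k H) K := by
    intro x hx
    rw [LinearMap.BilinForm.mem_orthogonal_iff]
    intro y hy
    exact hK y hy x hx
  have h3 := Submodule.finrank_mono h2
  have h4 := Submodule.finrank_le K
  omega

omit [Module.Finite k H] in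
private theorem laB_polar (hsym : ∀ x y, B y x = B x y) (K : Submodule k H)
    (hK : ∀ x ∈ K, B x x = 0) : ∀ x ∈ K, ∀ y ∈ K, B x y = 0 := by
  intro x hx y hy
  have h1 := hK (x + y) (K.add_mem hx hy)
  have h2 := hK x hx
  have h3 := hK y hy
  have h4 := hsym x y
  simp only [map_add, LinearMap.add_apply] at h1
  rw [h2, h3, h4] at h1
  have h5 : (2 : k) * B x y = 0 := by linear_combination h1
  rcases mul_eq_zero.1 h5 with h | h
  · exact absurd h two_ne_zero
  · exact h

private theorem laB_det {L : Type*} [Field L] {r : ℕ} (M : Matrix (Fin r) (Fin r) L)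
    (hM : M.det ≠ 0) (x y : Fin r → L) (N : Matrix (Fin r) (Fin r) L)
    (hN : ∀ v u, N v u = M v u + x v * y u) (h : N.det = 0) :
    1 + ∑ u, y u * (M⁻¹.mulVec x) u = 0 := by
  obtain ⟨a, ha0, ha⟩ := Matrix.exists_mulVec_eq_zero_iff.2 h
  have hu : IsUnit M.det := isUnit_iff_ne_zero.2 hM
  have e1 : M.mulVec a = -(∑ u, y u * a u) • x := by
    funext v
    have := congrFun ha v
    simp only [Matrix.mulVec, dotProduct, hN, Pi.zero_apply] at this
    simp only [Matrix.mulVec, dotProduct, Pi.smul_apply, smul_eq_mul, neg_mul]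
    have e2 : ∑ u, (M v u + x v * y u) * a u
        = ∑ u, M v u * a u + x v * ∑ u, y u * a u := by
      rw [Finset.mul_sum, ← Finset.sum_add_distrib]
      refine Finset.sum_congr rfl fun u _ => ?_
      ring
    rw [e2] at this
    linear_combination this
  have e3 : a = -(∑ u, y u * a u) • M⁻¹.mulVec x := by
    have : M⁻¹.mulVec (M.mulVec a) = a := by
      rw [Matrix.mulVec_mulVec, Matrix.nonsing_inv_mul M hu, Matrix.one_mulVec]
    rw [← this]
    nth_rewrite 1 [e1]
    rw [Matrix.mulVec_smul, this]
  set s := ∑ u, y u * a u with hs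
  have hs0 : s ≠ 0 := by
    intro h0
    apply ha0
    rw [e3, h0]
    simp
  have e4 : s = -s * ∑ u, y u * (M⁻¹.mulVec x) u := by
    nth_rewrite 1 [hs]
    rw [Finset.mul_sum]
    refine Finset.sum_congr rfl fun u _ => ?_
    have := congrFun e3 u
    simp only [Pi.smul_apply, smul_eq_mul] at this
    rw [this]
    ring
  have e5 : s * (1 + ∑ u, y u * (M⁻¹.mulVec x) u) = 0 := by linear_combination e4
  exact (mul_eq_zero.1 e5).resolve_left hs0

include hnd in
theorem lagr (hsym : ∀ x y, B y x = B x y) (w₁ : H) (hw₁ : B w₁ w₁ ≠ 0) (f' : Fin r → H)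
    (hf : LinearIndependent k f') (hM : (Mat c f').det ≠ 0)
    (h : ∀ w, B w w ≠ 0 → (Mat c fun u => trv B (-2 / B w w) w (f' u)).det = 0) :
    2 * r = Module.finrank k H := by
  classical
  set M := Mat c f' with hMdef
  have hu : IsUnit M.det := isUnit_iff_ne_zero.2 hM
  let z : H →ₗ[k] (Fin r → L') :=
    ((Matrix.mulVecLin M⁻¹).restrictScalars k).comp (LinearMap.pi c)
  have hz : ∀ w, z w = M⁻¹.mulVec (fun v => c v w) := fun w => rfl
  -- the bilinear map
  let b : H → H → L' := fun w w' => algebraMap k L' (B w w') -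
    2 * ∑ u, algebraMap k L' (B (f' u) w) * z w' u
  have hb1 : ∀ w, B w w ≠ 0 → b w w = 0 := by
    intro w hw
    have h1 := laB_det M hM (fun v => algebraMap k L' (-2 / B w w) * c v w)
      (fun u => algebraMap k L' (B (f' u) w)) (Mat c fun u => trv B (-2 / B w w) w (f' u))
      (by
        intro v u
        simp only [hMdef, Mat, Matrix.of_apply, trv_apply, map_add, map_smul, Algebra.smul_def,
          map_mul]
        ring) (h w hw)
    have h2 : (M⁻¹.mulVec fun v => algebraMap k L' (-2 / B w w) * c v w)
        = algebraMap k L' (-2 / B w w) • z w := by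
      rw [hz, ← Matrix.mulVec_smul]
      rfl
    rw [h2] at h1
    simp only [Pi.smul_apply, smul_eq_mul] at h1
    have h3 : ∑ u, algebraMap k L' (B (f' u) w) * (algebraMap k L' (-2 / B w w) * z w u)
        = algebraMap k L' (-2 / B w w) * ∑ u, algebraMap k L' (B (f' u) w) * z w u := by
      rw [Finset.mul_sum]
      exact Finset.sum_congr rfl fun u _ => by ring
    rw [h3] at h1
    have hw' : algebraMap k L' (B w w) ≠ 0 := by
      rwa [Ne, map_eq_zero]
    have h4 : algebraMap k L' (B w w) * algebraMap k L' (-2 / B w w) = -2 := by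
      rw [← map_mul, mul_div_cancel₀ _ hw, map_neg, map_ofNat]
    change algebraMap k L' (B w w) - 2 * ∑ u, algebraMap k L' (B (f' u) w) * z w u = 0
    linear_combination algebraMap k L' (B w w) * h1 -
      (∑ u, algebraMap k L' (B (f' u) w) * z w u) * h4
  have hbadd : ∀ (w w' : H) (t : k), b (w + t • w') (w + t • w')
      = b w w + algebraMap k L' t * (b w w' + b w' w)
        + algebraMap k L' t * algebraMap k L' t * b w' w' := by
    intro w w' t
    simp only [b, map_add, map_smul, LinearMap.add_apply, LinearMap.smul_apply, smul_eq_mul,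
      Pi.add_apply, Pi.smul_apply, map_mul]
    simp only [Algebra.smul_def]
    have e : ∑ u, (algebraMap k L' (B (f' u) w) + algebraMap k L' t * algebraMap k L' (B (f' u) w'))
          * (z w u + algebraMap k L' t * z w' u)
        = ∑ u, algebraMap k L' (B (f' u) w) * z w u
          + algebraMap k L' t * (∑ u, algebraMap k L' (B (f' u) w) * z w' u
            + ∑ u, algebraMap k L' (B (f' u) w') * z w u)
          + algebraMap k L' t * algebraMap k L' t *
            ∑ u, algebraMap k L' (B (f' u) w') * z w' u := by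
      simp only [Finset.mul_sum, mul_add, ← Finset.sum_add_distrib]
      refine Finset.sum_congr rfl fun u _ => ?_
      ring
    rw [e]
    ring
  have hb0 : ∀ w, b w w = 0 := by
    intro w
    have key : ∀ t : k, t ≠ 0 → 2 * B w w₁ + t * B w₁ w₁ ≠ 0 → B w w = 0 →
        b w w + algebraMap k L' t * (b w w₁ + b w₁ w) = 0 := by
      intro t ht ht2 hww
      have h1 : B (w + t • w₁) (w + t • w₁) ≠ 0 := by
        have : B (w + t • w₁) (w + t • w₁) = t * (2 * B w w₁ + t * B w₁ w₁) := by
          simp only [map_add, map_smul, LinearMap.add_apply, LinearMap.smul_apply, smul_eq_mul,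
            hww, hsym w w₁]
          ring
        rw [this]
        exact mul_ne_zero ht ht2
      have h2 := hb1 _ h1
      rw [hbadd, hb1 w₁ hw₁] at h2
      linear_combination h2
    by_cases hww : B w w = 0
    swap
    · exact hb1 w hww
    have two : ∀ s t : k, s ≠ t → b w w + algebraMap k L' s * (b w w₁ + b w₁ w) = 0 →
        b w w + algebraMap k L' t * (b w w₁ + b w₁ w) = 0 → b w w = 0 := by
      intro s t hst h1 h2
      have h3 : algebraMap k L' (s - t) * (b w w₁ + b w₁ w) = 0 := by
        rw [map_sub]; linear_combination h1 - h2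
      have h4 : algebraMap k L' (s - t) ≠ 0 := by
        rw [Ne, map_eq_zero]; exact sub_ne_zero.2 hst
      have h5 := (mul_eq_zero.1 h3).resolve_left h4
      rw [h5] at h1
      simpa using h1
    by_cases h1 : 2 * B w w₁ + 1 * B w₁ w₁ = 0
    · have h2 : 2 * B w w₁ + 2 * B w₁ w₁ ≠ 0 := by
        intro h2; apply hw₁; linear_combination h2 - h1
      have h3 : 2 * B w w₁ + 3 * B w₁ w₁ ≠ 0 := by
        intro h3
        have : (2 : k) * B w₁ w₁ = 0 := by linear_combination h3 - h1
        rcases mul_eq_zero.1 this with h | h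
        · exact two_ne_zero h
        · exact hw₁ h
      exact two 2 3 (by norm_num) (key 2 two_ne_zero h2 hww) (key 3 three_ne_zero h3 hww)
    · by_cases h2 : 2 * B w w₁ + 2 * B w₁ w₁ = 0
      · have h3 : 2 * B w w₁ + 3 * B w₁ w₁ ≠ 0 := by
          intro h3; apply hw₁; linear_combination h3 - h2
        exact two 1 3 (by norm_num) (key 1 one_ne_zero h1 hww) (key 3 three_ne_zero h3 hww)
      · exact two 1 2 (by norm_num) (key 1 one_ne_zero h1 hww) (key 2 two_ne_zero h2 hww)
  have hbw : ∀ w, algebraMap k L' (B w w) = 2 * ∑ u, algebraMap k L' (B (f' u) w) * z w u := by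
    intro w
    exact sub_eq_zero.1 (hb0 w)
  -- the span
  set A := Submodule.span k (Set.range f') with hA
  have hA1 : ∀ x ∈ A, B x x = 0 := by
    intro x hx
    obtain ⟨a, rfl⟩ := (Submodule.mem_span_range_iff_exists_fun k).1 hx
    have h1 : z (∑ u, a u • f' u) = fun u => algebraMap k L' (a u) := by
      rw [hz]
      have : (fun v => c v (∑ u, a u • f' u)) = M.mulVec (fun u => algebraMap k L' (a u)) := by
        funext v
        simp only [map_sum, map_smul, Matrix.mulVec, dotProduct, hMdef, Mat, Matrix.of_apply,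
          Algebra.smul_def]
        exact Finset.sum_congr rfl fun u _ => mul_comm _ _
      rw [this, Matrix.mulVec_mulVec, Matrix.nonsing_inv_mul M hu, Matrix.one_mulVec]
    have h2 := hbw (∑ u, a u • f' u)
    rw [h1] at h2
    have h3 : ∑ u, algebraMap k L' (B (f' u) (∑ u, a u • f' u)) * algebraMap k L' (a u)
        = algebraMap k L' (B (∑ u, a u • f' u) (∑ u, a u • f' u)) := by
      set y := ∑ u, a u • f' u with hy
      have : B y y = ∑ u, B (f' u) y * a u := by
        nth_rewrite 1 [hy]
        simp only [map_sum, map_smul, LinearMap.sum_apply, LinearMap.smul_apply, smul_eq_mul]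
        exact Finset.sum_congr rfl fun u _ => mul_comm _ _
      rw [this, map_sum]
      exact Finset.sum_congr rfl fun u _ => (map_mul _ _ _).symm
    simp only at h2
    rw [h3] at h2
    have h4 : algebraMap k L' (B (∑ u, a u • f' u) (∑ u, a u • f' u)) = 0 := by
      linear_combination -h2
    exact (map_eq_zero _).1 h4
  have hA2 := laB_polar B hsym A hA1
  have hAr : Module.finrank k A = r := by
    rw [hA, finrank_span_eq_card hf, Fintype.card_fin]
  have hr1 := laB_isotropic B hsym A hA2 hnd
  have hN : LinearMap.BilinForm.Nondegenerate (B : LinearMap.BilinForm k H) := by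
    refine ⟨fun x hx => hnd x hx, fun x hx => hnd x fun y => ?_⟩
    rw [← hsym]; exact hx y
  set K := LinearMap.BilinForm.orthogonal (B : LinearMap.BilinForm k H) A with hK
  have hKr : Module.finrank k K = Module.finrank k H - Module.finrank k A :=
    LinearMap.BilinForm.finrank_orthogonal hN A
  have hK1 : ∀ x ∈ K, B x x = 0 := by
    intro x hx
    have h1 : ∀ u, B (f' u) x = 0 := fun u =>
      (LinearMap.BilinForm.mem_orthogonal_iff.1 hx) (f' u) (Submodule.subset_span ⟨u, rfl⟩)
    have h2 := hbw x
    simp only [h1, map_zero, zero_mul, Finset.sum_const_zero, mul_zero] at h2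
    exact (map_eq_zero _).1 h2
  have hr2 := laB_isotropic B hsym K (laB_polar B hsym K hK1) hnd
  have h4 := Submodule.finrank_le A
  omega

include hnd hc in
theorem exists_isometry (N : ℕ) (hsym : ∀ x y, B y x = (-1) ^ N * B x y) (f : Fin r → H)
    (hf : LinearIndependent k f) (hdim : Odd N ∨ 2 * r ≠ Module.finrank k H) :
    ∃ g : H →ₗ[k] H, (∀ x y, B (g x) (g y) = B x y) ∧ LinearMap.det g = 1 ∧
      (Mat c fun u => g (f u)).det ≠ 0 := by
  by_cases halt : ∀ x, B x x = 0
  · exact exists_transv B hnd c hc halt f hf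
  obtain ⟨w₁, hw₁⟩ := not_forall.1 halt
  have heven : Even N := by
    rcases Nat.even_or_odd N with h | h
    · exact h
    · exfalso
      have h1 := hsym w₁ w₁
      rw [h.neg_one_pow] at h1
      have h2 : (2 : k) * B w₁ w₁ = 0 := by linear_combination h1
      rcases mul_eq_zero.1 h2 with h | h
      · exact two_ne_zero h
      · exact hw₁ h
  have hs : ∀ x y, B y x = B x y := by
    intro x y
    rw [hsym x y, heven.neg_one_pow, one_mul]
  have hdim' : 2 * r ≠ Module.finrank k H := by
    rcases hdim with h | h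
    · exact absurd heven (Nat.not_even_iff_odd.2 h)
    · exact h
  obtain ⟨g, hg1, hg2, hg3⟩ := exists_refl B hnd c hc hs w₁ hw₁ f hf
  rcases hg2 with hg2 | hg2
  · exact ⟨g, hg1, hg2, hg3⟩
  have hinj : Function.Injective g := by
    rw [← LinearMap.ker_eq_bot, LinearMap.ker_eq_bot']
    intro x hx
    apply hnd
    intro y
    rw [← hg1, hx, map_zero, LinearMap.zero_apply]
  have hf' : LinearIndependent k fun u => g (f u) :=
    hf.map' g (LinearMap.ker_eq_bot.2 hinj)
  by_contra hcon
  apply hdim'
  apply lagr B hnd c hs w₁ hw₁ (fun u => g (f u)) hf' hg3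
  intro w hw
  by_contra hdet
  apply hcon
  refine ⟨(trv B (-2 / B w w) w).comp g, ?_, ?_, hdet⟩
  · intro x y
    simp only [LinearMap.comp_apply, trv_apply, map_add, map_smul, LinearMap.add_apply,
      LinearMap.smul_apply, smul_eq_mul]
    rw [← hg1 x y, hs (g y) w]
    field_simp
    ring
  · rw [LinearMap.det_comp, det_trv, hg2]
    field_simp
    ring

end MPadcBM
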