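import Pool.Agent.Lib.MP_adc574_ag_BM.Defs

/-!
# Big monodromy of a hypersurface: definitions

`F` is homogeneous of degree `d` in the variables `x_i`, `i : Fin N`, over the field `K`. The primitive cohomology
`H` of the hypersurface `F = 0` is the quotient of `K[x]` by `relZ d F`: by all `∂_i Q + (∂_i F) Q` and all
monomials `x ^ e` with `d ∤ |e| + N`. For a homogeneous `P` with `deg P + N = a d` the class of `P` is the class
of the residue of `P dx / F ^ a`, up to the factor `± (a - 1)!`. The Gauss-Manin connection is
`∇_D [P] = [D P + (D F) P]`. Alternating forms and endomorphisms of `H` are given by their values on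
polynomials.
-/

set_option autoImplicit false

namespace MPadcBM

open MvPolynomial MPadcHM MPadcLZ

universe u

section

variable {K : Type u} [Field K] {N : ℕ}

/-- The function `ω` of `r` polynomials is an alternating form of degree `r` on the cohomology. -/
def IsForm (d : ℕ) (F : MvPolynomial (Fin N) K) {r : ℕ} (ω : (Fin r → MvPolynomial (Fin N) K) → K) :
    Prop :=
  (∃ f : MvPolynomial (Fin N) K [⋀^Fin r]→ₗ[K] K, ∀ P, ω P = f P) ∧
    ∀ P, (∃ i, P i ∈ relZ d F) → ω P = 0

/-- The covariant derivative of the form `ω` in the direction `D`. -/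
noncomputable def covariantDerivative (F : MvPolynomial (Fin N) K) (D : Derivation ℤ K K) {r : ℕ}
    (ω : (Fin r → MvPolynomial (Fin N) K) → K) : (Fin r → MvPolynomial (Fin N) K) → K :=
  fun P => D (ω P) - ∑ i, ω (Function.update P i (nb D F (P i)))

/-- `W` is a horizontal space of alternating forms of degree `r` on the cohomology. -/
def IsHorizontalSpace (d : ℕ) (F : MvPolynomial (Fin N) K) {r : ℕ}
    (W : Submodule K ((Fin r → MvPolynomial (Fin N) K) → K)) : Prop :=
  ∀ ω ∈ W, IsForm d F ω ∧ ∀ D, covariantDerivative F D ω ∈ W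

/-- `g` induces an isometry of determinant 1 of the cohomology with the bilinear form `B`. -/
def IsSpecialIsometry (d : ℕ) (F : MvPolynomial (Fin N) K)
    (B : MvPolynomial (Fin N) K →ₗ[K] MvPolynomial (Fin N) K →ₗ[K] K)
    (g : MvPolynomial (Fin N) K →ₗ[K] MvPolynomial (Fin N) K) : Prop :=
  (∀ P Q, B (g P) (g Q) = B P Q) ∧
    ∃ h : relZ d F ≤ (relZ d F).comap g, LinearMap.det ((relZ d F).mapQ (relZ d F) g h) = 1

/-- Big monodromy: there is a nondegenerate bilinear form `B` on the cohomology, alternating for odd `N` and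
symmetric for even `N`, such that every horizontal space of alternating forms is stable under the isometries
of `B` of determinant 1. -/
def BigMonodromy (d : ℕ) (F : MvPolynomial (Fin N) K) : Prop :=
  ∃ B : MvPolynomial (Fin N) K →ₗ[K] MvPolynomial (Fin N) K →ₗ[K] K,
    (∀ P Q, B Q P = (-1) ^ N * B P Q) ∧ (∀ P, (∀ Q, B P Q = 0) ↔ P ∈ relZ d F) ∧
    ∀ g, IsSpecialIsometry d F B g →
      ∀ (r : ℕ) (W : Submodule K ((Fin r → MvPolynomial (Fin N) K) → K)),
        IsHorizontalSpace d F W → ∀ ω ∈ W, (fun P => ω fun i => g (P i)) ∈ W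

/-- A form on the cohomology. -/
private theorem lit_form {d : ℕ} {F : MvPolynomial (Fin N) K} {r : ℕ}
    {ω : (Fin r → MvPolynomial (Fin N) K) → K} (h : IsForm d F ω) :
    ∃ f : PKm d F [⋀^Fin r]→ₗ[K] K, ∀ P : Fin r → MvPolynomial (Fin N) K,
      f (fun i => brP d F (P i)) = ω P := by
  obtain ⟨⟨f, hf⟩, h0⟩ := h
  obtain ⟨s, hs⟩ := (brP d F).exists_rightInverse_of_surjective (LinearMap.range_eq_top.2
    (brP_surj d F))
  have hs' : ∀ x, brP d F (s x) = x := fun x => LinearMap.congr_fun hs x
  refine ⟨f.compLinearMap s, fun P => ?_⟩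
  rw [AlternatingMap.compLinearMap_apply]
  -- replace the arguments one by one
  have key : ∀ T : Finset (Fin r), f (fun i => if i ∈ T then s (brP d F (P i)) else P i) = ω P := by
    intro T
    induction T using Finset.induction_on with
    | empty =>
      rw [hf]
      congr 1
    | insert a T ha ih =>
      rw [← ih]
      have h1 : (fun i => if i ∈ insert a T then s (brP d F (P i)) else P i) =
          Function.update (fun i => if i ∈ T then s (brP d F (P i)) else P i) a
            (s (brP d F (P a))) := by
        funext i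
        by_cases hi : i = a
        · subst hi
          rw [Function.update_self, if_pos (Finset.mem_insert_self _ _)]
        · rw [Function.update_of_ne hi]
          simp only [Finset.mem_insert, hi, false_or]
      have h2 : (fun i => if i ∈ T then s (brP d F (P i)) else P i) =
          Function.update (fun i => if i ∈ T then s (brP d F (P i)) else P i) a (P a) := by
        funext i
        by_cases hi : i = a
        · subst hi
          rw [Function.update_self, if_neg ha]
        · rw [Function.update_of_ne hi]
      rw [h1]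
      conv_rhs => rw [h2]
      rw [← sub_eq_zero, ← AlternatingMap.map_update_sub, ← hf]
      apply h0
      refine ⟨a, ?_⟩
      rw [Function.update_self]
      have h3 : brP d F (s (brP d F (P a)) - P a) = 0 := by
        rw [map_sub, hs', sub_self]
      exact (Submodule.Quotient.mk_eq_zero _).1 h3
  have h1 := key Finset.univ
  simp only [Finset.mem_univ, if_true] at h1
  exact h1

/-- The form on polynomials. -/
private noncomputable def litT (d : ℕ) (F : MvPolynomial (Fin N) K) (r : ℕ) :
    (PKm d F [⋀^Fin r]→ₗ[K] K) →ₗ[K] ((Fin r → MvPolynomial (Fin N) K) → K) where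
  toFun f := fun P => f fun i => brP d F (P i)
  map_add' _ _ := rfl
  map_smul' _ _ := rfl

private theorem litT_apply (d : ℕ) (F : MvPolynomial (Fin N) K) (r : ℕ)
    (f : PKm d F [⋀^Fin r]→ₗ[K] K) (P : Fin r → MvPolynomial (Fin N) K) :
    litT d F r f P = f fun i => brP d F (P i) := rfl

private theorem litT_inj (d : ℕ) (F : MvPolynomial (Fin N) K) (r : ℕ) :
    Function.Injective (litT d F r) := by
  intro f g h
  ext v
  choose P hP using fun i => brP_surj d F (v i)
  have h1 := congrFun h P
  rw [litT_apply, litT_apply] at h1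
  have h2 : (fun i => brP d F (P i)) = v := funext hP
  rw [h2] at h1
  exact h1

private theorem litT_form (d : ℕ) (F : MvPolynomial (Fin N) K) (r : ℕ)
    (f : PKm d F [⋀^Fin r]→ₗ[K] K) : IsForm d F (litT d F r f) := by
  refine ⟨⟨f.compLinearMap (brP d F), fun P => rfl⟩, ?_⟩
  rintro P ⟨i, hi⟩
  rw [litT_apply]
  refine AlternatingMap.map_coord_zero f i ?_
  exact (Submodule.Quotient.mk_eq_zero _).2 hi

private theorem litT_cov {d : ℕ} {F : MvPolynomial (Fin N) K} {r : ℕ} (D : Derivation ℤ K K)
    (f f' : PKm d F [⋀^Fin r]→ₗ[K] K) :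
    litT d F r f' = covariantDerivative F D (litT d F r f) ↔ IsCov d F D f f' := by
  unfold IsCov covariantDerivative
  rw [funext_iff]
  refine forall_congr' fun P => ?_
  have h : ∀ i, (fun u => brP d F (Function.update P i (nb D F (P i)) u)) =
      Function.update (fun u => brP d F (P u)) i (brP d F (nb D F (P i))) := by
    intro i
    funext u
    by_cases hu : u = i
    · subst hu
      rw [Function.update_self, Function.update_self]
    · rw [Function.update_of_ne hu, Function.update_of_ne hu]
  simp only [litT_apply, h]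

theorem hasBig_of {d : ℕ} {F : MvPolynomial (Fin N) K} (h : BigMonodromy d F) :
    HasBigMonodromy d F := by
  obtain ⟨B, hsym, hrad, hst⟩ := h
  obtain ⟨s, hs⟩ := (brP d F).exists_rightInverse_of_surjective (LinearMap.range_eq_top.2
    (brP_surj d F))
  have hs' : ∀ x, brP d F (s x) = x := fun x => LinearMap.congr_fun hs x
  have hmem : ∀ P, s (brP d F P) - P ∈ relZ d F := by
    intro P
    have h3 : brP d F (s (brP d F P) - P) = 0 := by
      rw [map_sub, hs', sub_self]
    exact (Submodule.Quotient.mk_eq_zero _).1 h3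
  have hleft : ∀ P Q, B (s (brP d F P)) Q = B P Q := by
    intro P Q
    have h1 := (hrad _).2 (hmem P) Q
    rw [map_sub, LinearMap.sub_apply, sub_eq_zero] at h1
    exact h1
  have hright : ∀ P Q, B P (s (brP d F Q)) = B P Q := by
    intro P Q
    rw [hsym, hleft, hsym P Q, ← mul_assoc, ← pow_add, ← two_mul, pow_mul, neg_one_sq, one_pow,
      one_mul]
  have hB' : ∀ P Q, B.compl₁₂ s s (brP d F P) (brP d F Q) = B P Q := by
    intro P Q
    rw [LinearMap.compl₁₂_apply, hleft, hright]
  refine ⟨B.compl₁₂ s s, ?_, ?_, ?_⟩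
  · intro x y
    rw [LinearMap.compl₁₂_apply, LinearMap.compl₁₂_apply, hsym]
  · intro x hx
    obtain ⟨P, rfl⟩ := brP_surj d F x
    have h1 : ∀ Q, B P Q = 0 := by
      intro Q
      rw [← hB']
      exact hx _
    exact (Submodule.Quotient.mk_eq_zero _).2 ((hrad P).1 h1)
  · intro r W hW g hg hdet f hf
    let g' : MvPolynomial (Fin N) K →ₗ[K] MvPolynomial (Fin N) K := (s.comp g).comp (brP d F)
    have hg' : ∀ P, brP d F (g' P) = g (brP d F P) := fun P => hs' _
    have hle : relZ d F ≤ (relZ d F).comap g' := by
      intro P hP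
      have h1 : brP d F P = 0 := (Submodule.Quotient.mk_eq_zero _).2 hP
      have h2 : g' P = 0 := by
        show s (g (brP d F P)) = 0
        rw [h1, map_zero, map_zero]
      rw [Submodule.mem_comap, h2]
      exact Submodule.zero_mem _
    have hmq : (relZ d F).mapQ (relZ d F) g' hle = g := by
      apply LinearMap.ext
      intro x
      obtain ⟨P, rfl⟩ := brP_surj d F x
      exact hg' P
    have hiso : IsSpecialIsometry d F B g' := by
      refine ⟨fun P Q => ?_, hle, ?_⟩
      · rw [← hB', ← hB' P Q, hg', hg', hg]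
      · rw [hmq]
        exact hdet
    have hhor : IsHorizontalSpace d F (W.map (litT d F r)) := by
      rintro _ ⟨f, hf, rfl⟩
      refine ⟨litT_form d F r f, fun D => ?_⟩
      obtain ⟨f', hf', hcov⟩ := hW D f hf
      exact ⟨f', hf', (litT_cov D f f').2 hcov⟩
    obtain ⟨f', hf', h1⟩ := hst g' hiso r _ hhor _ (Submodule.mem_map_of_mem hf)
    have h2 : f' = f.compLinearMap g := by
      apply litT_inj d F r
      rw [h1]
      funext P
      rw [litT_apply, litT_apply, AlternatingMap.compLinearMap_apply]
      congr 1
      funext i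
      exact hg' (P i)
    rw [← h2]
    exact hf'

theorem big_of_hasBig {d : ℕ} {F : MvPolynomial (Fin N) K} (h : HasBigMonodromy d F) :
    BigMonodromy d F := by
  obtain ⟨B, hsym, hnd, hst⟩ := h
  have hB' : ∀ P Q, B.compl₁₂ (brP d F) (brP d F) P Q = B (brP d F P) (brP d F Q) := fun P Q => rfl
  refine ⟨B.compl₁₂ (brP d F) (brP d F), ?_, ?_, ?_⟩
  · intro P Q
    rw [hB', hB', hsym]
  · intro P
    constructor
    · intro hP
      refine (Submodule.Quotient.mk_eq_zero _).1 (hnd _ fun y => ?_)
      obtain ⟨Q, rfl⟩ := brP_surj d F y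
      exact hP Q
    · intro hP Q
      have h1 : brP d F P = 0 := (Submodule.Quotient.mk_eq_zero _).2 hP
      rw [hB', h1, map_zero, LinearMap.zero_apply]
  · rintro g ⟨hg, hle, hdet⟩ r W hW ω hω
    have hmq : ∀ P, (relZ d F).mapQ (relZ d F) g hle (brP d F P) = brP d F (g P) := fun P => rfl
    obtain ⟨f, hf⟩ := lit_form (hW ω hω).1
    have hfω : litT d F r f = ω := funext fun P => hf P
    have h1 := hst r (W.comap (litT d F r)) (fun D f hf => by
      obtain ⟨f', hf'⟩ := lit_form (hW _ ((hW _ hf).2 D)).1
      have h2 : litT d F r f' = covariantDerivative F D (litT d F r f) := funext fun P => hf' P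
      refine ⟨f', ?_, (litT_cov D f f').1 h2⟩
      rw [Submodule.mem_comap, h2]
      exact (hW _ hf).2 D) ((relZ d F).mapQ (relZ d F) g hle) (fun x y => by
        obtain ⟨P, rfl⟩ := brP_surj d F x
        obtain ⟨Q, rfl⟩ := brP_surj d F y
        rw [hmq, hmq]
        exact hg P Q) hdet f (by
        rw [Submodule.mem_comap, hfω]
        exact hω)
    rw [Submodule.mem_comap] at h1
    have h2 : (fun P : Fin r → MvPolynomial (Fin N) K => ω fun i => g (P i)) =
        litT d F r (f.compLinearMap ((relZ d F).mapQ (relZ d F) g hle)) := by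
      funext P
      rw [litT_apply, AlternatingMap.compLinearMap_apply, ← hf]
      rfl
    rw [h2]
    exact h1

end

end MPadcBM
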