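import Pool.Agent.Lib.MP_adc574_ag_BM.Cov

/-!
# JOB MkA: the horizontal space `Mk`

`A₀` a ring, `j : A₀ → k`, `ι : A₀ → L` homomorphisms to fields. `Lam ι c P = det (c v (P u))` for `P u ∈ A₀[x]`. `Mk` = the alternating forms `ω` on `PKm d (F.map j)` such that every relation `∑ s, ι (a s) * Lam (P s) = 0` (finite families, `a s ∈ A₀`) implies `∑ s, j (a s) * ω ([P s 1], …, [P s r]) = 0`
(it is a subspace: `zero_mem'` etc. are proved below).
* `lam_der`: Leibniz for the determinant: `Δ (det M) = ∑ u, det (M with column u replaced by Δ M)` (`Matrix.det_apply`, Leibniz for products; see the proof of `MPadcLZ.der_det`), and `Δ (c v (P u)) = c v (nb P u) + ∑ v', ν v v' c v' (P u)`; `det` is additive in the column, the second part is `∑ u, det (M with column u replaced by (ν M)_u)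
  = ∑ u ∑ v, (ν M) v u * adjugate M u v = trace (ν M adj M) = det M * tr ν` (or `MPadcLZ.der_det`: `Δ det M = ∑ v, ∑ u, adjugate M u v * Δ (M v u)` twice).
* `map_nb`: `nb D' (F.map j) (P.map j) = cder D' (P.map j) + cder D' (F.map j) * P.map j` and `cder D' (P.map j) = ∑ l, a l • (cder (D l) P).map j` (coefficientwise, `coeff_cder` in HM).
* `mk_hor`: let `ω ∈ Mk`, `D'` a derivation of `k`, `D' (j x) = ∑ l, a l * j (D l x)`; `ω'` from `exists_cov`. Let `∑ s, ι (b s) * Lam (P s) = 0`. For every `l` apply `Δ l`: `∑ s, (ι (D l (b s)) * Lam (P s) + ι (b s) * (∑ u, Lam (update (P s) u (nb (D l) F (P s u))) + tr ν_l * Lam (P s))) = 0`, and the last part is `tr ν_l * 0`. So the family indexed by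
  `S × Option (Fin r)` with coefficients `D l (b s)` (at `none`), `b s` (at `some u`) and tuples `P s`, `update (P s) u (nb (D l) F (P s u))` is a relation, so (`ω ∈ Mk`) `∑ s, (j (D l (b s)) * ω [P s] + j (b s) * ∑ u, ω [update ..]) = 0` (*_l). On the other hand `∑ s, j (b s) * ω' [P s] = ∑ s, j (b s) * D' (ω [P s]) - ∑ s, j (b s) ∑ u, ω (.., [nb D' (F.map j) (P s u)], ..)`
  with `[nb D' ..] = ∑ l, a l • [(nb (D l) F (P s u)).map j]` (`map_nb`, `brP` linear, `ω` linear in the variable `u`), and `∑ s, j (b s) * D' (ω [P s]) = D' (∑ s, j (b s) * ω [P s]) - ∑ s, D' (j (b s)) * ω [P s] = 0 - ∑ l, a l ∑ s, j (D l (b s)) * ω [P s]`. The sum is `- ∑ l, a l * (*_l) = 0`. (`Fintype.sum_prod_type`, `Fintype.sum_option`;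
  `Function.update` commutes with the composition `fun u => brP ((P u).map j)`: `Function.comp_update`-type.)
-/

set_option autoImplicit false

namespace MPadcBM

open MvPolynomial MPadcHM MPadcLZ

universe u

variable {A₀ : Type u} [CommRing A₀] {k L : Type u} [Field k] [Field L]
  (j : A₀ →+* k) (ι : A₀ →+* L) {N m r : ℕ} (d : ℕ) (F : MvPolynomial (Fin N) A₀)
  (c : Fin r → MvPolynomial (Fin N) L →ₗ[L] L)

/-- The determinant of the functionals on polynomials over `A₀`. -/
noncomputable def Lam (P : Fin r → MvPolynomial (Fin N) A₀) : L :=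
  (Matrix.of fun v u => c v ((P u).map ι)).det

/-- The forms which satisfy all relations of the determinants. -/
noncomputable def Mk : Submodule k (PKm d (F.map j) [⋀^Fin r]→ₗ[k] k) where
  carrier := {ω | ∀ (S : Type) [Fintype S] (a : S → A₀) (P : S → Fin r → MvPolynomial (Fin N) A₀),
    ∑ s, ι (a s) * Lam ι c (P s) = 0 →
      ∑ s, j (a s) * ω (fun u => brP d (F.map j) ((P s u).map j)) = 0}
  zero_mem' := by
    intro S _ a P _
    exact Finset.sum_eq_zero fun s _ => by rw [AlternatingMap.zero_apply, mul_zero]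
  add_mem' := by
    intro ω ω' hω hω' S _ a P h
    have h1 := hω S a P h
    have h2 := hω' S a P h
    have h3 : ∀ s, j (a s) * (ω + ω') (fun u => brP d (F.map j) ((P s u).map j)) =
        j (a s) * ω (fun u => brP d (F.map j) ((P s u).map j)) +
          j (a s) * ω' (fun u => brP d (F.map j) ((P s u).map j)) := fun s => by
      rw [AlternatingMap.add_apply, mul_add]
    rw [Finset.sum_congr rfl fun s _ => h3 s, Finset.sum_add_distrib, h1, h2, add_zero]
  smul_mem' := by
    intro b ω hω S _ a P h
    have h1 := hω S a P h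
    have h3 : ∀ s, j (a s) * (b • ω) (fun u => brP d (F.map j) ((P s u).map j)) =
        b * (j (a s) * ω (fun u => brP d (F.map j) ((P s u).map j))) := fun s => by
      rw [AlternatingMap.smul_apply, smul_eq_mul, mul_left_comm]
    rw [Finset.sum_congr rfl fun s _ => h3 s, ← Finset.mul_sum, h1, mul_zero]

theorem mem_mk (ω : PKm d (F.map j) [⋀^Fin r]→ₗ[k] k) : ω ∈ Mk j ι d F c ↔
    ∀ (S : Type) [Fintype S] (a : S → A₀) (P : S → Fin r → MvPolynomial (Fin N) A₀),
      ∑ s, ι (a s) * Lam ι c (P s) = 0 →
        ∑ s, j (a s) * ω (fun u => brP d (F.map j) ((P s u).map j)) = 0 := Iff.rfl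

variable {j ι d F c}

private theorem mka_prod {B : Type*} [CommRing B] {σ : Type*} [DecidableEq σ]
    (D : Derivation ℤ B B) (f : σ → B) (s : Finset σ) :
    D (∏ i ∈ s, f i) = ∑ u ∈ s, ∏ i ∈ s, (if i = u then D (f i) else f i) := by
  classical
  induction s using Finset.induction_on with
  | empty => simp
  | insert a s ha ih =>
    rw [Finset.prod_insert ha, Derivation.leibniz, Finset.sum_insert ha, ih, smul_eq_mul,
      smul_eq_mul, Finset.mul_sum, Finset.prod_insert ha, if_pos rfl, add_comm]
    congr 1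
    · rw [mul_comm]
      congr 1
      refine Finset.prod_congr rfl fun i hi => ?_
      rw [if_neg]
      rintro rfl
      exact ha hi
    · refine Finset.sum_congr rfl fun u hu => ?_
      rw [Finset.prod_insert ha, if_neg]
      rintro rfl
      exact ha hu

private theorem mka_det {B : Type*} [CommRing B] {r : ℕ} (D : Derivation ℤ B B)
    (M : Matrix (Fin r) (Fin r) B) :
    D M.det = ∑ u, (M.updateCol u fun v => D (M v u)).det := by
  classical
  have h1 : ∀ u, (M.updateCol u fun v => D (M v u)).det =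
      ∑ σ : Equiv.Perm (Fin r), Equiv.Perm.sign σ •
        ∏ i, (if i = u then D (M (σ i) i) else M (σ i) i) := by
    intro u
    rw [Matrix.det_apply]
    refine Finset.sum_congr rfl fun σ _ => ?_
    congr 1
    refine Finset.prod_congr rfl fun i _ => ?_
    rw [Matrix.updateCol_apply]
    by_cases hi : i = u
    · subst hi
      simp
    · rw [if_neg hi, if_neg hi]
  rw [Finset.sum_congr rfl fun u _ => h1 u, Finset.sum_comm, Matrix.det_apply, map_sum]
  refine Finset.sum_congr rfl fun σ _ => ?_
  rw [← Finset.smul_sum, ← mka_prod]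
  rcases Int.units_eq_one_or (Equiv.Perm.sign σ) with h | h
  · rw [h, one_smul, one_smul]
  · rw [h, Units.neg_smul, Units.neg_smul, one_smul, one_smul, map_neg]

private theorem mka_coeff {B : Type*} [CommRing B] {n : ℕ} (D : Derivation ℤ B B)
    (P : MvPolynomial (Fin n) B) (m : Fin n →₀ ℕ) : coeff m (cder D P) = D (coeff m P) := by
  classical
  unfold cder
  rw [coeff_sum]
  simp only [coeff_monomial]
  rw [Finset.sum_ite_eq' P.support m (fun e => D (coeff e P))]
  by_cases h : m ∈ P.support
  · rw [if_pos h]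
  · rw [if_neg h, notMem_support_iff.1 h, map_zero]

theorem lam_der (D : Derivation ℤ A₀ A₀) (Δ : Derivation ℤ L L)
    (ν : Matrix (Fin r) (Fin r) L)
    (hν : ∀ v (P : MvPolynomial (Fin N) A₀), Δ (c v (P.map ι)) =
      c v ((nb D F P).map ι) + ∑ v', ν v v' * c v' (P.map ι))
    (P : Fin r → MvPolynomial (Fin N) A₀) :
    Δ (Lam ι c P) = ∑ u, Lam ι c (Function.update P u (nb D F (P u))) +
      ν.trace * Lam ι c P := by
  classical
  obtain ⟨M, hM⟩ : ∃ M : Matrix (Fin r) (Fin r) L,
    M = Matrix.of fun v u => c v ((P u).map ι) := ⟨_, rfl⟩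
  have hMe : ∀ v u, M v u = c v ((P u).map ι) := fun v u => by rw [hM, Matrix.of_apply]
  have hL : Lam ι c P = M.det := by rw [hM]; rfl
  have hcol : ∀ u, (M.updateCol u fun v => Δ (M v u)).det =
      Lam ι c (Function.update P u (nb D F (P u))) + (M.adjugate * (ν * M)) u u := by
    intro u
    have h1 : (fun v => Δ (M v u)) =
        (fun v => c v ((nb D F (P u)).map ι)) + (ν * M).col u := by
      funext v
      rw [Pi.add_apply, hMe, hν]
      congr 1
      rw [Matrix.col_apply, Matrix.mul_apply]
      exact Finset.sum_congr rfl fun v' _ => by rw [hMe]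
    rw [h1, Matrix.det_updateCol_add]
    congr 1
    · unfold Lam
      congr 1
      ext v w
      rw [Matrix.updateCol_apply, Matrix.of_apply, Function.update_apply]
      by_cases hw : w = u
      · rw [if_pos hw, if_pos hw]
      · rw [if_neg hw, if_neg hw, hMe]
    · rw [← Matrix.cramer_apply, Matrix.cramer_eq_adjugate_mulVec, Matrix.mul_apply]
      rfl
  rw [hL, mka_det, Finset.sum_congr rfl fun u _ => hcol u, Finset.sum_add_distrib]
  congr 1
  have h2 : ∑ u, (M.adjugate * (ν * M)) u u = (M.adjugate * (ν * M)).trace := rfl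
  rw [h2, Matrix.trace_mul_comm, Matrix.mul_assoc, Matrix.mul_adjugate, Matrix.mul_smul,
    Matrix.mul_one, Matrix.trace_smul, smul_eq_mul, mul_comm]

theorem map_nb (D : Fin m → Derivation ℤ A₀ A₀) (D' : Derivation ℤ k k) (a : Fin m → k)
    (ha : ∀ x, D' (j x) = ∑ l, a l * j (D l x)) (P : MvPolynomial (Fin N) A₀) :
    nb D' (F.map j) (P.map j) = ∑ l, a l • (nb (D l) F P).map j := by
  have h : ∀ Q : MvPolynomial (Fin N) A₀,
      cder D' (Q.map j) = ∑ l, a l • (cder (D l) Q).map j := by
    intro Q
    ext e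
    rw [mka_coeff, coeff_map, ha, coeff_sum]
    refine Finset.sum_congr rfl fun l _ => ?_
    rw [coeff_smul, coeff_map, mka_coeff, smul_eq_mul]
  unfold nb
  rw [h, h, Finset.sum_mul, ← Finset.sum_add_distrib]
  refine Finset.sum_congr rfl fun l _ => ?_
  rw [smul_mul_assoc, ← smul_add, map_add, map_mul]

theorem mk_hor (hF : Hm d F) (D : Fin m → Derivation ℤ A₀ A₀) (Δ : Fin m → Derivation ℤ L L)
    (hΔ : ∀ l x, Δ l (ι x) = ι (D l x))
    (hDk : ∀ D' : Derivation ℤ k k, ∃ a : Fin m → k, ∀ x, D' (j x) = ∑ l, a l * j (D l x))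
    (hcD : ∀ l, ∃ ν : Matrix (Fin r) (Fin r) L, ∀ v (P : MvPolynomial (Fin N) A₀),
      Δ l (c v (P.map ι)) = c v ((nb (D l) F P).map ι) + ∑ v', ν v v' * c v' (P.map ι)) :
    IsHorizontal d (F.map j) (Mk j ι d F c) := by
  classical
  intro D' ω hω
  have hF' : Hm d (F.map j) := by
    intro e he
    refine hF e ?_
    rw [mem_support_iff, coeff_map] at he
    rw [mem_support_iff]
    intro h0
    rw [h0, map_zero] at he
    exact he rfl
  obtain ⟨a, ha⟩ := hDk D'
  obtain ⟨ω', hω'⟩ := exists_cov hF' D' ω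
  refine ⟨ω', ?_, hω'⟩
  rw [mem_mk] at hω ⊢
  intro S _ b P h
  have hE : ∀ l, ∑ s, (j (D l (b s)) * ω (fun u => brP d (F.map j) ((P s u).map j)) +
      ∑ u, j (b s) * ω (Function.update (fun u => brP d (F.map j) ((P s u).map j)) u
        (brP d (F.map j) ((nb (D l) F (P s u)).map j)))) = 0 := by
    intro l
    obtain ⟨ν, hν⟩ := hcD l
    have h1 : ∑ s, (ι (D l (b s)) * Lam ι c (P s) +
        ∑ u, ι (b s) * Lam ι c (Function.update (P s) u (nb (D l) F (P s u)))) = 0 := by
      have h2 : Δ l (∑ s, ι (b s) * Lam ι c (P s)) = 0 := by rw [h, map_zero]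
      rw [map_sum] at h2
      have h3 : ∀ s, Δ l (ι (b s) * Lam ι c (P s)) =
          (ι (D l (b s)) * Lam ι c (P s) +
            ∑ u, ι (b s) * Lam ι c (Function.update (P s) u (nb (D l) F (P s u)))) +
          ν.trace * (ι (b s) * Lam ι c (P s)) := by
        intro s
        rw [Derivation.leibniz, smul_eq_mul, smul_eq_mul, lam_der (D l) (Δ l) ν hν (P s), hΔ,
          ← Finset.mul_sum]
        ring
      rw [Finset.sum_congr rfl fun s _ => h3 s, Finset.sum_add_distrib, ← Finset.mul_sum, h,
        mul_zero, add_zero] at h2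
      exact h2
    have h4 := hω (S × Option (Fin r)) (fun x => x.2.elim (D l (b x.1)) fun _ => b x.1)
      (fun x => x.2.elim (P x.1) fun u => Function.update (P x.1) u (nb (D l) F (P x.1 u)))
      (by
        rw [Fintype.sum_prod_type]
        rw [← h1]
        refine Finset.sum_congr rfl fun s _ => ?_
        rw [Fintype.sum_option]
        rfl)
    rw [Fintype.sum_prod_type] at h4
    rw [← h4]
    refine Finset.sum_congr rfl fun s _ => ?_
    rw [Fintype.sum_option]
    refine congrArg₂ (· + ·) rfl ?_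
    refine Finset.sum_congr rfl fun u _ => ?_
    show j (b s) * _ = j (b s) * ω (fun w => brP d (F.map j)
      ((Function.update (P s) u (nb (D l) F (P s u)) w).map j))
    congr 2
    funext w
    rw [Function.update_apply, Function.update_apply]
    by_cases hw : w = u
    · rw [if_pos hw, if_pos hw]
    · rw [if_neg hw, if_neg hw]
  have hD0 : ∑ s, j (b s) * D' (ω fun u => brP d (F.map j) ((P s u).map j)) =
      -∑ s, ω (fun u => brP d (F.map j) ((P s u).map j)) * ∑ l, a l * j (D l (b s)) := by
    have h1 := hω S b P h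
    have h2 : D' (∑ s, j (b s) * ω (fun u => brP d (F.map j) ((P s u).map j))) = 0 := by
      rw [h1, map_zero]
    rw [map_sum] at h2
    have h3 : ∀ s, D' (j (b s) * ω (fun u => brP d (F.map j) ((P s u).map j))) =
        j (b s) * D' (ω fun u => brP d (F.map j) ((P s u).map j)) +
          ω (fun u => brP d (F.map j) ((P s u).map j)) * ∑ l, a l * j (D l (b s)) := by
      intro s
      rw [Derivation.leibniz, smul_eq_mul, smul_eq_mul, ha]
    rw [Finset.sum_congr rfl fun s _ => h3 s, Finset.sum_add_distrib] at h2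
    exact eq_neg_of_add_eq_zero_left h2
  have hterm : ∀ s, ω' (fun u => brP d (F.map j) ((P s u).map j)) =
      D' (ω fun u => brP d (F.map j) ((P s u).map j)) -
        ∑ u, ∑ l, a l * ω (Function.update (fun u => brP d (F.map j) ((P s u).map j)) u
          (brP d (F.map j) ((nb (D l) F (P s u)).map j))) := by
    intro s
    rw [hω' fun u => (P s u).map j]
    congr 1
    refine Finset.sum_congr rfl fun u _ => ?_
    rw [map_nb D D' a ha (P s u), map_sum, AlternatingMap.map_update_sum]
    refine Finset.sum_congr rfl fun l _ => ?_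
    rw [map_smul, AlternatingMap.map_update_smul, smul_eq_mul]
  rw [Finset.sum_congr rfl fun s _ => by rw [hterm s, mul_sub], Finset.sum_sub_distrib, hD0]
  have hfin : ∑ s, ω (fun u => brP d (F.map j) ((P s u).map j)) * ∑ l, a l * j (D l (b s)) +
      ∑ s, j (b s) * ∑ u, ∑ l, a l *
        ω (Function.update (fun u => brP d (F.map j) ((P s u).map j)) u
          (brP d (F.map j) ((nb (D l) F (P s u)).map j))) = 0 := by
    have h5 : ∑ l, a l * ∑ s, (j (D l (b s)) * ω (fun u => brP d (F.map j) ((P s u).map j)) +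
      ∑ u, j (b s) * ω (Function.update (fun u => brP d (F.map j) ((P s u).map j)) u
        (brP d (F.map j) ((nb (D l) F (P s u)).map j)))) = 0 :=
      Finset.sum_eq_zero fun l _ => by rw [hE l, mul_zero]
    rw [← Finset.sum_add_distrib, ← h5]
    have h6 : ∀ l, a l * ∑ s, (j (D l (b s)) *
        ω (fun u => brP d (F.map j) ((P s u).map j)) +
      ∑ u, j (b s) * ω (Function.update (fun u => brP d (F.map j) ((P s u).map j)) u
        (brP d (F.map j) ((nb (D l) F (P s u)).map j)))) =
        ∑ s, a l * (j (D l (b s)) * ω (fun u => brP d (F.map j) ((P s u).map j)) +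
      ∑ u, j (b s) * ω (Function.update (fun u => brP d (F.map j) ((P s u).map j)) u
        (brP d (F.map j) ((nb (D l) F (P s u)).map j)))) := fun l => Finset.mul_sum _ _ _
    rw [Finset.sum_congr rfl fun l _ => h6 l, Finset.sum_comm]
    refine Finset.sum_congr rfl fun s _ => ?_
    rw [Finset.sum_comm (s := Finset.univ (α := Fin r)), Finset.mul_sum, Finset.mul_sum,
      ← Finset.sum_add_distrib]
    refine Finset.sum_congr rfl fun l _ => ?_
    rw [mul_add, Finset.mul_sum, Finset.mul_sum]
    congr 1
    · ring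
    · refine Finset.sum_congr rfl fun u _ => ?_
      ring
  rw [← sub_eq_zero] at hfin
  linear_combination -hfin

end MPadcBM
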